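import Mathlib
import Pool.Agent.R306.GP.VdC
import Pool.Agent.R306.GP.Sums

/-!
Oscillatory integrals with an amplitude and two exponential phases, near a resonance.
-/

set_option autoImplicit false

open MeasureTheory Filter Topology Set Real
open Pool.Agent.H469R2.NK (e norm_e e_add conj_e e_zero)
open Pool.Agent.R306.GP

namespace Run7.h113.CL

/-- the constant -/
noncomputable def Co (c d δ : ℝ) : ℝ := 2 + 2 * (d - c) + π / δ

lemma Co_pos {c d δ : ℝ} (hcd : c ≤ d) (hδ : 0 < δ) : 0 < Co c d δ := by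
  have h0 : 0 ≤ d - c := by linarith
  have := Real.pi_pos
  unfold Co
  positivity

lemma fin_alg {c d δ Λ κ η ω ω' r : ℝ} (hdc : 0 ≤ d - c) (hδ : 0 < δ) (hΛ0 : 0 ≤ Λ) (hη : 0 < η) (hκ0 : 0 ≤ κ) (hr : 0 < r)
    {z1 z2 z3 z4 : ℂ} (h1 : ‖z1‖ ≤ Λ / (η ^ 2 * r)) (h2 : ‖z2‖ ≤ Λ / (η ^ 2 * r))
    (h3 : ‖z3‖ ≤ (κ / η ^ 2 + Λ * ((1 + |ω'|) / (η ^ 2 * r))) * (d - c))
    (h4 : ‖z4‖ ≤ Λ * (η * (1 / |ω|) * (π / δ) + η * (1 / |ω|) * (d - c))) :
    ‖z1 - z2 - z3 + z4‖ ≤ Co c d δ * (Λ * η * (1 / |ω| + 1) + κ / η ^ 2 + Λ * (1 + |ω'|) / (η ^ 2 * r)) := by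
  have hpi : (0:ℝ) < π := Real.pi_pos
  set X := Λ * η * (1 / |ω| + 1) with hX
  set Y := κ / η ^ 2 with hY
  set W := Λ * (1 + |ω'|) / (η ^ 2 * r) with hW
  have hX0 : 0 ≤ X := by positivity
  have hY0 : 0 ≤ Y := by positivity
  have hW0 : 0 ≤ W := by positivity
  have f1 : Λ / (η ^ 2 * r) ≤ W := by
    rw [hW]
    apply div_le_div_of_nonneg_right _ (by positivity)
    nlinarith [mul_nonneg hΛ0 (abs_nonneg ω')]
  have f2 : Λ * ((1 + |ω'|) / (η ^ 2 * r)) = W := by rw [hW]; ring
  have f3 : Λ * (η * (1 / |ω|) * (π / δ) + η * (1 / |ω|) * (d - c)) ≤ X * (π / δ + (d - c)) := by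
    have e1 : Λ * (η * (1 / |ω|) * (π / δ) + η * (1 / |ω|) * (d - c)) = (Λ * η * (1 / |ω|)) * (π / δ + (d - c)) := by ring
    rw [e1]
    apply mul_le_mul_of_nonneg_right _ (by positivity)
    rw [hX]
    have e2 : 0 ≤ Λ * η := by positivity
    nlinarith
  have hpd : 0 ≤ π / δ := by positivity
  have f4 : X * (π / δ + (d - c)) ≤ Co c d δ * X := by
    unfold Co
    have g1 : 0 ≤ (d - c) * X := by positivity
    nlinarith
  rw [f2] at h3
  have g0 : ‖z1 - z2 - z3 + z4‖ ≤ ‖z1‖ + ‖z2‖ + ‖z3‖ + ‖z4‖ := by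
    have k1 := norm_add_le (z1 - z2 - z3) z4
    have k2 := norm_sub_le (z1 - z2) z3
    have k3 := norm_sub_le z1 z2
    linarith
  have g1 : 0 ≤ (d - c) * Y := by positivity
  have g2 : 0 ≤ (d - c) * W := by positivity
  have g3 : 0 ≤ π / δ * Y := by positivity
  have g4 : 0 ≤ π / δ * W := by positivity
  have g5 : W + W + (Y + W) * (d - c) + Co c d δ * X ≤ Co c d δ * (X + Y + W) := by
    unfold Co
    nlinarith
  have g6 := h1.trans f1
  have g7 := h2.trans f1
  have g8 := h4.trans (f3.trans f4)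
  linarith

lemma hd_exp (B A y : ℝ) : HasDerivAt (fun y => B * exp (A * y)) (A * (B * exp (A * y))) y := by
  have h1 : HasDerivAt (fun y : ℝ => A * y) A y := by simpa using (hasDerivAt_id y).const_mul A
  exact (h1.exp.const_mul B).congr_deriv (by ring)

/-- the regularised integration by parts -/
lemma osc0 {c d δ : ℝ} (hcd : c ≤ d) (hδ : 0 < δ) {A1 A2 B1 B2 : ℝ} (hA2 : 1 ≤ A2) (hA1 : 0 ≤ A1)
    (hA : A1 + δ ≤ A2) (hB1 : 0 ≤ B1) (hB12 : B1 ≤ B2) (hB2 : 0 < B2) (hc : 0 ≤ c)
    {F F' : ℝ → ℂ} (hF : ∀ y ∈ Icc c d, HasDerivAt F (F' y) y) (hF'c : ContinuousOn F' (Icc c d))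
    {Λ κ : ℝ} (hκ0 : 0 ≤ κ) (hΛ : ∀ y ∈ Icc c d, ‖F y‖ ≤ Λ)
    (hκ : ∀ y ∈ Icc c d, ‖F' y‖ ≤ κ * (A2 * (B2 * exp (A2 * y))))
    {ω ω' η : ℝ} (hω : ω ≠ 0) (hη : 0 < η) (hη1 : η ≤ 1) :
    ‖∫ y in c..d, F y * e (ω * (B2 * exp (A2 * y)) + ω' * (B1 * exp (A1 * y)))‖ ≤
      Co c d δ * (Λ * η * (1 / |ω| + 1) + κ / η ^ 2 + Λ * (1 + |ω'|) / (η ^ 2 * (B2 * exp (A2 * c)))) := by
  have hpi : (0:ℝ) < π := Real.pi_pos
  have hpi3 : (3:ℝ) < π := Real.pi_gt_three
  have hcm : c ∈ Icc c d := ⟨le_rfl, hcd⟩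
  have hdm : d ∈ Icc c d := ⟨hcd, le_rfl⟩
  have hΛ0 : 0 ≤ Λ := (norm_nonneg _).trans (hΛ c hcm)
  have huIcc : uIcc c d = Icc c d := uIcc_of_le hcd
  have hA20 : 0 < A2 := by linarith
  have hdc : 0 ≤ d - c := by linarith
  have hω0 : 0 < |ω| := abs_pos.mpr hω
  set ρ := (A1 * B1) / (A2 * B2) with hρ
  have hρ0 : 0 ≤ ρ := by positivity
  have hρ1 : ρ ≤ 1 := by
    rw [hρ, div_le_one (by positivity)]
    exact mul_le_mul (by linarith) hB12 hB1 hA20.le
  set D := A2 - A1 with hD
  have hD0 : δ ≤ D := by linarith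
  have hDpos : 0 < D := by linarith
  have hDA : D ≤ A2 := by linarith
  set R : ℝ → ℝ := fun y => B2 * exp (A2 * y) with hR
  have hRpos : ∀ y, 0 < R y := fun y => by simp only [hR]; positivity
  have hRc : ∀ y ∈ Icc c d, R c ≤ R y := by
    intro y hy
    simp only [hR]
    apply mul_le_mul_of_nonneg_left _ hB2.le
    exact Real.exp_le_exp.mpr (mul_le_mul_of_nonneg_left hy.1 hA20.le)
  have hRd : ∀ y, HasDerivAt R (A2 * R y) y := fun y => hd_exp B2 A2 y
  set Q : ℝ → ℝ := fun y => B1 * exp (A1 * y) with hQ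
  have hQd : ∀ y, HasDerivAt Q (A1 * Q y) y := fun y => hd_exp B1 A1 y
  set h : ℝ → ℝ := fun y => ω + ω' * ρ * exp (-D * y) with hh
  set h' : ℝ → ℝ := fun y => -D * (ω' * ρ * exp (-D * y)) with hh'
  have hhd : ∀ y, HasDerivAt h (h' y) y := fun y => (hd_exp (ω' * ρ) (-D) y).const_add ω
  have hhc : Continuous h := by simp only [hh]; fun_prop
  have hh'c : Continuous h' := by simp only [hh']; fun_prop
  have hh'b : ∀ y ∈ Icc c d, |h' y| ≤ A2 * |ω'| := by
    intro y hy
    have hy0 : 0 ≤ y := hc.trans hy.1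
    simp only [hh']
    rw [abs_mul, abs_mul, abs_mul, abs_neg, abs_of_pos hDpos, abs_of_nonneg hρ0, abs_of_pos (Real.exp_pos _)]
    have h1 : exp (-D * y) ≤ 1 := by
      rw [Real.exp_le_one_iff]
      have := mul_nonneg hDpos.le hy0
      linarith
    have h2 : |ω'| * ρ * exp (-D * y) ≤ |ω'| * 1 * 1 := by
      apply mul_le_mul (mul_le_mul_of_nonneg_left hρ1 (abs_nonneg _)) h1 (Real.exp_pos _).le (by positivity)
    calc D * (|ω'| * ρ * exp (-D * y)) ≤ A2 * (|ω'| * 1 * 1) := mul_le_mul hDA h2 (by positivity) hA20.le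
      _ = _ := by ring
  set q : ℝ → ℝ := fun y => h y ^ 2 + η ^ 2 with hq
  have hqpos : ∀ y, 0 < q y := fun y => by simp only [hq]; positivity
  have hqc : Continuous q := (hhc.pow 2).add continuous_const
  -- the multiplier
  set k : ℝ → ℝ := fun y => h y / q y * (A2 * R y)⁻¹ with hk
  set k' : ℝ → ℝ := fun y => (h' y * (η ^ 2 - h y ^ 2)) / (q y) ^ 2 * (A2 * R y)⁻¹ - h y / q y * (R y)⁻¹ with hk'
  have hkd : ∀ y, HasDerivAt k (k' y) y := by
    intro y
    have hq' : HasDerivAt q (2 * h y * h' y) y :=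
      (((hhd y).pow 2).add_const (η ^ 2)).congr_deriv (by push_cast; ring)
    have h1 := (hhd y).div hq' (hqpos y).ne'
    have h2 := (((hRd y).const_mul A2).inv (by have := hRpos y; positivity))
    have h3 := h1.mul h2
    refine h3.congr_deriv ?_
    simp only [hk', Pi.inv_apply, Pi.div_apply]
    simp only [hq]
    have e1 := (hRpos y).ne'
    have e2 : h y ^ 2 + η ^ 2 ≠ 0 := (hqpos y).ne'
    field_simp
    ring
  have hgabs : ∀ y, |h y / q y| ≤ 1 / η := by
    intro y
    rw [abs_div, abs_of_pos (hqpos y), div_le_div_iff₀ (hqpos y) hη, one_mul]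
    simp only [hq]
    nlinarith [sq_nonneg (|h y| - η), sq_abs (h y), sq_nonneg η, abs_nonneg (h y), mul_nonneg (abs_nonneg (h y)) hη.le]
  have hkabs : ∀ y, |k y| ≤ 1 / η * (A2 * R y)⁻¹ := by
    intro y
    simp only [hk]
    rw [abs_mul, abs_inv, abs_of_pos (mul_pos hA20 (hRpos y))]
    exact mul_le_mul_of_nonneg_right (hgabs y) (by have := hRpos y; positivity)
  have hk'abs : ∀ y ∈ Icc c d, |k' y| ≤ (1 + |ω'|) / (η ^ 2 * R c) := by
    intro y hy
    have hRy := hRc y hy
    have hRc0 := hRpos c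
    have hRy0 := hRpos y
    have h1 : |(h' y * (η ^ 2 - h y ^ 2)) / (q y) ^ 2 * (A2 * R y)⁻¹| ≤ |ω'| / (η ^ 2 * R c) := by
      rw [abs_mul, abs_div, abs_mul, abs_of_pos (pow_pos (hqpos y) 2), abs_inv, abs_of_pos (mul_pos hA20 hRy0)]
      have e1 : |η ^ 2 - h y ^ 2| ≤ q y := by
        rw [abs_le]
        simp only [hq]
        constructor <;> nlinarith [sq_nonneg η, sq_nonneg (h y)]
      have e2 : η ^ 2 ≤ q y := by simp only [hq]; nlinarith [sq_nonneg (h y)]
      have e3 : |h' y| * |η ^ 2 - h y ^ 2| / q y ^ 2 ≤ A2 * |ω'| / η ^ 2 := by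
        rw [div_le_div_iff₀ (pow_pos (hqpos y) 2) (by positivity)]
        calc |h' y| * |η ^ 2 - h y ^ 2| * η ^ 2 ≤ (A2 * |ω'|) * q y * q y := by
              apply mul_le_mul _ e2 (by positivity) (by have := hqpos y; positivity)
              exact mul_le_mul (hh'b y hy) e1 (abs_nonneg _) (by positivity)
          _ = _ := by ring
      calc |h' y| * |η ^ 2 - h y ^ 2| / q y ^ 2 * (A2 * R y)⁻¹ ≤ A2 * |ω'| / η ^ 2 * (A2 * R y)⁻¹ :=
            mul_le_mul_of_nonneg_right e3 (by positivity)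
        _ = |ω'| / (η ^ 2 * R y) := by field_simp
        _ ≤ _ := by gcongr
    have h2 : |h y / q y * (R y)⁻¹| ≤ 1 / (η ^ 2 * R c) := by
      rw [abs_mul, abs_inv, abs_of_pos hRy0]
      calc |h y / q y| * (R y)⁻¹ ≤ 1 / η * (R c)⁻¹ :=
            mul_le_mul (hgabs y) (inv_anti₀ hRc0 hRy) (by positivity) (by positivity)
        _ = 1 / (η * R c) := by field_simp
        _ ≤ _ := by
            apply one_div_le_one_div_of_le (by positivity)
            apply mul_le_mul_of_nonneg_right _ hRc0.le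
            nlinarith
    have h3 := abs_sub ((h' y * (η ^ 2 - h y ^ 2)) / (q y) ^ 2 * (A2 * R y)⁻¹) (h y / q y * (R y)⁻¹)
    calc |k' y| ≤ _ := h3
      _ ≤ |ω'| / (η ^ 2 * R c) + 1 / (η ^ 2 * R c) := add_le_add h1 h2
      _ = _ := by ring
  -- integration by parts
  set ψ : ℝ → ℝ := fun y => ω * R y + ω' * Q y with hψ
  set ψ' : ℝ → ℝ := fun y => A2 * R y * h y with hψ'
  have hψd : ∀ y, HasDerivAt ψ (ψ' y) y := by
    intro y
    have h1 := ((hRd y).const_mul ω).add ((hQd y).const_mul ω')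
    refine h1.congr_deriv ?_
    simp only [hψ', hh, hρ, hR, hQ, hD]
    have e1 : exp (-(A2 - A1) * y) = exp (A1 * y) / exp (A2 * y) := by
      rw [← Real.exp_sub]; congr 1; ring
    rw [e1]
    have := Real.exp_pos (A2 * y)
    field_simp
  have hψc : Continuous ψ := continuous_iff_continuousAt.mpr fun y => (hψd y).continuousAt
  have hRcont : Continuous R := continuous_iff_continuousAt.mpr fun y => (hRd y).continuousAt
  have hψ'c : Continuous ψ' := (continuous_const.mul hRcont).mul hhc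
  have hkc : Continuous k := continuous_iff_continuousAt.mpr fun y => (hkd y).continuousAt
  have hk'c : Continuous k' := by
    simp only [hk']
    refine Continuous.sub (Continuous.mul (Continuous.div ?_ ?_ ?_) (Continuous.inv₀ ?_ ?_))
      (Continuous.mul (Continuous.div hhc hqc ?_) (Continuous.inv₀ hRcont ?_))
    · exact hh'c.mul (continuous_const.sub (hhc.pow 2))
    · exact hqc.pow 2
    · exact fun y => pow_ne_zero _ (hqpos y).ne'
    · exact continuous_const.mul hRcont
    · exact fun y => (mul_pos hA20 (hRpos y)).ne'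
    · exact fun y => (hqpos y).ne'
    · exact fun y => (hRpos y).ne'
  have hFc : ContinuousOn F (Icc c d) := fun y hy => (hF y hy).continuousAt.continuousWithinAt
  set u : ℝ → ℂ := fun y => F y * ((k y : ℝ) : ℂ) * (((2 * π : ℝ) : ℂ)⁻¹ * (-Complex.I)) with hu
  set u' : ℝ → ℂ := fun y => (F' y * ((k y : ℝ) : ℂ) + F y * ((k' y : ℝ) : ℂ)) * (((2 * π : ℝ) : ℂ)⁻¹ * (-Complex.I)) with hu'
  set v : ℝ → ℂ := fun y => e (ψ y) with hv
  set v' : ℝ → ℂ := fun y => e (ψ y) * (((2 * π * ψ' y : ℝ) : ℂ) * Complex.I) with hv'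
  have hud : ∀ y ∈ uIcc c d, HasDerivAt u (u' y) y := by
    intro y hy
    rw [huIcc] at hy
    exact ((hF y hy).mul (hkd y).ofReal_comp).mul_const _
  have hvd : ∀ y ∈ uIcc c d, HasDerivAt v (v' y) y := fun y _ => e_hasDerivAt (hψd y)
  have hec : Continuous fun y => e (ψ y) := e_continuous.comp hψc
  have hu'cn : ContinuousOn u' (Icc c d) := by
    refine ContinuousOn.mul (ContinuousOn.add (hF'c.mul ?_) (hFc.mul ?_)) continuousOn_const
    · exact (Complex.continuous_ofReal.comp hkc).continuousOn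
    · exact (Complex.continuous_ofReal.comp hk'c).continuousOn
  have hv'cn : Continuous v' := by
    refine hec.mul (Continuous.mul ?_ continuous_const)
    exact Complex.continuous_ofReal.comp (continuous_const.mul hψ'c)
  have hu'i : IntervalIntegrable u' volume c d := (huIcc ▸ hu'cn).intervalIntegrable
  have hv'i : IntervalIntegrable v' volume c d := hv'cn.intervalIntegrable _ _
  have hparts := intervalIntegral.integral_mul_deriv_eq_deriv_mul hud hvd hu'i hv'i
  have hsplit : ∫ y in c..d, F y * e (ω * (B2 * exp (A2 * y)) + ω' * (B1 * exp (A1 * y))) =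
      (∫ y in c..d, u y * v' y) + ∫ y in c..d, F y * ((η ^ 2 / q y : ℝ) : ℂ) * e (ψ y) := by
    rw [← intervalIntegral.integral_add]
    · apply intervalIntegral.integral_congr
      intro y hy
      simp only [hu, hv']
      have h0 : ((h y / q y * (A2 * R y)⁻¹ : ℝ) : ℂ) * ((2 * π * (A2 * R y * h y) : ℝ) : ℂ) =
          ((2 * π * (h y ^ 2 / q y) : ℝ) : ℂ) := by
        rw [← Complex.ofReal_mul]
        congr 1
        have := (hRpos y).ne'
        have := (hqpos y).ne'
        field_simp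
      have h1 : ((h y ^ 2 / q y : ℝ) : ℂ) + ((η ^ 2 / q y : ℝ) : ℂ) = 1 := by
        rw [← Complex.ofReal_add, ← add_div, div_self (hqpos y).ne', Complex.ofReal_one]
      have h2 : F y * ((k y : ℝ) : ℂ) * (((2 * π : ℝ) : ℂ)⁻¹ * (-Complex.I)) *
          (e (ψ y) * (((2 * π * ψ' y : ℝ) : ℂ) * Complex.I)) = F y * e (ψ y) * ((h y ^ 2 / q y : ℝ) : ℂ) := by
        have e0 : ((2 * π : ℝ) : ℂ) ≠ 0 := by
          rw [Ne, Complex.ofReal_eq_zero]; positivity
        calc F y * ((k y : ℝ) : ℂ) * (((2 * π : ℝ) : ℂ)⁻¹ * (-Complex.I)) *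
              (e (ψ y) * (((2 * π * ψ' y : ℝ) : ℂ) * Complex.I))
            = F y * e (ψ y) * (((k y : ℝ) : ℂ) * ((2 * π * ψ' y : ℝ) : ℂ)) * ((2 * π : ℝ) : ℂ)⁻¹ * (-(Complex.I * Complex.I)) := by ring
          _ = F y * e (ψ y) * ((2 * π * (h y ^ 2 / q y) : ℝ) : ℂ) * ((2 * π : ℝ) : ℂ)⁻¹ := by
              rw [h0, Complex.I_mul_I]; ring
          _ = _ := by
              rw [Complex.ofReal_mul (2 * π)]
              field_simp
      change F y * e (ψ y) = _ + F y * ((η ^ 2 / q y : ℝ) : ℂ) * e (ψ y)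
      rw [h2]
      linear_combination (-(F y * e (ψ y))) * h1
    · refine ContinuousOn.intervalIntegrable ?_
      rw [huIcc]
      refine ContinuousOn.mul (ContinuousOn.mul (hFc.mul ?_) continuousOn_const) hv'cn.continuousOn
      exact (Complex.continuous_ofReal.comp hkc).continuousOn
    · refine ContinuousOn.intervalIntegrable ?_
      rw [huIcc]
      refine ContinuousOn.mul (hFc.mul (Continuous.continuousOn ?_)) hec.continuousOn
      exact Complex.continuous_ofReal.comp (continuous_const.div hqc fun y => (hqpos y).ne')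
  have hnc : ‖(((2 * π : ℝ) : ℂ)⁻¹ * (-Complex.I))‖ ≤ 1 := by
    rw [norm_mul, norm_neg, Complex.norm_I, mul_one, norm_inv, Complex.norm_real, Real.norm_eq_abs,
      abs_of_pos (by positivity : 0 < 2 * π)]
    exact inv_le_one_of_one_le₀ (by linarith)
  -- the boundary terms
  have hub : ∀ y ∈ Icc c d, ‖u y * v y‖ ≤ Λ / (η ^ 2 * R c) := by
    intro y hy
    have hRy := hRc y hy
    have hRc0 := hRpos c
    have hRy0 := hRpos y
    rw [norm_mul, norm_e, mul_one]
    simp only [hu]
    rw [norm_mul, norm_mul, Complex.norm_real, Real.norm_eq_abs]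
    have e1 : |k y| ≤ 1 / (η ^ 2 * R c) := by
      refine (hkabs y).trans ?_
      rw [← div_eq_mul_inv, div_div]
      apply one_div_le_one_div_of_le (by positivity)
      have e2 : η ^ 2 ≤ η := by nlinarith
      calc η ^ 2 * R c ≤ η * R y := mul_le_mul e2 hRy hRc0.le hη.le
        _ ≤ η * (A2 * R y) := by
            apply mul_le_mul_of_nonneg_left _ hη.le
            nlinarith
    calc ‖F y‖ * |k y| * ‖(((2 * π : ℝ) : ℂ)⁻¹ * (-Complex.I))‖ ≤ Λ * (1 / (η ^ 2 * R c)) * 1 := by
          apply mul_le_mul (mul_le_mul (hΛ y hy) e1 (abs_nonneg _) hΛ0) hnc (norm_nonneg _) (by positivity)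
      _ = _ := by ring
  -- the integral of `u' v`
  have hb1 : ‖∫ y in c..d, u' y * v y‖ ≤ (κ / η ^ 2 + Λ * ((1 + |ω'|) / (η ^ 2 * R c))) * (d - c) := by
    have h8 : ∀ y ∈ Set.uIoc c d, ‖u' y * v y‖ ≤ κ / η ^ 2 + Λ * ((1 + |ω'|) / (η ^ 2 * R c)) := by
      intro y hy
      rw [uIoc_of_le hcd] at hy
      have hy' : y ∈ Icc c d := ⟨hy.1.le, hy.2⟩
      rw [norm_mul, norm_e, mul_one]
      simp only [hu']
      rw [norm_mul]
      have e1 : ‖F' y * ((k y : ℝ) : ℂ)‖ ≤ κ / η ^ 2 := by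
        rw [norm_mul, Complex.norm_real, Real.norm_eq_abs]
        have hp : 0 < A2 * R y := mul_pos hA20 (hRpos y)
        calc ‖F' y‖ * |k y| ≤ κ * (A2 * R y) * (1 / η * (A2 * R y)⁻¹) :=
              mul_le_mul (hκ y hy') (hkabs y) (abs_nonneg _) (by positivity)
          _ = κ / η := by
              have := (hRpos y).ne'
              field_simp
          _ ≤ κ / η ^ 2 := by
              apply div_le_div_of_nonneg_left hκ0 (by positivity)
              nlinarith
      have e2 : ‖F y * ((k' y : ℝ) : ℂ)‖ ≤ Λ * ((1 + |ω'|) / (η ^ 2 * R c)) := by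
        rw [norm_mul, Complex.norm_real, Real.norm_eq_abs]
        exact mul_le_mul (hΛ y hy') (hk'abs y hy') (abs_nonneg _) hΛ0
      calc _ ≤ (κ / η ^ 2 + Λ * ((1 + |ω'|) / (η ^ 2 * R c))) * 1 :=
            mul_le_mul ((norm_add_le _ _).trans (add_le_add e1 e2)) hnc (norm_nonneg _)
              (by have := hRpos c; positivity)
        _ = _ := mul_one _
    have h10 := intervalIntegral.norm_integral_le_of_norm_le_const h8
    rwa [abs_of_nonneg hdc] at h10
  -- the remaining integral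
  have hb2 : ‖∫ y in c..d, F y * ((η ^ 2 / q y : ℝ) : ℂ) * e (ψ y)‖ ≤ Λ * (η * (1 / |ω|) * (π / δ) + η * (1 / |ω|) * (d - c)) := by
    have hpt : ∀ y ∈ Icc c d, ‖F y * ((η ^ 2 / q y : ℝ) : ℂ) * e (ψ y)‖ ≤
        Λ * (1 / |ω|) * (1 / δ * (|h' y| * (η ^ 2 / q y)) + η) := by
      intro y hy
      rw [norm_mul, norm_e, mul_one, norm_mul, Complex.norm_real, Real.norm_eq_abs,
        abs_of_nonneg (by have := hqpos y; positivity : 0 ≤ η ^ 2 / q y)]
      have e1 : |ω| ≤ |h' y| / δ + |h y| := by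
        have e2 : ω = h y - ω' * ρ * exp (-D * y) := by simp only [hh]; ring
        have e3 : |ω' * ρ * exp (-D * y)| ≤ |h' y| / δ := by
          simp only [hh']
          rw [abs_mul (-D), abs_neg, abs_of_pos hDpos, le_div_iff₀ hδ, mul_comm]
          exact mul_le_mul_of_nonneg_right hD0 (abs_nonneg _)
        have e4 := abs_sub (h y) (ω' * ρ * exp (-D * y))
        rw [← e2] at e4
        linarith
      have e5 : |h y| * (η ^ 2 / q y) ≤ η := by
        rw [mul_div_assoc', div_le_iff₀ (hqpos y)]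
        simp only [hq]
        nlinarith [sq_nonneg (|h y| - η), sq_abs (h y), abs_nonneg (h y), sq_nonneg (h y), mul_nonneg hη.le (abs_nonneg (h y)),
          mul_nonneg hη.le (sq_nonneg (|h y| - η)), mul_nonneg hη.le (sq_nonneg (h y)), pow_pos hη 3]
      have e6 : |ω| * (η ^ 2 / q y) ≤ 1 / δ * (|h' y| * (η ^ 2 / q y)) + η := by
        have hpq : 0 ≤ η ^ 2 / q y := by have := hqpos y; positivity
        calc |ω| * (η ^ 2 / q y) ≤ (|h' y| / δ + |h y|) * (η ^ 2 / q y) := mul_le_mul_of_nonneg_right e1 hpq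
          _ = 1 / δ * (|h' y| * (η ^ 2 / q y)) + |h y| * (η ^ 2 / q y) := by ring
          _ ≤ _ := by linarith
      calc ‖F y‖ * (η ^ 2 / q y) ≤ Λ * (η ^ 2 / q y) :=
            mul_le_mul_of_nonneg_right (hΛ y hy) (by have := hqpos y; positivity)
        _ = Λ * (1 / |ω|) * (|ω| * (η ^ 2 / q y)) := by field_simp
        _ ≤ _ := mul_le_mul_of_nonneg_left e6 (by positivity)
    have hint : ∫ y in c..d, |h' y| * (η ^ 2 / q y) ≤ η * π := by
      -- the sign of `h'` is constant
      have hgen : ∀ s : ℝ, |s| = 1 → (∀ y, |h' y| = s * h' y) → ∫ y in c..d, |h' y| * (η ^ 2 / q y) ≤ η * π := by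
        intro s hs hsgn
        have hder : ∀ y ∈ uIcc c d, HasDerivAt (fun y => s * (η * Real.arctan (h y / η))) (|h' y| * (η ^ 2 / q y)) y := by
          intro y _
          have h1 := (((hhd y).div_const η).arctan.const_mul η).const_mul s
          refine h1.congr_deriv ?_
          rw [hsgn y]
          simp only [hq]
          field_simp
          ring
        rw [intervalIntegral.integral_eq_sub_of_hasDerivAt hder]
        · have e1 : |Real.arctan (h d / η) - Real.arctan (h c / η)| ≤ π := by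
            have := Real.arctan_lt_pi_div_two (h d / η)
            have := Real.neg_pi_div_two_lt_arctan (h d / η)
            have := Real.arctan_lt_pi_div_two (h c / η)
            have := Real.neg_pi_div_two_lt_arctan (h c / η)
            rw [abs_le]
            constructor <;> linarith
          calc s * (η * Real.arctan (h d / η)) - s * (η * Real.arctan (h c / η))
              ≤ |s * (η * Real.arctan (h d / η)) - s * (η * Real.arctan (h c / η))| := le_abs_self _
            _ = |s| * (η * |Real.arctan (h d / η) - Real.arctan (h c / η)|) := by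
                rw [← mul_sub, ← mul_sub, abs_mul, abs_mul, abs_of_pos hη]
            _ ≤ _ := by
                rw [hs, one_mul]
                exact mul_le_mul_of_nonneg_left e1 hη.le
        · refine Continuous.intervalIntegrable ?_ _ _
          exact (hh'c.abs).mul (continuous_const.div hqc fun y => (hqpos y).ne')
      rcases le_total 0 ω' with hw | hw
      · refine hgen (-1) (by norm_num) fun y => ?_
        have : h' y ≤ 0 := by
          simp only [hh']
          have : 0 ≤ D * (ω' * ρ * exp (-D * y)) := by positivity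
          linarith
        rw [abs_of_nonpos this]; ring
      · refine hgen 1 (by norm_num) fun y => ?_
        have : 0 ≤ h' y := by
          simp only [hh']
          have : D * (ω' * ρ * exp (-D * y)) ≤ 0 := by
            apply mul_nonpos_of_nonneg_of_nonpos hDpos.le
            apply mul_nonpos_of_nonpos_of_nonneg (mul_nonpos_of_nonpos_of_nonneg hw hρ0) (Real.exp_pos _).le
          linarith
        rw [abs_of_nonneg this]; ring
    have hcont : Continuous fun y => |h' y| * (η ^ 2 / q y) :=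
      (hh'c.abs).mul (continuous_const.div hqc fun y => (hqpos y).ne')
    calc ‖∫ y in c..d, F y * ((η ^ 2 / q y : ℝ) : ℂ) * e (ψ y)‖
        ≤ ∫ y in c..d, Λ * (1 / |ω|) * (1 / δ * (|h' y| * (η ^ 2 / q y)) + η) := by
          apply intervalIntegral.norm_integral_le_of_norm_le hcd
          · refine Eventually.of_forall fun y hy => hpt y ⟨hy.1.le, hy.2⟩
          · exact (continuous_const.mul ((continuous_const.mul hcont).add continuous_const)).intervalIntegrable _ _
      _ = Λ * (1 / |ω|) * (1 / δ * (∫ y in c..d, |h' y| * (η ^ 2 / q y)) + (d - c) * η) := by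
          rw [intervalIntegral.integral_const_mul, intervalIntegral.integral_add, intervalIntegral.integral_const_mul,
            intervalIntegral.integral_const, smul_eq_mul]
          · exact (continuous_const.mul hcont).intervalIntegrable _ _
          · exact continuous_const.intervalIntegrable _ _
      _ ≤ Λ * (1 / |ω|) * (1 / δ * (η * π) + (d - c) * η) := by
          apply mul_le_mul_of_nonneg_left _ (by positivity)
          have := mul_le_mul_of_nonneg_left hint (by positivity : 0 ≤ 1 / δ)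
          linarith
      _ = _ := by ring
  rw [hsplit, hparts]
  have hRc0 := hRpos c
  refine fin_alg hdc hδ hΛ0 hη hκ0 hRc0 (hub d hdm) (hub c hcm) hb1 hb2

end Run7.h113.CL
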