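import Mathlib
import Pool.Agent.Run7.h113.CL.Osc
import Pool.Agent.R306.GP.Pows
import Pool.Agent.R306.GP.AEb

/-!
Trigonometric polynomials without constant term.
-/

set_option autoImplicit false

open MeasureTheory Filter Topology Set Real
open Pool.Agent.H469R2.NK (e norm_e e_add conj_e e_zero)
open Pool.Agent.H383.Gen (U Bd)
open Pool.Agent.Y969.TM
open Pool.Agent.R306.GP

namespace Run7.h113.CL

/-- `H` is a sum of exponentials with frequencies between `1 / W` and `W` and coefficients of sum at most `A` -/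
def IsTP (A W : ℝ) (H : ℝ → ℂ) : Prop :=
  ∃ (ι : Type) (S : Finset ι) (cc : ι → ℂ) (ω : ι → ℝ), (∀ R, H R = ∑ x ∈ S, cc x * e (R * ω x)) ∧
    ∑ x ∈ S, ‖cc x‖ ≤ A ∧ ∀ x ∈ S, 1 ≤ |ω x| * W ∧ |ω x| ≤ W

variable {A A' W W' : ℝ} {H H' : ℝ → ℂ}

lemma IsTP.nonneg (h : IsTP A W H) : 0 ≤ A := by
  obtain ⟨ι, S, cc, ω, h1, h2, h3⟩ := h
  exact (Finset.sum_nonneg fun _ _ => norm_nonneg _).trans h2

lemma IsTP.norm_le (h : IsTP A W H) (R : ℝ) : ‖H R‖ ≤ A := by
  obtain ⟨ι, S, cc, ω, h1, h2, h3⟩ := h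
  rw [h1]
  refine (norm_sum_le _ _).trans ((Finset.sum_le_sum fun x _ => ?_).trans h2)
  rw [norm_mul, norm_e, mul_one]

lemma IsTP.mono (h : IsTP A W H) (hA : A ≤ A') (hW : W ≤ W') : IsTP A' W' H := by
  obtain ⟨ι, S, cc, ω, h1, h2, h3⟩ := h
  refine ⟨ι, S, cc, ω, h1, h2.trans hA, fun x hx => ⟨(h3 x hx).1.trans ?_, (h3 x hx).2.trans hW⟩⟩
  exact mul_le_mul_of_nonneg_left hW (abs_nonneg _)

lemma IsTP.zero (hA : 0 ≤ A) : IsTP A W (fun _ => 0) :=
  ⟨ℕ, ∅, fun _ => 0, fun _ => 0, fun _ => by simp, by simpa using hA, by simp⟩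

lemma IsTP.add (h : IsTP A W H) (h' : IsTP A' W H') : IsTP (A + A') W (fun R => H R + H' R) := by
  obtain ⟨ι, S, cc, ω, h1, h2, h3⟩ := h
  obtain ⟨ι', S', cc', ω', h1', h2', h3'⟩ := h'
  refine ⟨ι ⊕ ι', S.disjSum S', Sum.elim cc cc', Sum.elim ω ω', fun R => ?_, ?_, ?_⟩
  · beta_reduce
    rw [Finset.sum_disjSum, h1, h1']
    simp
  · rw [Finset.sum_disjSum]
    simpa using add_le_add h2 h2'
  · intro x hx
    rcases x with x | x
    · exact h3 x (by simpa using hx)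
    · exact h3' x (by simpa using hx)

lemma IsTP.smul (h : IsTP A W H) (z : ℂ) : IsTP (‖z‖ * A) W (fun R => z * H R) := by
  obtain ⟨ι, S, cc, ω, h1, h2, h3⟩ := h
  refine ⟨ι, S, fun x => z * cc x, ω, fun R => ?_, ?_, h3⟩
  · beta_reduce
    rw [h1, Finset.mul_sum]
    exact Finset.sum_congr rfl fun x _ => by ring
  · simp only [norm_mul]
    rw [← Finset.mul_sum]
    exact mul_le_mul_of_nonneg_left h2 (norm_nonneg _)

lemma IsTP.neg (h : IsTP A W H) : IsTP A W (fun R => - H R) := by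
  have := h.smul (-1)
  simpa using this

lemma IsTP.sub (h : IsTP A W H) (h' : IsTP A' W H') : IsTP (A + A') W (fun R => H R - H' R) := by
  simpa [sub_eq_add_neg] using h.add h'.neg

lemma IsTP.star (h : IsTP A W H) : IsTP A W (fun R => (starRingEnd ℂ) (H R)) := by
  obtain ⟨ι, S, cc, ω, h1, h2, h3⟩ := h
  refine ⟨ι, S, fun x => (starRingEnd ℂ) (cc x), fun x => - ω x, fun R => ?_, ?_, fun x hx => ?_⟩
  · beta_reduce
    rw [h1, map_sum]
    refine Finset.sum_congr rfl fun x _ => ?_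
    rw [map_mul, conj_e]
    congr 2
    ring
  · simpa using h2
  · rw [abs_neg]; exact h3 x hx

lemma IsTP.sum {κ : Type*} (s : Finset κ) {Af : κ → ℝ} {Hf : κ → ℝ → ℂ} (h : ∀ i ∈ s, IsTP (Af i) W (Hf i)) :
    IsTP (∑ i ∈ s, Af i) W (fun R => ∑ i ∈ s, Hf i R) := by
  classical
  induction s using Finset.induction_on with
  | empty => simpa using IsTP.zero (W := W) le_rfl
  | insert i s hi ih =>
    simp only [Finset.sum_insert hi]
    exact (h i (Finset.mem_insert_self i s)).add (ih fun j hj => h j (Finset.mem_insert_of_mem hj))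

lemma IsTP.cont (h : IsTP A W H) : Continuous H := by
  obtain ⟨ι, S, cc, ω, h1, h2, h3⟩ := h
  have : H = fun R => ∑ x ∈ S, cc x * e (R * ω x) := funext h1
  rw [this]
  exact continuous_finsetSum _ fun x _ => continuous_const.mul (e_continuous.comp (continuous_id.mul continuous_const))

/-- the derivative -/
lemma IsTP.deriv (h : IsTP A W H) (hW0 : 0 ≤ W) : ∃ H' : ℝ → ℂ, (∀ R, HasDerivAt H (H' R) R) ∧ Continuous H' ∧ ∀ R, ‖H' R‖ ≤ 2 * π * W * A := by
  obtain ⟨ι, S, cc, ω, h1, h2, h3⟩ := h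
  have hH : H = fun R => ∑ x ∈ S, cc x * e (R * ω x) := funext h1
  refine ⟨fun R => ∑ x ∈ S, cc x * (e (R * ω x) * (((2 * π * ω x : ℝ) : ℂ) * Complex.I)), fun R => ?_, ?_, fun R => ?_⟩
  · rw [hH]
    have := HasDerivAt.fun_sum (u := S) (A := fun x R => cc x * e (R * ω x))
      (A' := fun x => cc x * (e (R * ω x) * (((2 * π * ω x : ℝ) : ℂ) * Complex.I))) (x := R) (fun x _ => by
        have h4 : HasDerivAt (fun R : ℝ => R * ω x) (ω x) R := by simpa using (hasDerivAt_id R).mul_const (ω x)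
        exact (e_hasDerivAt h4).const_mul _)
    exact this
  · exact continuous_finsetSum _ fun x _ => continuous_const.mul
      ((e_continuous.comp (continuous_id.mul continuous_const)).mul continuous_const)
  · refine (norm_sum_le _ _).trans ?_
    have hpi := Real.pi_pos
    calc ∑ x ∈ S, ‖cc x * (e (R * ω x) * (((2 * π * ω x : ℝ) : ℂ) * Complex.I))‖
        ≤ ∑ x ∈ S, 2 * π * W * ‖cc x‖ := by
          apply Finset.sum_le_sum
          intro x hx
          rw [norm_mul, norm_mul, norm_e, one_mul, norm_mul, Complex.norm_I, mul_one, Complex.norm_real, Real.norm_eq_abs,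
            abs_mul, abs_of_pos (by positivity : 0 < 2 * π)]
          have := (h3 x hx).2
          calc ‖cc x‖ * (2 * π * |ω x|) = (2 * π * |ω x|) * ‖cc x‖ := by ring
            _ ≤ _ := by gcongr
      _ = 2 * π * W * ∑ x ∈ S, ‖cc x‖ := by rw [Finset.mul_sum]
      _ ≤ _ := mul_le_mul_of_nonneg_left h2 (by positivity)

/-! ### polynomials in the model polynomials -/

/-- the flipped index -/
def fl (x : ℕ × Bool) : ℕ × Bool := (x.1, !x.2)

lemma fl_fl (x : ℕ × Bool) : fl (fl x) = x := by simp [fl]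

lemma sb_not (b : Bool) : sb (!b) = - sb b := by cases b <;> simp [sb]

lemma fq_fl (x : ℕ × Bool) : fq (fl x) = - fq x := by
  unfold fq fl
  simp only [sb_not]
  push_cast
  ring

lemma cf_fl (af : ℕ → ℝ) (φ : ℝ) (x : ℕ × Bool) : cf af φ (fl x) = (starRingEnd ℂ) (cf af φ x) := by
  unfold cf fl
  simp only [sb_not]
  rw [map_mul, Complex.conj_ofReal, ← Complex.exp_conj, map_mul, Complex.conj_I, Complex.conj_ofReal]
  congr 2
  push_cast
  ring

lemma ZZ_conj (af : ℕ → ℝ) (φ : ℝ) (r M : ℕ) : (starRingEnd ℂ) (ZZ af φ r M) = ZZ af φ r M := by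
  classical
  unfold ZZ
  rw [map_sum]
  refine Finset.sum_nbij' (fun y i => fl (y i)) (fun y i => fl (y i)) ?_ ?_ ?_ ?_ ?_
  · intro y hy
    rw [Finset.mem_filter] at hy ⊢
    refine ⟨?_, ?_⟩
    · have h1 := hy.1
      unfold TT at h1 ⊢
      rw [Fintype.mem_piFinset] at h1 ⊢
      intro i
      have := h1 i
      unfold JS at this ⊢
      simpa [fl] using this
    · simp only [fq_fl, Finset.sum_neg_distrib, hy.2, neg_zero]
  · intro y hy
    rw [Finset.mem_filter] at hy ⊢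
    refine ⟨?_, ?_⟩
    · have h1 := hy.1
      unfold TT at h1 ⊢
      rw [Fintype.mem_piFinset] at h1 ⊢
      intro i
      have := h1 i
      unfold JS at this ⊢
      simpa [fl] using this
    · simp only [fq_fl, Finset.sum_neg_distrib, hy.2, neg_zero]
  · intro y _
    funext i
    exact fl_fl _
  · intro y _
    funext i
    exact fl_fl _
  · intro y _
    rw [map_prod]
    exact Finset.prod_congr rfl fun i _ => (cf_fl af φ (y i)).symm

lemma ZZ_re (af : ℕ → ℝ) (φ : ℝ) (r M : ℕ) : (((ZZ af φ r M).re : ℝ) : ℂ) = ZZ af φ r M :=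
  (Complex.conj_eq_iff_re.mp (ZZ_conj af φ r M))

/-- the mean of a polynomial in the model polynomial -/
noncomputable def mn (af : ℕ → ℝ) (φ : ℝ) (g : Polynomial ℝ) (M : ℕ) : ℝ :=
  ∑ k ∈ Finset.range (g.natDegree + 1), g.coeff k * (ZZ af φ k M).re

lemma mn_eq (af : ℕ → ℝ) (φ : ℝ) (g : Polynomial ℝ) (M : ℕ) {n : ℕ} (hn : g.natDegree < n) :
    mn af φ g M = ∑ k ∈ Finset.range n, g.coeff k * (ZZ af φ k M).re := by
  unfold mn
  apply Finset.sum_subset (Finset.range_mono (by omega))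
  intro k _ hk
  rw [Finset.mem_range, not_lt] at hk
  rw [Polynomial.coeff_eq_zero_of_natDegree_lt (by omega), zero_mul]

lemma mn_add (af : ℕ → ℝ) (φ : ℝ) (g h : Polynomial ℝ) (M : ℕ) : mn af φ (g + h) M = mn af φ g M + mn af φ h M := by
  have h1 := Polynomial.natDegree_add_le g h
  rw [mn_eq af φ g M (n := max g.natDegree h.natDegree + 1) (by have := le_max_left g.natDegree h.natDegree; omega),
    mn_eq af φ h M (n := max g.natDegree h.natDegree + 1) (by have := le_max_right g.natDegree h.natDegree; omega),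
    mn_eq af φ (g + h) M (n := max g.natDegree h.natDegree + 1) (by omega), ← Finset.sum_add_distrib]
  apply Finset.sum_congr rfl
  intro k _
  rw [Polynomial.coeff_add]
  ring

lemma mn_C (af : ℕ → ℝ) (φ : ℝ) (x : ℝ) (M : ℕ) : mn af φ (Polynomial.C x) M = x := by
  unfold mn
  rw [Polynomial.natDegree_C, zero_add, Finset.sum_range_one, Polynomial.coeff_C_zero]
  have : ZZ af φ 0 M = 1 := by
    unfold ZZ
    rw [Finset.filter_true_of_mem (fun y _ => by simp)]
    unfold TT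
    simp
  rw [this, Complex.one_re, mul_one]

lemma abs_fq_le {r M : ℕ} {y : Fin r → ℕ × Bool} (hy : y ∈ TT r M) : |∑ i, fq (y i)| ≤ r * M := by
  refine (Finset.abs_sum_le_sum_abs _ _).trans ?_
  calc ∑ i, |fq (y i)| ≤ ∑ _i : Fin r, (M:ℝ) := by
        apply Finset.sum_le_sum
        intro i _
        unfold TT at hy
        rw [Fintype.mem_piFinset] at hy
        have h1 := hy i
        unfold JS at h1
        rw [Finset.mem_product, Finset.mem_Icc] at h1
        unfold fq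
        rw [abs_mul, abs_of_nonneg (Real.sqrt_nonneg _)]
        have h2 : |((sb (y i).2 : ℤ) : ℝ)| = 1 := by cases (y i).2 <;> simp [sb]
        rw [h2, one_mul, Real.sqrt_le_left (Nat.cast_nonneg M)]
        exact_mod_cast h1.1.2
    _ = _ := by rw [Finset.sum_const, Finset.card_univ, Fintype.card_fin, nsmul_eq_mul]

open Classical in
lemma tp_pow (af : ℕ → ℝ) (φ : ℝ) (r M : ℕ) : IsTP (AA af M ^ r) (max (((r * M + 1 : ℕ) : ℝ) ^ (2 ^ r)) (r * M))
    (fun R => ((U af φ R M : ℝ) : ℂ) ^ r - ZZ af φ r M) := by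
  refine ⟨Fin r → ℕ × Bool, (TT r M).filter (fun y => ∑ i, fq (y i) ≠ 0), fun y => ∏ i, cf af φ (y i), fun y => ∑ i, fq (y i),
    fun R => pow_expand af φ r M R, sum_norm_filter af φ r M _, fun y hy => ?_⟩
  rw [Finset.mem_filter] at hy
  refine ⟨(sum_fq_gap hy.1 hy.2).trans ?_, (abs_fq_le hy.1).trans (le_max_right _ _)⟩
  exact mul_le_mul_of_nonneg_left (le_max_left _ _) (abs_nonneg _)

lemma eval_sub_mn (af : ℕ → ℝ) (φ : ℝ) (g : Polynomial ℝ) (M : ℕ) (R : ℝ) :
    ((g.eval (U af φ R M) - mn af φ g M : ℝ) : ℂ) =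
      ∑ k ∈ Finset.range (g.natDegree + 1), ((g.coeff k : ℝ) : ℂ) * (((U af φ R M : ℝ) : ℂ) ^ k - ZZ af φ k M) := by
  rw [Polynomial.eval_eq_sum_range]
  unfold mn
  rw [← Finset.sum_sub_distrib]
  push_cast
  apply Finset.sum_congr rfl
  intro k _
  rw [ZZ_re]
  ring

/-- the polynomial functions of the model polynomials, minus their means -/
theorem tp_poly {af : ℕ → ℝ} (ha : Bd af) (φ : ℝ) (g : Polynomial ℝ) : ∃ (C : ℝ) (q : ℕ), 1 ≤ C ∧ 1 ≤ q ∧ ∀ M : ℕ, 1 ≤ M →
    IsTP (C * (M:ℝ) ^ q) (C * (M:ℝ) ^ q) (fun R => ((g.eval (U af φ R M) - mn af φ g M : ℝ) : ℂ)) := by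
  obtain ⟨Cs, hCs, hAA⟩ := AA_le ha
  set D := g.natDegree with hD
  set C1 := ∑ k ∈ Finset.range (D + 1), |g.coeff k| * Cs ^ D with hC1
  have hC10 : 0 ≤ C1 := Finset.sum_nonneg fun _ _ => by positivity
  refine ⟨C1 + ((D:ℝ) + 1) ^ (2 ^ D) + 1, 2 * D + 2 ^ D, by
    have : 0 ≤ ((D:ℝ) + 1) ^ (2 ^ D) := by positivity
    linarith, by have := Nat.one_le_two_pow (n := D); omega, fun M hM => ?_⟩
  have hM1 : (1:ℝ) ≤ M := by exact_mod_cast hM
  have h1 : IsTP (∑ k ∈ Finset.range (D + 1), ‖((g.coeff k : ℝ) : ℂ)‖ * AA af M ^ k) (((D:ℝ) + 1) ^ (2 ^ D) * (M:ℝ) ^ (2 ^ D))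
      (fun R => ∑ k ∈ Finset.range (D + 1), ((g.coeff k : ℝ) : ℂ) * (((U af φ R M : ℝ) : ℂ) ^ k - ZZ af φ k M)) := by
    refine IsTP.sum _ fun k hk => ?_
    have hkD : k ≤ D := by rw [Finset.mem_range] at hk; omega
    refine ((tp_pow af φ k M).mono le_rfl ?_).smul _
    rw [max_le_iff, ← mul_pow]
    have e1 : (((k * M + 1 : ℕ)) : ℝ) ≤ (D + 1) * M := by
      push_cast
      have : (k:ℝ) ≤ D := by exact_mod_cast hkD
      nlinarith
    have e2 : (1:ℝ) ≤ (D + 1) * M := by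
      have : (0:ℝ) ≤ D := Nat.cast_nonneg D
      nlinarith
    constructor
    · calc (((k * M + 1 : ℕ)) : ℝ) ^ (2 ^ k) ≤ ((D + 1) * (M:ℝ)) ^ (2 ^ k) := pow_le_pow_left₀ (Nat.cast_nonneg _) e1 _
        _ ≤ _ := pow_le_pow_right₀ e2 (Nat.pow_le_pow_right (by norm_num) hkD)
    · calc (k:ℝ) * M ≤ (D + 1) * M := by
            have : (k:ℝ) ≤ D := by exact_mod_cast hkD
            nlinarith
        _ = ((D + 1) * (M:ℝ)) ^ 1 := (pow_one _).symm
        _ ≤ _ := pow_le_pow_right₀ e2 Nat.one_le_two_pow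
  have h2 : (fun R => ((g.eval (U af φ R M) - mn af φ g M : ℝ) : ℂ)) =
      fun R => ∑ k ∈ Finset.range (D + 1), ((g.coeff k : ℝ) : ℂ) * (((U af φ R M : ℝ) : ℂ) ^ k - ZZ af φ k M) :=
    funext fun R => eval_sub_mn af φ g M R
  rw [h2]
  refine h1.mono ?_ ?_
  · calc ∑ k ∈ Finset.range (D + 1), ‖((g.coeff k : ℝ) : ℂ)‖ * AA af M ^ k
        ≤ ∑ k ∈ Finset.range (D + 1), |g.coeff k| * Cs ^ D * (M:ℝ) ^ (2 * D + 2 ^ D) := by
          apply Finset.sum_le_sum
          intro k hk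
          have hkD : k ≤ D := by rw [Finset.mem_range] at hk; omega
          rw [Complex.norm_real, Real.norm_eq_abs, mul_assoc]
          apply mul_le_mul_of_nonneg_left _ (abs_nonneg _)
          calc AA af M ^ k ≤ (Cs * (M:ℝ) ^ 2) ^ k := pow_le_pow_left₀ (AA_nonneg _ _) (hAA M) k
            _ = Cs ^ k * (M:ℝ) ^ (2 * k) := by rw [mul_pow, ← pow_mul]
            _ ≤ Cs ^ D * (M:ℝ) ^ (2 * D + 2 ^ D) :=
                mul_le_mul (pow_le_pow_right₀ hCs hkD) (pow_le_pow_right₀ hM1 (le_trans (Nat.mul_le_mul_left 2 hkD) (Nat.le_add_right _ _))) (by positivity) (by positivity)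
      _ = C1 * (M:ℝ) ^ (2 * D + 2 ^ D) := by rw [← Finset.sum_mul]
      _ ≤ _ := by
          apply mul_le_mul_of_nonneg_right _ (by positivity)
          have : 0 ≤ ((D:ℝ) + 1) ^ (2 ^ D) := by positivity
          linarith
  · calc ((D:ℝ) + 1) ^ (2 ^ D) * (M:ℝ) ^ (2 ^ D) ≤ ((D:ℝ) + 1) ^ (2 ^ D) * (M:ℝ) ^ (2 * D + 2 ^ D) :=
          mul_le_mul_of_nonneg_left (pow_le_pow_right₀ hM1 (by omega)) (by positivity)
      _ ≤ _ := by
          apply mul_le_mul_of_nonneg_right _ (by positivity)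
          linarith

end Run7.h113.CL
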