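import Mathlib
import Pool.Agent.Run7.h113.CL.TP

/-!
Near-orthogonality of trigonometric polynomials at the points `b_n exp(a_n y)`.
-/

set_option autoImplicit false

open MeasureTheory Filter Topology Set Real
open Pool.Agent.H469R2.NK (e norm_e e_add conj_e e_zero)
open Pool.Agent.R306.GP

namespace Run7.h113.CL

variable {a b : ℕ → ℝ} {δ c d : ℝ} {A A' W W' : ℝ} {H H' : ℝ → ℂ}

/-- one trigonometric polynomial against an amplitude -/
lemma osc_tp (h : Sq a b δ) (hc : 0 < c) (hcd : c ≤ d) {F F' : ℝ → ℂ} (hF : ∀ y ∈ Icc c d, HasDerivAt F (F' y) y)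
    (hF'c : ContinuousOn F' (Icc c d)) {Λ κ η : ℝ} (hκ0 : 0 ≤ κ) (hΛ : ∀ y ∈ Icc c d, ‖F y‖ ≤ Λ) {m : ℕ}
    (hκ : ∀ y ∈ Icc c d, ‖F' y‖ ≤ κ * (a m * pt a b m y)) (hη : 0 < η) (hη1 : η ≤ 1) (hW : 0 ≤ W) (hH : IsTP A W H) :
    ‖∫ y in c..d, F y * H (pt a b m y)‖ ≤
      A * (Co c d δ * (Λ * η * (W + 1) + κ / η ^ 2 + Λ / (η ^ 2 * pt a b m c))) := by
  obtain ⟨ι, S, cc, ω, h1, h2, h3⟩ := hH
  have hFc : ContinuousOn F (Icc c d) := fun y hy => (hF y hy).continuousAt.continuousWithinAt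
  have hcm : c ∈ Icc c d := ⟨le_rfl, hcd⟩
  have hΛ0 : 0 ≤ Λ := (norm_nonneg _).trans (hΛ c hcm)
  have hpt := pt_pos h m c
  have hCo := Co_pos hcd h.dpos
  have e1 : ∀ y, F y * H (pt a b m y) = ∑ x ∈ S, cc x * (F y * e (ω x * (b m * exp (a m * y)) + 0 * (0 * exp ((a m - δ) * y)))) := by
    intro y
    rw [h1, Finset.mul_sum]
    apply Finset.sum_congr rfl
    intro x _
    have : pt a b m y * ω x = ω x * (b m * exp (a m * y)) + 0 * (0 * exp ((a m - δ) * y)) := by unfold pt; ring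
    rw [this]; ring
  simp only [e1]
  rw [intervalIntegral.integral_finsetSum]
  · refine (norm_sum_le _ _).trans ?_
    calc ∑ x ∈ S, ‖∫ y in c..d, cc x * (F y * e (ω x * (b m * exp (a m * y)) + 0 * (0 * exp ((a m - δ) * y))))‖
        ≤ ∑ x ∈ S, ‖cc x‖ * (Co c d δ * (Λ * η * (W + 1) + κ / η ^ 2 + Λ / (η ^ 2 * pt a b m c))) := by
          apply Finset.sum_le_sum
          intro x hx
          obtain ⟨k1, k2⟩ := h3 x hx
          rw [intervalIntegral.integral_const_mul, norm_mul]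
          apply mul_le_mul_of_nonneg_left _ (norm_nonneg _)
          have hω : ω x ≠ 0 := by
            intro h0
            rw [h0, abs_zero, zero_mul] at k1
            linarith
          have hω0 : 0 < |ω x| := abs_pos.mpr hω
          have k3 := osc0 hcd h.dpos (A1 := a m - δ) (A2 := a m) (B1 := 0) (B2 := b m) (h.one m)
            (by linarith [h.one m, h.done]) (by linarith) le_rfl (h.pos m).le (h.pos m) hc.le hF hF'c hκ0 hΛ hκ hω (ω' := 0) hη hη1
          refine k3.trans ?_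
          apply mul_le_mul_of_nonneg_left _ hCo.le
          have k4 : 1 / |ω x| ≤ W := by rw [div_le_iff₀ hω0, mul_comm]; exact k1
          rw [abs_zero, add_zero, mul_one]
          have k5 : Λ * η * (1 / |ω x| + 1) ≤ Λ * η * (W + 1) := by gcongr
          have k6 : Λ / (η ^ 2 * (b m * exp (a m * c))) = Λ / (η ^ 2 * pt a b m c) := rfl
          rw [k6]
          linarith
      _ = (∑ x ∈ S, ‖cc x‖) * _ := by rw [← Finset.sum_mul]
      _ ≤ _ := mul_le_mul_of_nonneg_right h2 (by positivity)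
  · intro x _
    refine ContinuousOn.intervalIntegrable ?_
    rw [uIcc_of_le hcd]
    refine continuousOn_const.mul (hFc.mul (Continuous.continuousOn ?_))
    exact e_continuous.comp (by fun_prop)

/-- two trigonometric polynomials against an amplitude -/
lemma osc_tp2 (h : Sq a b δ) (hc : 0 < c) (hcd : c ≤ d) {F F' : ℝ → ℂ} (hF : ∀ y ∈ Icc c d, HasDerivAt F (F' y) y)
    (hF'c : ContinuousOn F' (Icc c d)) {Λ κ η : ℝ} (hκ0 : 0 ≤ κ) (hΛ : ∀ y ∈ Icc c d, ‖F y‖ ≤ Λ) {n m : ℕ} (hnm : n < m)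
    (hκ : ∀ y ∈ Icc c d, ‖F' y‖ ≤ κ * (a m * pt a b m y)) (hη : 0 < η) (hη1 : η ≤ 1) (hW : 0 ≤ W) (hW' : 0 ≤ W')
    (hH : IsTP A W H) (hH' : IsTP A' W' H') :
    ‖∫ y in c..d, F y * (H (pt a b m y) * H' (pt a b n y))‖ ≤
      A * A' * (Co c d δ * (Λ * η * (W + 1) + κ / η ^ 2 + Λ * (1 + W') / (η ^ 2 * pt a b m c))) := by
  have hA0 := hH.nonneg
  have hA'0 := hH'.nonneg
  obtain ⟨ι, S, cc, ω, h1, h2, h3⟩ := hH
  obtain ⟨ι', S', cc', ω', h1', h2', h3'⟩ := hH'
  have hFc : ContinuousOn F (Icc c d) := fun y hy => (hF y hy).continuousAt.continuousWithinAt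
  have hcm : c ∈ Icc c d := ⟨le_rfl, hcd⟩
  have hΛ0 : 0 ≤ Λ := (norm_nonneg _).trans (hΛ c hcm)
  have hpt := pt_pos h m c
  have hCo := Co_pos hcd h.dpos
  have e1 : ∀ y, F y * (H (pt a b m y) * H' (pt a b n y)) = ∑ x ∈ S, ∑ x' ∈ S', (cc x * cc' x') *
      (F y * e (ω x * (b m * exp (a m * y)) + ω' x' * (b n * exp (a n * y)))) := by
    intro y
    rw [h1, h1', Finset.sum_mul_sum, Finset.mul_sum]
    apply Finset.sum_congr rfl
    intro x _
    rw [Finset.mul_sum]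
    apply Finset.sum_congr rfl
    intro x' _
    have : ω x * (b m * exp (a m * y)) + ω' x' * (b n * exp (a n * y)) = pt a b m y * ω x + pt a b n y * ω' x' := by
      unfold pt; ring
    rw [this, e_add]; ring
  have hi0 : ∀ x ∈ S, ∀ x' ∈ S', ContinuousOn (fun y => (cc x * cc' x') *
      (F y * e (ω x * (b m * exp (a m * y)) + ω' x' * (b n * exp (a n * y))))) (uIcc c d) := by
    intro x _ x' _
    rw [uIcc_of_le hcd]
    refine continuousOn_const.mul (hFc.mul (Continuous.continuousOn ?_))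
    exact e_continuous.comp (by fun_prop)
  have hi : ∀ x ∈ S, ∀ x' ∈ S', IntervalIntegrable (fun y => (cc x * cc' x') *
      (F y * e (ω x * (b m * exp (a m * y)) + ω' x' * (b n * exp (a n * y))))) volume c d :=
    fun x hx x' hx' => (hi0 x hx x' hx').intervalIntegrable
  simp only [e1]
  rw [intervalIntegral.integral_finsetSum]
  swap
  · intro x hx
    exact (continuousOn_finsetSum _ fun x' hx' => hi0 x hx x' hx').intervalIntegrable
  set Q := Co c d δ * (Λ * η * (W + 1) + κ / η ^ 2 + Λ * (1 + W') / (η ^ 2 * pt a b m c)) with hQ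
  have hQ0 : 0 ≤ Q := by positivity
  refine (norm_sum_le _ _).trans ?_
  calc ∑ x ∈ S, ‖∫ y in c..d, ∑ x' ∈ S', (cc x * cc' x') *
        (F y * e (ω x * (b m * exp (a m * y)) + ω' x' * (b n * exp (a n * y))))‖
      ≤ ∑ x ∈ S, ∑ x' ∈ S', (‖cc x‖ * ‖cc' x'‖) * Q := by
        apply Finset.sum_le_sum
        intro x hx
        rw [intervalIntegral.integral_finsetSum (fun x' hx' => hi x hx x' hx')]
        refine (norm_sum_le _ _).trans (Finset.sum_le_sum fun x' hx' => ?_)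
        obtain ⟨k1, k2⟩ := h3 x hx
        obtain ⟨k1', k2'⟩ := h3' x' hx'
        rw [intervalIntegral.integral_const_mul, norm_mul, norm_mul]
        apply mul_le_mul_of_nonneg_left _ (by positivity)
        have hω : ω x ≠ 0 := by
          intro h0
          rw [h0, abs_zero, zero_mul] at k1
          linarith
        have hω0 : 0 < |ω x| := abs_pos.mpr hω
        have k3 := osc0 hcd h.dpos (A1 := a n) (A2 := a m) (B1 := b n) (B2 := b m) (h.one m)
          (by linarith [h.one n]) (h.gap' hnm) (h.pos n).le (h.mono hnm.le) (h.pos m) hc.le hF hF'c hκ0 hΛ hκ hω (ω' := ω' x') hη hη1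
        refine k3.trans ?_
        apply mul_le_mul_of_nonneg_left _ hCo.le
        have k4 : 1 / |ω x| ≤ W := by rw [div_le_iff₀ hω0, mul_comm]; exact k1
        have k5 : Λ * η * (1 / |ω x| + 1) ≤ Λ * η * (W + 1) := by gcongr
        have k6 : Λ * (1 + |ω' x'|) / (η ^ 2 * (b m * exp (a m * c))) ≤ Λ * (1 + W') / (η ^ 2 * pt a b m c) := by
          have : b m * exp (a m * c) = pt a b m c := rfl
          rw [this]
          gcongr
        linarith
    _ = (∑ x ∈ S, ‖cc x‖) * (∑ x' ∈ S', ‖cc' x'‖) * Q := by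
        rw [Finset.sum_mul_sum, Finset.sum_mul]
        exact Finset.sum_congr rfl fun x _ => by rw [Finset.sum_mul]
    _ ≤ A * A' * Q := by
        apply mul_le_mul_of_nonneg_right _ hQ0
        exact mul_le_mul h2 h2' (Finset.sum_nonneg fun _ _ => norm_nonneg _) hA0

/-- the bound for the correlations -/
noncomputable def Bm (C : ℝ) (q : ℕ) (K s : ℝ) (m : ℕ) : ℝ := (C * ((m:ℝ) + 1) ^ q) ^ 3 * K * exp (-s * m)

lemma Bm_summable (C : ℝ) (q : ℕ) (K : ℝ) {s : ℝ} (hs : 0 < s) : Summable fun m : ℕ => ((m:ℝ) + 1) * Bm C q K s m := by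
  have h1 : Summable fun n : ℕ => (n:ℝ) ^ (3 * q + 1) * exp (-s * n) := Real.summable_pow_mul_exp_neg_nat_mul (3 * q + 1) hs
  have h2 := ((summable_nat_add_iff 1).mpr h1).mul_left (C ^ 3 * K * exp s)
  refine h2.congr fun m => ?_
  unfold Bm
  have e1 : exp (-s * ((m + 1 : ℕ) : ℝ)) = exp (-s * m) * exp (-s) := by
    rw [← Real.exp_add]; congr 1; push_cast; ring
  rw [e1]
  have e2 : exp s * exp (-s) = 1 := by rw [← Real.exp_add, add_neg_cancel, Real.exp_zero]
  push_cast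
  calc C ^ 3 * K * exp s * (((m:ℝ) + 1) ^ (3 * q + 1) * (exp (-s * m) * exp (-s)))
      = C ^ 3 * K * ((m:ℝ) + 1) ^ (3 * q + 1) * exp (-s * m) * (exp s * exp (-s)) := by ring
    _ = _ := by rw [e2]; ring

/-- correlations of different terms -/
lemma corr (h : Sq a b δ) (hc : 0 < c) (hcd : c ≤ d) {C : ℝ} (hC : 1 ≤ C) (q : ℕ) {Hf : ℕ → ℝ → ℂ}
    (hH : ∀ n : ℕ, IsTP (C * ((n:ℝ) + 1) ^ q) (C * ((n:ℝ) + 1) ^ q) (Hf n)) {n m : ℕ} (hnm : n < m) :
    ‖∫ y in c..d, Hf m (pt a b m y) * (starRingEnd ℂ) (Hf n (pt a b n y))‖ ≤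
      Bm C q (Co c d δ * (2 + 2 / b 0)) (δ * c / 4) m := by
  have hb0 := h.pos 0
  have hm1 : (1:ℝ) ≤ C * ((m:ℝ) + 1) ^ q := by
    have : (1:ℝ) ≤ ((m:ℝ) + 1) ^ q := one_le_pow₀ (by linarith [(Nat.cast_nonneg m : (0:ℝ) ≤ m)])
    nlinarith
  have hCo := Co_pos hcd h.dpos
  set η := exp (-(δ * c / 4) * m) with hη
  have hsm : 0 ≤ δ * c / 4 * m := by have := h.dpos; positivity
  have hη1 : η ≤ 1 := by
    rw [hη, Real.exp_le_one_iff]; linarith
  have hη0 : 0 < η := Real.exp_pos _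
  have h1 := osc_tp2 h hc hcd (F := fun _ => 1) (F' := fun _ => 0) (fun y _ => hasDerivAt_const y 1) continuousOn_const
    (Λ := 1) (κ := 0) (η := η) le_rfl (fun y _ => by simp) hnm (fun y _ => by simp) hη0 hη1
    (by linarith) (by
      have : (0:ℝ) ≤ n := Nat.cast_nonneg n
      positivity) (hH m) (hH n).star
  simp only [one_mul] at h1
  refine h1.trans ?_
  unfold Bm
  have hnm' : C * ((n:ℝ) + 1) ^ q ≤ C * ((m:ℝ) + 1) ^ q := by
    have : (n:ℝ) ≤ m := by exact_mod_cast hnm.le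
    gcongr
  have hA0 : 0 ≤ C * ((n:ℝ) + 1) ^ q := by positivity
  have k1 : b 0 * exp (δ * c * m) ≤ pt a b m c := pt_low h hc.le m
  have k2 : 1 / (η ^ 2 * pt a b m c) ≤ η / b 0 := by
    rw [div_le_div_iff₀ (mul_pos (pow_pos hη0 2) (pt_pos h m c)) hb0, one_mul]
    have e1 : exp (δ * c * m) * η ^ 3 = exp (δ * c / 4 * m) := by
      rw [hη, ← Real.exp_nat_mul, ← Real.exp_add]
      congr 1
      push_cast
      ring
    have e2 : 1 ≤ exp (δ * c / 4 * m) := Real.one_le_exp hsm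
    calc b 0 ≤ b 0 * exp (δ * c / 4 * m) := le_mul_of_one_le_right hb0.le e2
      _ = η ^ 3 * (b 0 * exp (δ * c * m)) := by rw [← e1]; ring
      _ ≤ η ^ 3 * pt a b m c := mul_le_mul_of_nonneg_left k1 (by positivity)
      _ = _ := by ring
  have k3 : η * (C * ((m:ℝ) + 1) ^ q + 1) + 0 / η ^ 2 + (1 + C * ((n:ℝ) + 1) ^ q) / (η ^ 2 * pt a b m c) ≤
      (C * ((m:ℝ) + 1) ^ q) * (2 + 2 / b 0) * η := by
    set X := C * ((m:ℝ) + 1) ^ q with hX
    set Y := C * ((n:ℝ) + 1) ^ q with hY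
    have k4 : (1 + Y) / (η ^ 2 * pt a b m c) ≤ (2 * X) * (η / b 0) := by
      rw [div_eq_mul_one_div]
      apply mul_le_mul (by linarith) k2 (by have := pt_pos h m c; positivity) (by linarith)
    rw [zero_div, add_zero]
    have k5 : η * (X + 1) ≤ 2 * X * η := by nlinarith
    calc η * (X + 1) + (1 + Y) / (η ^ 2 * pt a b m c) ≤ 2 * X * η + (2 * X) * (η / b 0) := add_le_add k5 k4
      _ = _ := by ring
  calc C * ((m:ℝ) + 1) ^ q * (C * ((n:ℝ) + 1) ^ q) * (Co c d δ * (η * (C * ((m:ℝ) + 1) ^ q + 1) + 0 / η ^ 2 +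
        (1 + C * ((n:ℝ) + 1) ^ q) / (η ^ 2 * pt a b m c)))
      ≤ C * ((m:ℝ) + 1) ^ q * (C * ((m:ℝ) + 1) ^ q) * (Co c d δ * ((C * ((m:ℝ) + 1) ^ q) * (2 + 2 / b 0) * η)) := by
        apply mul_le_mul (mul_le_mul_of_nonneg_left hnm' (by linarith)) (mul_le_mul_of_nonneg_left k3 hCo.le) _ (by positivity)
        have := pt_pos h m c
        rw [zero_div]
        positivity
    _ = _ := by ring

/-- near-orthogonality -/
theorem orth (h : Sq a b δ) (hc : 0 < c) (hcd : c ≤ d) {C : ℝ} (hC : 1 ≤ C) (q : ℕ) : ∃ C1 : ℝ, 0 ≤ C1 ∧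
    ∀ Hf : ℕ → ℝ → ℂ, (∀ n : ℕ, IsTP (C * ((n:ℝ) + 1) ^ q) (C * ((n:ℝ) + 1) ^ q) (Hf n)) → ∀ S : Finset ℕ,
      ∫ y in c..d, ‖∑ n ∈ S, Hf n (pt a b n y)‖ ^ 2 ≤ ∑ n ∈ S, (∫ y in c..d, ‖Hf n (pt a b n y)‖ ^ 2) + C1 := by
  set K := Co c d δ * (2 + 2 / b 0) with hK
  have hs : 0 < δ * c / 4 := by have := h.dpos; positivity
  have hb0 := h.pos 0
  have hCo := Co_pos hcd h.dpos
  have hB0 : ∀ m : ℕ, 0 ≤ Bm C q K (δ * c / 4) m := by
    intro m
    unfold Bm
    have : (0:ℝ) ≤ m := Nat.cast_nonneg m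
    positivity
  have hsum := Bm_summable C q K hs
  have hnn : ∀ m : ℕ, 0 ≤ ((m:ℝ) + 1) * Bm C q K (δ * c / 4) m := fun m => mul_nonneg (by positivity) (hB0 m)
  have hts : 0 ≤ ∑' m : ℕ, ((m:ℝ) + 1) * Bm C q K (δ * c / 4) m := tsum_nonneg hnn
  refine ⟨2 * ∑' m : ℕ, ((m:ℝ) + 1) * Bm C q K (δ * c / 4) m, by linarith, fun Hf hH S => ?_⟩
  have hHc : ∀ n, Continuous fun y => Hf n (pt a b n y) := fun n => (hH n).cont.comp (pt_cont a b n)
  have e1 : ∀ y : ℝ, ((‖∑ n ∈ S, Hf n (pt a b n y)‖ ^ 2 : ℝ) : ℂ) =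
      ∑ m ∈ S, ∑ n ∈ S, Hf m (pt a b m y) * (starRingEnd ℂ) (Hf n (pt a b n y)) := by
    intro y
    rw [← Finset.sum_mul_sum, ← map_sum, Complex.mul_conj, Complex.normSq_eq_norm_sq]
  have hci : ∀ m n : ℕ, Continuous fun y => Hf m (pt a b m y) * (starRingEnd ℂ) (Hf n (pt a b n y)) :=
    fun m n => (hHc m).mul (Complex.continuous_conj.comp (hHc n))
  have e2 : ((∫ y in c..d, ‖∑ n ∈ S, Hf n (pt a b n y)‖ ^ 2 : ℝ) : ℂ) =
      ∑ m ∈ S, ∑ n ∈ S, ∫ y in c..d, Hf m (pt a b m y) * (starRingEnd ℂ) (Hf n (pt a b n y)) := by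
    rw [← intervalIntegral.integral_ofReal]
    simp only [e1]
    rw [intervalIntegral.integral_finsetSum]
    · apply Finset.sum_congr rfl
      intro m _
      rw [intervalIntegral.integral_finsetSum]
      exact fun n _ => (hci m n).intervalIntegrable _ _
    · intro m _
      exact (continuous_finsetSum _ fun n _ => hci m n).intervalIntegrable _ _
  have e3 : ∫ y in c..d, ‖∑ n ∈ S, Hf n (pt a b n y)‖ ^ 2 =
      ∑ m ∈ S, ∑ n ∈ S, (∫ y in c..d, Hf m (pt a b m y) * (starRingEnd ℂ) (Hf n (pt a b n y))).re := by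
    have := congrArg Complex.re e2
    rw [Complex.ofReal_re, Complex.re_sum] at this
    rw [this]
    exact Finset.sum_congr rfl fun m _ => Complex.re_sum _ _
  rw [e3]
  -- the correlations
  have e4 : ∀ m n : ℕ, n ≠ m → (∫ y in c..d, Hf m (pt a b m y) * (starRingEnd ℂ) (Hf n (pt a b n y))).re ≤
      Bm C q K (δ * c / 4) (max m n) := by
    intro m n hne
    refine (Complex.re_le_norm _).trans ?_
    rcases lt_or_gt_of_ne hne with hlt | hgt
    · rw [max_eq_left hlt.le]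
      exact corr h hc hcd hC q hH hlt
    · rw [max_eq_right hgt.le]
      have h1 := corr h hc hcd hC q hH hgt
      have e5 : ∫ y in c..d, Hf m (pt a b m y) * (starRingEnd ℂ) (Hf n (pt a b n y)) =
          (starRingEnd ℂ) (∫ y in c..d, Hf n (pt a b n y) * (starRingEnd ℂ) (Hf m (pt a b m y))) := by
        rw [intervalIntegral.integral_of_le hcd, intervalIntegral.integral_of_le hcd, ← integral_conj]
        congr 1
        funext y
        rw [map_mul, Complex.conj_conj, mul_comm]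
      rw [e5, RCLike.norm_conj]
      exact h1
  have e6 : ∀ m ∈ S, (∫ y in c..d, Hf m (pt a b m y) * (starRingEnd ℂ) (Hf m (pt a b m y))).re =
      ∫ y in c..d, ‖Hf m (pt a b m y)‖ ^ 2 := by
    intro m _
    have : ∀ y, Hf m (pt a b m y) * (starRingEnd ℂ) (Hf m (pt a b m y)) = ((‖Hf m (pt a b m y)‖ ^ 2 : ℝ) : ℂ) := by
      intro y
      rw [Complex.mul_conj, Complex.normSq_eq_norm_sq]
    simp only [this]
    rw [intervalIntegral.integral_ofReal, Complex.ofReal_re]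
  set G : ℕ → ℕ → ℝ := fun m n => (∫ y in c..d, Hf m (pt a b m y) * (starRingEnd ℂ) (Hf n (pt a b n y))).re with hG
  set Bf : ℕ → ℝ := fun m => Bm C q K (δ * c / 4) m with hBf
  have e7 : ∀ m ∈ S, ∑ n ∈ S, G m n ≤
      (∫ y in c..d, ‖Hf m (pt a b m y)‖ ^ 2) + ∑ n ∈ S, ((if n ≤ m then Bf m else 0) + (if m ≤ n then Bf n else 0)) := by
    intro m hm
    rw [← Finset.add_sum_erase S _ hm, show G m m = ∫ y in c..d, ‖Hf m (pt a b m y)‖ ^ 2 from e6 m hm]
    have h1 : ∑ n ∈ S.erase m, G m n ≤ ∑ n ∈ S.erase m, ((if n ≤ m then Bf m else 0) + (if m ≤ n then Bf n else 0)) := by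
      apply Finset.sum_le_sum
      intro n hn
      have hne : n ≠ m := (Finset.mem_erase.mp hn).1
      refine (e4 m n hne).trans ?_
      rcases lt_or_gt_of_ne hne with hlt | hgt
      · rw [max_eq_left hlt.le, if_pos hlt.le]
        have : 0 ≤ (if m ≤ n then Bf n else 0) := by split_ifs; exact hB0 n; exact le_rfl
        linarith
      · rw [max_eq_right hgt.le, if_pos hgt.le]
        have : 0 ≤ (if n ≤ m then Bf m else 0) := by split_ifs; exact hB0 m; exact le_rfl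
        linarith
    have h2 : ∑ n ∈ S.erase m, ((if n ≤ m then Bf m else 0) + (if m ≤ n then Bf n else 0)) ≤
        ∑ n ∈ S, ((if n ≤ m then Bf m else 0) + (if m ≤ n then Bf n else 0)) := by
      apply Finset.sum_le_sum_of_subset_of_nonneg (Finset.erase_subset _ _)
      intro n _ _
      apply add_nonneg
      · split_ifs; exact hB0 m; exact le_rfl
      · split_ifs; exact hB0 n; exact le_rfl
    linarith
  refine (Finset.sum_le_sum e7).trans ?_
  rw [Finset.sum_add_distrib]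
  apply add_le_add le_rfl
  have e8 : ∑ m ∈ S, ∑ n ∈ S, (if n ≤ m then Bf m else 0) ≤ ∑' m : ℕ, ((m:ℝ) + 1) * Bf m := by
    calc ∑ m ∈ S, ∑ n ∈ S, (if n ≤ m then Bf m else 0) ≤ ∑ m ∈ S, ((m:ℝ) + 1) * Bf m := by
          apply Finset.sum_le_sum
          intro m _
          rw [← Finset.sum_filter, Finset.sum_const, nsmul_eq_mul]
          apply mul_le_mul_of_nonneg_right _ (hB0 m)
          have : (S.filter fun n => n ≤ m).card ≤ m + 1 := by
            calc (S.filter fun n => n ≤ m).card ≤ (Finset.range (m + 1)).card := by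
                  apply Finset.card_le_card
                  intro n hn
                  rw [Finset.mem_filter] at hn
                  rw [Finset.mem_range]; omega
              _ = m + 1 := Finset.card_range _
          exact_mod_cast this
      _ ≤ _ := hsum.sum_le_tsum S fun m _ => hnn m
  have e9 : ∑ m ∈ S, ∑ n ∈ S, (if m ≤ n then Bf n else 0) = ∑ m ∈ S, ∑ n ∈ S, (if n ≤ m then Bf m else 0) :=
    Finset.sum_comm
  simp only [Finset.sum_add_distrib]
  rw [e9]
  linarith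

end Run7.h113.CL
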