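import Mathlib
import Pool.Agent.Run7.h113.CL.Orth

/-!
The central limit theorem for a fixed trigonometric polynomial, by blocks.
-/

set_option autoImplicit false

open MeasureTheory Filter Topology Set Real
open Pool.Agent.H469R2.NK (e norm_e e_add conj_e e_zero)
open Pool.Agent.R306.GP

namespace Run7.h113.CL

/-- length of the blocks -/
def Lf (N : ℕ) : ℕ := N.sqrt.sqrt.sqrt

/-- length of the gaps -/
def gf (N : ℕ) : ℕ := (Lf N).sqrt

/-- number of the blocks -/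
def Jf (N : ℕ) : ℕ := N / Lf N

lemma sqrt_succ (n : ℕ) : n + 1 ≤ (n.sqrt + 1) ^ 2 := by
  have := Nat.lt_succ_sqrt' n
  exact this

lemma gf_tendsto : Tendsto gf atTop atTop := by
  have hs : Tendsto Nat.sqrt atTop atTop := by
    rw [tendsto_atTop]
    intro b
    filter_upwards [eventually_ge_atTop (b ^ 2)] with N hN
    rw [Nat.le_sqrt']
    exact hN
  exact hs.comp (hs.comp (hs.comp hs))

lemma Lf_pow (N : ℕ) : Lf N ^ 8 ≤ N := by
  unfold Lf
  have h1 := Nat.sqrt_le' N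
  have h2 := Nat.sqrt_le' N.sqrt
  have h3 := Nat.sqrt_le' N.sqrt.sqrt
  calc N.sqrt.sqrt.sqrt ^ 8 = ((N.sqrt.sqrt.sqrt ^ 2) ^ 2) ^ 2 := by ring
    _ ≤ ((N.sqrt.sqrt) ^ 2) ^ 2 := by gcongr
    _ ≤ (N.sqrt) ^ 2 := by gcongr
    _ ≤ N := h1

lemma gf_sq (N : ℕ) : gf N ^ 2 ≤ Lf N := Nat.sqrt_le' _

lemma N_lt (N : ℕ) : N ≤ (gf N + 1) ^ 16 := by
  have h1 := sqrt_succ N
  have h2 := sqrt_succ N.sqrt
  have h3 := sqrt_succ N.sqrt.sqrt
  have h4 : Lf N + 1 ≤ (gf N + 1) ^ 2 := sqrt_succ _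
  calc N ≤ (N.sqrt + 1) ^ 2 := by omega
    _ ≤ ((N.sqrt.sqrt + 1) ^ 2) ^ 2 := by gcongr
    _ ≤ (((Lf N + 1) ^ 2) ^ 2) ^ 2 := by gcongr; exact h3
    _ ≤ ((((gf N + 1) ^ 2) ^ 2) ^ 2) ^ 2 := by gcongr
    _ = _ := by ring

/-- the blocks -/
def Bl (N i : ℕ) : Finset ℕ := Finset.Ico (i * Lf N) (i * Lf N + (Lf N - gf N))

/-- the union of the blocks -/
def Pl (N j : ℕ) : Finset ℕ := (Finset.Ico 1 j).biUnion (Bl N)

lemma Bl_card (N i : ℕ) : (Bl N i).card = Lf N - gf N := by unfold Bl; simp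

lemma Bl_disj (N : ℕ) (s : Set ℕ) : s.PairwiseDisjoint (Bl N) := by
  intro i _ j _ hij
  rw [Function.onFun, Finset.disjoint_left]
  intro x hx hx'
  unfold Bl at hx hx'
  rw [Finset.mem_Ico] at hx hx'
  rcases lt_or_gt_of_ne hij with h | h
  · have : (i + 1) * Lf N ≤ j * Lf N := Nat.mul_le_mul_right _ h
    rw [add_mul, one_mul] at this
    omega
  · have : (j + 1) * Lf N ≤ i * Lf N := Nat.mul_le_mul_right _ h
    rw [add_mul, one_mul] at this
    omega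

lemma Pl_sum {M : Type*} [AddCommMonoid M] (N j : ℕ) (f : ℕ → M) :
    ∑ n ∈ Pl N j, f n = ∑ i ∈ Finset.Ico 1 j, ∑ n ∈ Bl N i, f n := by
  unfold Pl
  exact Finset.sum_biUnion (Bl_disj N _)

lemma Pl_succ {M : Type*} [AddCommMonoid M] (N : ℕ) {j : ℕ} (hj : 1 ≤ j) (f : ℕ → M) :
    ∑ n ∈ Pl N (j + 1), f n = ∑ n ∈ Pl N j, f n + ∑ n ∈ Bl N j, f n := by
  rw [Pl_sum, Pl_sum, Finset.sum_Ico_succ_top hj]

lemma Pl_card (N j : ℕ) : (Pl N j).card = (j - 1) * (Lf N - gf N) := by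
  unfold Pl
  rw [Finset.card_biUnion (Bl_disj N _)]
  simp [Bl_card]

lemma Pl_gap {N j n m : ℕ} (hg : 1 ≤ gf N) (hn : n ∈ Pl N j) (hm : m ∈ Bl N j) : n + gf N ≤ m := by
  unfold Pl at hn
  rw [Finset.mem_biUnion] at hn
  obtain ⟨i, hi, hn⟩ := hn
  unfold Bl at hn hm
  rw [Finset.mem_Ico] at hi hn hm
  have : (i + 1) * Lf N ≤ j * Lf N := Nat.mul_le_mul_right _ hi.2
  rw [add_mul, one_mul] at this
  have h2 : gf N ≤ Lf N := Nat.sqrt_le_self _
  omega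

lemma Pl_lt {N j n : ℕ} (hj : j ≤ Jf N) (hn : n ∈ Pl N j) : n < N := by
  unfold Pl at hn
  rw [Finset.mem_biUnion] at hn
  obtain ⟨i, hi, hn⟩ := hn
  unfold Bl at hn
  rw [Finset.mem_Ico] at hi hn
  have : (i + 1) * Lf N ≤ Jf N * Lf N := Nat.mul_le_mul_right _ (by omega)
  rw [add_mul, one_mul] at this
  have h2 : Jf N * Lf N ≤ N := Nat.div_mul_le_self _ _
  omega

lemma Bl_ge {N j m : ℕ} (hj : 1 ≤ j) (hm : m ∈ Bl N j) : gf N ≤ m := by
  unfold Bl at hm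
  rw [Finset.mem_Ico] at hm
  have h2 : gf N ≤ Lf N := Nat.sqrt_le_self _
  have : 1 * Lf N ≤ j * Lf N := Nat.mul_le_mul_right _ hj
  omega

/-- the number of the indices which are in no block -/
lemma rem_card (N : ℕ) (hg : 1 ≤ gf N) : ((N - (Jf N - 1) * (Lf N - gf N) : ℕ) : ℝ) ≤ 3 / gf N * N := by
  have hL1 : 1 ≤ Lf N := hg.trans (Nat.sqrt_le_self _)
  have h2 : gf N ≤ Lf N := Nat.sqrt_le_self _
  have h3 : N < Jf N * Lf N + Lf N := by
    have := Nat.lt_div_mul_add (a := N) (b := Lf N) (by omega)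
    exact this
  have h4 : Jf N * Lf N ≤ N := Nat.div_mul_le_self _ _
  have h5 : (N - (Jf N - 1) * (Lf N - gf N)) ≤ 2 * Lf N + Jf N * gf N := by
    obtain ⟨u, hu⟩ := Nat.exists_eq_add_of_le h2
    have e1 : Lf N - gf N = u := by omega
    rw [e1]
    rcases Nat.eq_zero_or_pos (Jf N) with hJ | hJ
    · rw [hJ] at h3 ⊢
      simp at h3 ⊢
      omega
    · obtain ⟨v, hv⟩ := Nat.exists_eq_add_of_le hJ
      have e2 : Jf N - 1 = v := by omega
      rw [e2]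
      have e3 : Jf N * Lf N = v * u + v * gf N + Lf N := by rw [hv, hu]; ring
      have e4 : Jf N * gf N = v * gf N + gf N := by rw [hv]; ring
      omega
  have h6 : (gf N : ℝ) ^ 2 ≤ Lf N := by exact_mod_cast gf_sq N
  have h7 : (Lf N : ℝ) ^ 8 ≤ N := by exact_mod_cast Lf_pow N
  have hgr : (1:ℝ) ≤ gf N := by exact_mod_cast hg
  have hLr : (1:ℝ) ≤ Lf N := by exact_mod_cast hL1
  have hg0 : (0:ℝ) < gf N := by linarith
  have h8 : (Jf N : ℝ) * Lf N ≤ N := by exact_mod_cast h4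
  have h9 : ((N - (Jf N - 1) * (Lf N - gf N) : ℕ) : ℝ) ≤ 2 * Lf N + Jf N * gf N := by exact_mod_cast h5
  refine h9.trans ?_
  have hN0 : (0:ℝ) ≤ N := Nat.cast_nonneg N
  have hJ0 : (0:ℝ) ≤ Jf N := Nat.cast_nonneg _
  have k1 : (Lf N : ℝ) ≤ 1 / gf N * N := by
    rw [one_div, inv_mul_eq_div, le_div_iff₀ hg0]
    have : (gf N : ℝ) ≤ Lf N := by exact_mod_cast h2
    calc (Lf N : ℝ) * gf N ≤ Lf N * Lf N := by gcongr
      _ = (Lf N : ℝ) ^ 2 := by ring
      _ ≤ (Lf N : ℝ) ^ 8 := pow_le_pow_right₀ hLr (by norm_num)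
      _ ≤ N := h7
  have k2 : (Jf N : ℝ) * gf N ≤ 1 / gf N * N := by
    rw [one_div, inv_mul_eq_div, le_div_iff₀ hg0]
    calc (Jf N : ℝ) * gf N * gf N = Jf N * (gf N : ℝ) ^ 2 := by ring
      _ ≤ Jf N * Lf N := by gcongr
      _ ≤ N := h8
  calc 2 * (Lf N : ℝ) + Jf N * gf N ≤ 2 * (1 / gf N * N) + 1 / gf N * N := by linarith
    _ = _ := by ring

/-- growth of the points -/
lemma pt_gap {a b : ℕ → ℝ} {δ c : ℝ} (h : Sq a b δ) (hc : 0 ≤ c) {n m g : ℕ} (hnm : n + g ≤ m) {y : ℝ} (hy : c ≤ y) :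
    a n * pt a b n y ≤ a m * pt a b m y * exp (-(δ * c) * g) := by
  have hlow : ∀ k : ℕ, a n + δ * k ≤ a (n + k) := by
    intro k
    induction k with
    | zero => simp
    | succ k ih =>
      have := h.gap (n + k)
      push_cast
      rw [← add_assoc]
      linarith
  obtain ⟨k, rfl⟩ := Nat.exists_eq_add_of_le (show n ≤ m by omega)
  have hgk : (g:ℝ) ≤ k := by exact_mod_cast (by omega : g ≤ k)
  have h1 := hlow k
  have hd := h.dpos
  have han := h.one n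
  have h2 : a n + δ * g ≤ a (n + k) := by
    have := mul_le_mul_of_nonneg_left hgk hd.le
    linarith
  have h3 : a n ≤ a (n + k) := by
    have : 0 ≤ δ * (g:ℝ) := by positivity
    linarith
  unfold pt
  have h4 : b n ≤ b (n + k) := h.mono (by omega)
  have h5 : exp (a n * y) ≤ exp (a (n + k) * y) * exp (-(δ * c) * g) := by
    rw [← Real.exp_add]
    apply Real.exp_le_exp.mpr
    have hy0 : 0 ≤ y := hc.trans hy
    have k1 := mul_le_mul_of_nonneg_right h2 hy0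
    have k2 : δ * g * c ≤ δ * g * y := mul_le_mul_of_nonneg_left hy (by positivity)
    nlinarith
  have hbn := (h.pos n)
  have hbm := (h.pos (n + k))
  calc a n * (b n * exp (a n * y)) ≤ a (n + k) * (b (n + k) * (exp (a (n + k) * y) * exp (-(δ * c) * g))) := by
        apply mul_le_mul h3 (mul_le_mul h4 h5 (Real.exp_pos _).le hbm.le) (by positivity) (by linarith)
    _ = _ := by ring

end Run7.h113.CL
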