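import Mathlib
import Pool.Agent.Run7.h113.CL.Blk

/-!
Decoupling of the blocks.
-/

set_option autoImplicit false

open MeasureTheory Filter Topology Set Real
open Pool.Agent.H469R2.NK (e norm_e e_add conj_e e_zero)
open Pool.Agent.R306.GP

namespace Run7.h113.CL

/-- an observable without constant term, with the constant term of its square -/
structure Ob (A W v : ℝ) (G : ℝ → ℝ) : Prop where
  tp : IsTP A W (fun R => ((G R : ℝ) : ℂ))
  sq : IsTP A W (fun R => ((G R ^ 2 - v : ℝ) : ℂ))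
  hA : 1 ≤ A
  hW : 1 ≤ W
  hv : 0 ≤ v

/-- an amplitude -/
structure Am (c d Λ Λ1 : ℝ) (w w' : ℝ → ℂ) : Prop where
  der : ∀ y, HasDerivAt w (w' y) y
  cont : Continuous w'
  bd : ∀ y ∈ Icc c d, ‖w y‖ ≤ Λ
  bd' : ∀ y ∈ Icc c d, ‖w' y‖ ≤ Λ1

variable {a b : ℕ → ℝ} {δ c d : ℝ} {A W v : ℝ} {G : ℝ → ℝ} {Λ Λ1 : ℝ} {w w' : ℝ → ℂ}

/-- the exponential of the sum over a set of indices -/
noncomputable def EE (a b : ℕ → ℝ) (G : ℝ → ℝ) (t : ℝ) (N : ℕ) (P : Finset ℕ) (y : ℝ) : ℂ :=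
  Complex.exp (Complex.I * ((t / √N : ℝ) : ℂ) * ∑ n ∈ P, ((G (pt a b n y) : ℝ) : ℂ))

lemma EE_norm (t : ℝ) (N : ℕ) (P : Finset ℕ) (y : ℝ) : ‖EE a b G t N P y‖ = 1 := by
  unfold EE
  have : Complex.I * ((t / √N : ℝ) : ℂ) * ∑ n ∈ P, ((G (pt a b n y) : ℝ) : ℂ) =
      ((t / √N * ∑ n ∈ P, G (pt a b n y) : ℝ) : ℂ) * Complex.I := by
    push_cast; ring
  rw [this, Complex.norm_exp_ofReal_mul_I]

/-- the constant of the decoupling -/
noncomputable def K1 (b : ℕ → ℝ) (A W Λ Λ1 t : ℝ) : ℝ := Λ1 / b 0 + Λ * |t| * (2 * π * W * A)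

lemma F_der (h : Sq a b δ) (hc : 0 < c) (hcd : c ≤ d) (hG : Ob A W v G) (hw : Am c d Λ Λ1 w w') (t : ℝ) {N : ℕ} (hN : 1 ≤ N)
    {P : Finset ℕ} (hP : P.card ≤ N) : ∃ F' : ℝ → ℂ, (∀ y, HasDerivAt (fun y => w y * EE a b G t N P y) (F' y) y) ∧
      Continuous F' ∧ ∀ (g m : ℕ), g ≤ m → (∀ n ∈ P, n + g ≤ m) → ∀ y ∈ Icc c d,
        ‖F' y‖ ≤ (K1 b A W Λ Λ1 t * √N * exp (-(δ * c) * g)) * (a m * pt a b m y) := by
  have hA := hG.hA
  have hW := hG.hW
  obtain ⟨H', hH1, hH2, hH3⟩ := hG.tp.deriv (by linarith)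
  have hptd : ∀ n y, HasDerivAt (pt a b n) (a n * pt a b n y) y := fun n y => hd_exp (b n) (a n) y
  have hGd : ∀ n y, HasDerivAt (fun y => ((G (pt a b n y) : ℝ) : ℂ)) (((a n * pt a b n y : ℝ) : ℂ) * H' (pt a b n y)) y := by
    intro n y
    have h1 := HasDerivAt.scomp y (hH1 (pt a b n y)) (hptd n y)
    simpa [Function.comp_def] using h1
  set D : ℝ → ℂ := fun y => ∑ n ∈ P, ((a n * pt a b n y : ℝ) : ℂ) * H' (pt a b n y) with hD
  have hsd : ∀ y, HasDerivAt (fun y => ∑ n ∈ P, ((G (pt a b n y) : ℝ) : ℂ)) (D y) y := fun y =>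
    HasDerivAt.fun_sum fun n _ => hGd n y
  have hEd : ∀ y, HasDerivAt (EE a b G t N P) (EE a b G t N P y * (Complex.I * ((t / √N : ℝ) : ℂ) * D y)) y := fun y =>
    ((hsd y).const_mul (Complex.I * ((t / √N : ℝ) : ℂ))).cexp
  have hDc : Continuous D := continuous_finsetSum _ fun n _ =>
    (Complex.continuous_ofReal.comp (continuous_const.mul (pt_cont a b n))).mul (hH2.comp (pt_cont a b n))
  have hEc : Continuous (EE a b G t N P) := continuous_iff_continuousAt.mpr fun y => (hEd y).continuousAt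
  have hwc : Continuous w := continuous_iff_continuousAt.mpr fun y => (hw.der y).continuousAt
  refine ⟨fun y => w' y * EE a b G t N P y + w y * (EE a b G t N P y * (Complex.I * ((t / √N : ℝ) : ℂ) * D y)),
    fun y => (hw.der y).mul (hEd y), (hw.cont.mul hEc).add (hwc.mul (hEc.mul (continuous_const.mul hDc))), ?_⟩
  intro g m hgm hPm y hy
  have hN0 : (0:ℝ) < N := by exact_mod_cast hN
  have hs0 : 0 < √(N:ℝ) := Real.sqrt_pos.mpr hN0
  have hs1 : 1 ≤ √(N:ℝ) := by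
    rw [Real.one_le_sqrt]; exact_mod_cast hN
  have hΛ0 : 0 ≤ Λ := (norm_nonneg _).trans (hw.bd y hy)
  have hΛ10 : 0 ≤ Λ1 := (norm_nonneg _).trans (hw.bd' y hy)
  have hb0 := h.pos 0
  have hd := h.dpos
  have ham := h.one m
  have hpm := pt_pos h m y
  set M := a m * pt a b m y with hM
  have hM0 : 0 < M := by positivity
  -- lower bound for `M`
  have k1 : b 0 * exp (δ * c * g) ≤ M := by
    have h1 := pt_low h (hc.le.trans hy.1 : (0:ℝ) ≤ y) m
    have h2 : exp (δ * c * g) ≤ exp (δ * y * m) := by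
      apply Real.exp_le_exp.mpr
      have : (g:ℝ) ≤ m := by exact_mod_cast hgm
      have h3 : δ * c ≤ δ * y := mul_le_mul_of_nonneg_left hy.1 hd.le
      have h4 : 0 ≤ δ * c := by positivity
      exact mul_le_mul h3 this (Nat.cast_nonneg g) (h4.trans h3)
    calc b 0 * exp (δ * c * g) ≤ b 0 * exp (δ * y * m) := mul_le_mul_of_nonneg_left h2 hb0.le
      _ ≤ pt a b m y := h1
      _ ≤ M := by rw [hM]; nlinarith
  have k2 : 1 ≤ exp (-(δ * c) * g) * M / b 0 := by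
    rw [le_div_iff₀ hb0, one_mul]
    have e1 : exp (-(δ * c) * g) * exp (δ * c * g) = 1 := by rw [← Real.exp_add]; simp
    calc b 0 = exp (-(δ * c) * g) * (b 0 * exp (δ * c * g)) := by
          rw [show exp (-(δ * c) * g) * (b 0 * exp (δ * c * g)) = b 0 * (exp (-(δ * c) * g) * exp (δ * c * g)) by ring, e1, mul_one]
      _ ≤ _ := mul_le_mul_of_nonneg_left k1 (Real.exp_pos _).le
  have k3 : ‖D y‖ ≤ N * (M * exp (-(δ * c) * g) * (2 * π * W * A)) := by
    have hpi := Real.pi_pos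
    calc ‖D y‖ ≤ ∑ n ∈ P, ‖((a n * pt a b n y : ℝ) : ℂ) * H' (pt a b n y)‖ := norm_sum_le _ _
      _ ≤ ∑ _n ∈ P, M * exp (-(δ * c) * g) * (2 * π * W * A) := by
          apply Finset.sum_le_sum
          intro n hn
          have han := h.one n
          have hpn := pt_pos h n y
          rw [norm_mul, Complex.norm_real, Real.norm_eq_abs, abs_of_nonneg (by positivity)]
          exact mul_le_mul (pt_gap h hc.le (hPm n hn) hy.1) (hH3 _) (norm_nonneg _) (by positivity)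
      _ = P.card * (M * exp (-(δ * c) * g) * (2 * π * W * A)) := by rw [Finset.sum_const, nsmul_eq_mul]
      _ ≤ _ := by
          apply mul_le_mul_of_nonneg_right _ (by positivity)
          exact_mod_cast hP
  have k4 : ‖(Complex.I * ((t / √N : ℝ) : ℂ) * D y)‖ ≤ |t| * √N * (M * exp (-(δ * c) * g) * (2 * π * W * A)) := by
    rw [norm_mul, norm_mul, Complex.norm_I, one_mul, Complex.norm_real, Real.norm_eq_abs, abs_div, abs_of_pos hs0]
    have e1 : |t| / √N * (N * (M * exp (-(δ * c) * g) * (2 * π * W * A))) =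
        |t| * √N * (M * exp (-(δ * c) * g) * (2 * π * W * A)) := by
      have : (N:ℝ) = √N * √N := (Real.mul_self_sqrt hN0.le).symm
      rw [this]
      simp only [Real.sqrt_mul_self hs0.le]
      field_simp
    rw [← e1]
    exact mul_le_mul_of_nonneg_left k3 (by positivity)
  calc ‖w' y * EE a b G t N P y + w y * (EE a b G t N P y * (Complex.I * ((t / √N : ℝ) : ℂ) * D y))‖
      ≤ ‖w' y‖ + ‖w y‖ * ‖(Complex.I * ((t / √N : ℝ) : ℂ) * D y)‖ := by
        refine (norm_add_le _ _).trans ?_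
        rw [norm_mul, norm_mul, norm_mul, EE_norm, mul_one, one_mul]
    _ ≤ Λ1 + Λ * (|t| * √N * (M * exp (-(δ * c) * g) * (2 * π * W * A))) :=
        add_le_add (hw.bd' y hy) (mul_le_mul (hw.bd y hy) k4 (norm_nonneg _) hΛ0)
    _ ≤ Λ1 * (exp (-(δ * c) * g) * M / b 0) * √N + Λ * (|t| * √N * (M * exp (-(δ * c) * g) * (2 * π * W * A))) := by
        apply add_le_add _ le_rfl
        have : 1 ≤ (exp (-(δ * c) * g) * M / b 0) * √N := one_le_mul_of_one_le_of_one_le k2 hs1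
        calc Λ1 = Λ1 * 1 := (mul_one _).symm
          _ ≤ Λ1 * ((exp (-(δ * c) * g) * M / b 0) * √N) := mul_le_mul_of_nonneg_left this hΛ10
          _ = _ := by ring
    _ = _ := by
        unfold K1
        ring

/-- the bound for the decoupled terms -/
noncomputable def K2 (b : ℕ → ℝ) (c d δ A W Λ Λ1 t : ℝ) : ℝ :=
  A * A * (Co c d δ * (Λ * (W + 1) + K1 b A W Λ Λ1 t + Λ * (1 + W) / b 0))

lemma K_alg {C A Λ W K s E b0 p x1 x2 : ℝ} (hC : 0 < C) (hA : 1 ≤ A) (hΛ : 0 ≤ Λ) (hW : 1 ≤ W) (hK : 0 ≤ K) (hs : 1 ≤ s)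
    (hE : 0 < E) (hE1 : E ≤ 1) (hb0 : 0 < b0) (hp : b0 ≤ E ^ 4 * p) (hp0 : 0 < p)
    (h1 : x1 = Λ * E * (W + 1) + (K * s * E ^ 4) / E ^ 2 + x2 / (E ^ 2 * p)) (hx2 : x2 ≤ Λ * (1 + W)) (hx20 : 0 ≤ x2)
    {A' : ℝ} (hA' : 0 ≤ A') (hA'' : A' ≤ A * A) :
    A' * (C * x1) ≤ A * A * (C * (Λ * (W + 1) + K + Λ * (1 + W) / b0)) * (s * E) := by
  have e1 : (K * s * E ^ 4) / E ^ 2 ≤ K * (s * E) := by
    have : (K * s * E ^ 4) / E ^ 2 = K * (s * E) * E := by field_simp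
    rw [this]
    apply mul_le_of_le_one_right (by positivity) hE1
  have e2 : x2 / (E ^ 2 * p) ≤ Λ * (1 + W) / b0 * (s * E) := by
    have e3 : 1 / (E ^ 2 * p) ≤ E / b0 := by
      rw [div_le_div_iff₀ (by positivity) hb0, one_mul]
      calc b0 ≤ E ^ 4 * p := hp
        _ = E ^ 3 * p * E := by ring
        _ ≤ E ^ 3 * p * 1 := mul_le_mul_of_nonneg_left hE1 (by positivity)
        _ = _ := by ring
    calc x2 / (E ^ 2 * p) = x2 * (1 / (E ^ 2 * p)) := by ring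
      _ ≤ (Λ * (1 + W)) * (E / b0) := mul_le_mul hx2 e3 (by positivity) (by positivity)
      _ ≤ (Λ * (1 + W)) * (s * E / b0) := by
          apply mul_le_mul_of_nonneg_left _ (by positivity)
          apply div_le_div_of_nonneg_right _ hb0.le
          nlinarith
      _ = _ := by ring
  have e4 : Λ * E * (W + 1) ≤ Λ * (W + 1) * (s * E) := by
    have : E ≤ s * E := by nlinarith
    calc Λ * E * (W + 1) = Λ * (W + 1) * E := by ring
      _ ≤ _ := mul_le_mul_of_nonneg_left this (by positivity)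
  have e5 : x1 ≤ (Λ * (W + 1) + K + Λ * (1 + W) / b0) * (s * E) := by
    rw [h1]
    calc _ ≤ Λ * (W + 1) * (s * E) + K * (s * E) + Λ * (1 + W) / b0 * (s * E) := add_le_add (add_le_add e4 e1) e2
      _ = _ := by ring
  have hx10 : 0 ≤ x1 := by rw [h1]; positivity
  calc A' * (C * x1) ≤ A * A * (C * ((Λ * (W + 1) + K + Λ * (1 + W) / b0) * (s * E))) := by
        apply mul_le_mul hA'' (mul_le_mul_of_nonneg_left e5 hC.le) (by positivity) (by positivity)
    _ = _ := by ring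

/-- decoupling -/
theorem dec (h : Sq a b δ) (hc : 0 < c) (hcd : c ≤ d) (hG : Ob A W v G) (hw : Am c d Λ Λ1 w w') (t : ℝ) {N : ℕ} (hN : 1 ≤ N)
    {P : Finset ℕ} (hP : P.card ≤ N) {g m : ℕ} (hgm : g ≤ m) (hPm : ∀ n ∈ P, n + g ≤ m) :
    ‖∫ y in c..d, (w y * EE a b G t N P y) * ((G (pt a b m y) : ℝ) : ℂ)‖ ≤ K2 b c d δ A W Λ Λ1 t * (√N * exp (-(δ * c / 4) * g)) ∧
    ‖∫ y in c..d, (w y * EE a b G t N P y) * ((G (pt a b m y) ^ 2 - v : ℝ) : ℂ)‖ ≤
      K2 b c d δ A W Λ Λ1 t * (√N * exp (-(δ * c / 4) * g)) ∧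
    ∀ n, n < m → ‖∫ y in c..d, (w y * EE a b G t N P y) * (((G (pt a b m y) : ℝ) : ℂ) * ((G (pt a b n y) : ℝ) : ℂ))‖ ≤
      K2 b c d δ A W Λ Λ1 t * (√N * exp (-(δ * c / 4) * g)) := by
  have hA := hG.hA
  have hW := hG.hW
  have hcm : c ∈ Icc c d := ⟨le_rfl, hcd⟩
  have hΛ0 : 0 ≤ Λ := (norm_nonneg _).trans (hw.bd c hcm)
  have hΛ10 : 0 ≤ Λ1 := (norm_nonneg _).trans (hw.bd' c hcm)
  have hb0 := h.pos 0
  have hd := h.dpos
  have hCo := Co_pos hcd h.dpos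
  obtain ⟨F', hF1, hF2, hF3⟩ := F_der h hc hcd hG hw t hN hP
  have hpi := Real.pi_pos
  have hK1 : 0 ≤ K1 b A W Λ Λ1 t := by unfold K1; positivity
  have hκ0 : 0 ≤ K1 b A W Λ Λ1 t * √N * exp (-(δ * c) * g) := by positivity
  have hΛ : ∀ y ∈ Icc c d, ‖w y * EE a b G t N P y‖ ≤ Λ := by
    intro y hy
    rw [norm_mul, EE_norm, mul_one]
    exact hw.bd y hy
  set η := exp (-(δ * c / 4) * g) with hη
  have hsm : 0 ≤ δ * c / 4 * g := by positivity
  have hη1 : η ≤ 1 := by rw [hη, Real.exp_le_one_iff]; linarith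
  have hη0 : 0 < η := Real.exp_pos _
  have hη4 : exp (-(δ * c) * g) = η ^ 4 := by
    rw [hη, ← Real.exp_nat_mul]; congr 1; push_cast; ring
  have hs1 : 1 ≤ √(N:ℝ) := by rw [Real.one_le_sqrt]; exact_mod_cast hN
  have hpt := pt_pos h m c
  have hbp : b 0 ≤ η ^ 4 * pt a b m c := by
    rw [← hη4]
    have h1 := pt_low h hc.le m
    have h2 : exp (δ * c * g) ≤ exp (δ * c * m) := by
      apply Real.exp_le_exp.mpr
      have : (g:ℝ) ≤ m := by exact_mod_cast hgm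
      exact mul_le_mul_of_nonneg_left this (by positivity)
    have e1 : exp (-(δ * c) * g) * exp (δ * c * g) = 1 := by rw [← Real.exp_add]; simp
    calc b 0 = b 0 * (exp (-(δ * c) * g) * exp (δ * c * g)) := by rw [e1, mul_one]
      _ = exp (-(δ * c) * g) * (b 0 * exp (δ * c * g)) := by ring
      _ ≤ exp (-(δ * c) * g) * (b 0 * exp (δ * c * m)) := by gcongr
      _ ≤ _ := mul_le_mul_of_nonneg_left h1 (Real.exp_pos _).le
  have hF3' := hF3 g m hgm hPm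
  rw [hη4] at hF3' hκ0
  have hAA : A ≤ A * A := by nlinarith
  have hres1 : ∀ {H : ℝ → ℂ}, IsTP A W H → ‖∫ y in c..d, (w y * EE a b G t N P y) * H (pt a b m y)‖ ≤
      K2 b c d δ A W Λ Λ1 t * (√N * η) := by
    intro H hH
    refine (osc_tp h hc hcd (fun y _ => hF1 y) hF2.continuousOn hκ0 hΛ hF3' hη0 hη1 (by linarith) hH).trans ?_
    exact K_alg hCo hA hΛ0 hW hK1 hs1 hη0 hη1 hb0 hbp hpt rfl (by nlinarith) hΛ0 (by linarith) hAA
  refine ⟨hres1 hG.tp, hres1 hG.sq, fun n hnm => ?_⟩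
  refine (osc_tp2 h hc hcd (fun y _ => hF1 y) hF2.continuousOn hκ0 hΛ hnm hF3' hη0 hη1 (by linarith) (by linarith)
    hG.tp hG.tp).trans ?_
  exact K_alg hCo hA hΛ0 hW hK1 hs1 hη0 hη1 hb0 hbp hpt rfl le_rfl (by positivity) (by positivity) le_rfl

end Run7.h113.CL
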