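import Mathlib
import Pool.Agent.Run7.h113.CL.Dec

/-!
The central limit theorem for a fixed observable.
-/

set_option autoImplicit false

open MeasureTheory Filter Topology Set Real
open Pool.Agent.H469R2.NK (e norm_e e_add conj_e e_zero)
open Pool.Agent.R306.GP

namespace Run7.h113.CL

variable {a b : ℕ → ℝ} {δ c d : ℝ} {A W v : ℝ} {G : ℝ → ℝ} {Λ Λ1 : ℝ} {w w' : ℝ → ℂ}

lemma exp_three {x : ℝ} (hx : |x| ≤ 1) :
    ‖Complex.exp (Complex.I * (x:ℂ)) - (1 + Complex.I * (x:ℂ) - (x:ℂ) ^ 2 / 2)‖ ≤ |x| ^ 3 := by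
  have h1 := Complex.exp_bound (x := Complex.I * (x:ℂ)) (by simpa using hx) (n := 3) (by norm_num)
  have h2 : ∑ m ∈ Finset.range 3, (Complex.I * (x:ℂ)) ^ m / (m.factorial : ℂ) = 1 + Complex.I * (x:ℂ) - (x:ℂ) ^ 2 / 2 := by
    rw [Finset.sum_range_succ, Finset.sum_range_succ, Finset.sum_range_one]
    simp only [pow_zero, Nat.factorial_zero, Nat.cast_one, div_one, pow_one, Nat.factorial_one, Nat.factorial_two]
    rw [mul_pow, Complex.I_sq]
    push_cast
    ring
  rw [h2] at h1
  refine h1.trans ?_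
  rw [norm_mul, Complex.norm_I, one_mul, Complex.norm_real, Real.norm_eq_abs]
  have : ((Nat.succ 3 : ℕ) : ℝ) * (((Nat.factorial 3 : ℕ) : ℝ) * ((3 : ℕ) : ℝ))⁻¹ ≤ 1 := by
    norm_num [Nat.factorial]
  calc |x| ^ 3 * (((Nat.succ 3 : ℕ) : ℝ) * (((Nat.factorial 3 : ℕ) : ℝ) * ((3 : ℕ) : ℝ))⁻¹) ≤ |x| ^ 3 * 1 :=
        mul_le_mul_of_nonneg_left this (by positivity)
    _ = _ := mul_one _

lemma EE_cont (t : ℝ) (N : ℕ) (P : Finset ℕ) (hG : Ob A W v G) : Continuous (EE a b G t N P) := by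
  unfold EE
  have h1 : Continuous fun y => ∑ n ∈ P, ((G (pt a b n y) : ℝ) : ℂ) :=
    continuous_finsetSum _ fun n _ => hG.tp.cont.comp (pt_cont a b n)
  exact (continuous_const.mul h1).cexp

lemma Ob.abs_le (hG : Ob A W v G) (R : ℝ) : |G R| ≤ A := by
  have := hG.tp.norm_le R
  rwa [Complex.norm_real, Real.norm_eq_abs] at this

lemma Ob.contG (hG : Ob A W v G) : Continuous G := by
  have h1 := Complex.continuous_re.comp hG.tp.cont
  exact h1

/-- the step from one block to the next -/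
lemma step (h : Sq a b δ) (hc : 0 < c) (hcd : c ≤ d) (hG : Ob A W v G) (hw : Am c d Λ Λ1 w w') (t : ℝ) {N : ℕ} (hN : 1 ≤ N)
    (hg : 1 ≤ gf N) {j : ℕ} (hj : 1 ≤ j) (hjJ : j < Jf N) (hx1 : |t| * A * Lf N / √N ≤ 1) :
    ‖(∫ y in c..d, w y * EE a b G t N (Pl N (j + 1)) y) -
      ((1 - t ^ 2 * v * (Lf N - gf N : ℕ) / (2 * N) : ℝ) : ℂ) * ∫ y in c..d, w y * EE a b G t N (Pl N j) y‖ ≤
      Λ * (|t| * A * Lf N / √N) ^ 3 * (d - c) + (|t| * Lf N / √N + t ^ 2 * (Lf N) ^ 2 / (2 * N)) *
        (K2 b c d δ A W Λ Λ1 t * (√N * exp (-(δ * c / 4) * gf N))) := by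
  have hA := hG.hA
  have hcm : c ∈ Icc c d := ⟨le_rfl, hcd⟩
  have hΛ0 : 0 ≤ Λ := (norm_nonneg _).trans (hw.bd c hcm)
  have hN0 : (0:ℝ) < N := by exact_mod_cast hN
  have hs0 : 0 < √(N:ℝ) := Real.sqrt_pos.mpr hN0
  have hdc : 0 ≤ d - c := by linarith
  set τ := K2 b c d δ A W Λ Λ1 t * (√N * exp (-(δ * c / 4) * gf N)) with hτ
  set P := Pl N j with hP
  set B := Bl N j with hB
  have hBc : B.card = Lf N - gf N := Bl_card N j
  have hgL : gf N ≤ Lf N := Nat.sqrt_le_self _
  have hBL : (B.card : ℝ) ≤ Lf N := by rw [hBc]; exact_mod_cast (by omega : Lf N - gf N ≤ Lf N)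
  have hPc : P.card ≤ N := by
    calc P.card ≤ (Finset.range N).card := by
          apply Finset.card_le_card
          intro n hn
          rw [Finset.mem_range]
          exact Pl_lt hjJ.le hn
      _ = N := Finset.card_range N
  have hdec : ∀ m ∈ B, _ := fun m hm => dec h hc hcd hG hw t hN hPc (g := gf N) (m := m) (Bl_ge hj hm)
    (fun n hn => Pl_gap hg hn hm)
  have hwc : Continuous w := continuous_iff_continuousAt.mpr fun y => (hw.der y).continuousAt
  set F : ℝ → ℂ := fun y => w y * EE a b G t N P y with hF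
  have hFc : Continuous F := hwc.mul (EE_cont t N P hG)
  have hFn : ∀ y ∈ Icc c d, ‖F y‖ ≤ Λ := by
    intro y hy
    simp only [hF]
    rw [norm_mul, EE_norm, mul_one]
    exact hw.bd y hy
  have hGc : ∀ n, Continuous fun y => G (pt a b n y) := fun n => hG.contG.comp (pt_cont a b n)
  set s : ℝ → ℝ := fun y => ∑ n ∈ B, G (pt a b n y) with hs
  have hsc : Continuous s := continuous_finsetSum _ fun n _ => hGc n
  set x : ℝ → ℝ := fun y => t / √N * s y with hx
  have hxc : Continuous x := continuous_const.mul hsc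
  have hxb : ∀ y, |x y| ≤ |t| * A * Lf N / √N := by
    intro y
    simp only [hx]
    rw [abs_mul, abs_div, abs_of_pos hs0]
    have h1 : |s y| ≤ Lf N * A := by
      simp only [hs]
      calc |∑ n ∈ B, G (pt a b n y)| ≤ ∑ n ∈ B, |G (pt a b n y)| := Finset.abs_sum_le_sum_abs _ _
        _ ≤ ∑ _n ∈ B, A := Finset.sum_le_sum fun n _ => hG.abs_le _
        _ = B.card * A := by rw [Finset.sum_const, nsmul_eq_mul]
        _ ≤ _ := mul_le_mul_of_nonneg_right hBL (by linarith)
    calc |t| / √N * |s y| ≤ |t| / √N * (Lf N * A) := mul_le_mul_of_nonneg_left h1 (by positivity)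
      _ = _ := by ring
  have hE : ∀ y, w y * EE a b G t N (Pl N (j + 1)) y = F y * Complex.exp (Complex.I * ((x y : ℝ) : ℂ)) := by
    intro y
    simp only [hF, hx, hs]
    unfold EE
    rw [Pl_succ N hj, mul_add, Complex.exp_add, ← hP, ← hB]
    push_cast
    ring_nf
  -- the three terms
  set I1 := ∫ y in c..d, F y * (Complex.exp (Complex.I * ((x y : ℝ) : ℂ)) - (1 + Complex.I * ((x y:ℝ):ℂ) - ((x y:ℝ):ℂ) ^ 2 / 2)) with hI1
  set I2 := ∫ y in c..d, F y * ((s y : ℝ) : ℂ) with hI2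
  set I3 := ∫ y in c..d, F y * ((s y ^ 2 - v * B.card : ℝ) : ℂ) with hI3
  have hkey : (∫ y in c..d, w y * EE a b G t N (Pl N (j + 1)) y) -
      ((1 - t ^ 2 * v * (Lf N - gf N : ℕ) / (2 * N) : ℝ) : ℂ) * ∫ y in c..d, F y =
      I1 + (Complex.I * ((t / √N : ℝ) : ℂ)) * I2 - ((t ^ 2 / (2 * N) : ℝ) : ℂ) * I3 := by
    simp only [hE]
    rw [hI1, hI2, hI3, ← intervalIntegral.integral_const_mul, ← intervalIntegral.integral_const_mul,
      ← intervalIntegral.integral_const_mul, ← intervalIntegral.integral_sub, ← intervalIntegral.integral_add,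
      ← intervalIntegral.integral_sub]
    · apply intervalIntegral.integral_congr
      intro y _
      beta_reduce
      have e1 : (x y) ^ 2 = t ^ 2 / N * (s y) ^ 2 := by
        simp only [hx]
        rw [mul_pow, div_pow, Real.sq_sqrt hN0.le]
      have e2 : ((x y : ℝ) : ℂ) ^ 2 = ((t ^ 2 / N * (s y) ^ 2 : ℝ) : ℂ) := by rw [← e1]; push_cast; rfl
      have e3 : ((x y : ℝ) : ℂ) = ((t / √N : ℝ) : ℂ) * ((s y : ℝ) : ℂ) := by simp only [hx]; push_cast; rfl
      rw [← hBc]
      have e4 : (N:ℂ) ≠ 0 := by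
        have : N ≠ 0 := by omega
        exact_mod_cast this
      rw [e2]
      nth_rewrite 3 [e3]
      push_cast
      field_simp
      ring
    · exact ((hFc.mul (by fun_prop)).add (continuous_const.mul (hFc.mul (Complex.continuous_ofReal.comp hsc)))).intervalIntegrable _ _
    · exact (continuous_const.mul (hFc.mul (Complex.continuous_ofReal.comp ((hsc.pow 2).sub continuous_const)))).intervalIntegrable _ _
    · exact (hFc.mul (by fun_prop)).intervalIntegrable _ _
    · exact (continuous_const.mul (hFc.mul (Complex.continuous_ofReal.comp hsc))).intervalIntegrable _ _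
    · exact (hFc.mul (by fun_prop)).intervalIntegrable _ _
    · exact (continuous_const.mul hFc).intervalIntegrable _ _
  have b1 : ‖I1‖ ≤ Λ * (|t| * A * Lf N / √N) ^ 3 * (d - c) := by
    have h8 : ∀ y ∈ Set.uIoc c d, ‖F y * (Complex.exp (Complex.I * ((x y : ℝ) : ℂ)) - (1 + Complex.I * ((x y:ℝ):ℂ) - ((x y:ℝ):ℂ) ^ 2 / 2))‖ ≤
        Λ * (|t| * A * Lf N / √N) ^ 3 := by
      intro y hy
      rw [uIoc_of_le hcd] at hy
      rw [norm_mul]
      apply mul_le_mul (hFn y ⟨hy.1.le, hy.2⟩) _ (norm_nonneg _) hΛ0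
      exact (exp_three ((hxb y).trans hx1)).trans (pow_le_pow_left₀ (abs_nonneg _) (hxb y) 3)
    have h10 := intervalIntegral.norm_integral_le_of_norm_le_const h8
    rwa [abs_of_nonneg hdc] at h10
  have hτ0 : 0 ≤ τ ∨ B = ∅ := by
    by_cases hBe : B.Nonempty
    · obtain ⟨m, hm⟩ := hBe
      exact Or.inl ((norm_nonneg _).trans (hdec m hm).1)
    · exact Or.inr (Finset.not_nonempty_iff_eq_empty.mp hBe)
  have b2 : ‖I2‖ ≤ B.card * τ := by
    rw [hI2]
    have e1 : ∀ y, F y * ((s y : ℝ) : ℂ) = ∑ n ∈ B, F y * ((G (pt a b n y) : ℝ) : ℂ) := by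
      intro y
      simp only [hs]
      push_cast
      rw [Finset.mul_sum]
    simp only [e1]
    have hci : ∀ n ∈ B, IntervalIntegrable (fun y => F y * ((G (pt a b n y) : ℝ) : ℂ)) volume c d := fun n _ =>
      (hFc.mul (Complex.continuous_ofReal.comp (hGc n))).intervalIntegrable _ _
    rw [intervalIntegral.integral_finsetSum hci]
    calc ‖∑ n ∈ B, ∫ y in c..d, F y * ((G (pt a b n y) : ℝ) : ℂ)‖ ≤ ∑ _n ∈ B, τ :=
          (norm_sum_le _ _).trans (Finset.sum_le_sum fun n hn => (hdec n hn).1)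
      _ = _ := by rw [Finset.sum_const, nsmul_eq_mul]
  have b3 : ‖I3‖ ≤ (B.card:ℝ) ^ 2 * τ := by
    rw [hI3]
    have e1 : ∀ y, F y * ((s y ^ 2 - v * B.card : ℝ) : ℂ) = ∑ m ∈ B, ∑ n ∈ B, (if n = m then F y * ((G (pt a b m y) ^ 2 - v : ℝ) : ℂ)
        else F y * (((G (pt a b m y) : ℝ) : ℂ) * ((G (pt a b n y) : ℝ) : ℂ))) := by
      intro y
      have e2 : s y ^ 2 - v * B.card = ∑ m ∈ B, ∑ n ∈ B, (if n = m then G (pt a b m y) ^ 2 - v
        else G (pt a b m y) * G (pt a b n y)) := by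
        have e3 : ∀ m ∈ B, ∑ n ∈ B, (if n = m then G (pt a b m y) ^ 2 - v else G (pt a b m y) * G (pt a b n y)) =
            G (pt a b m y) * s y - v := by
          intro m hm
          have e4 : ∀ n ∈ B, (if n = m then G (pt a b m y) ^ 2 - v else G (pt a b m y) * G (pt a b n y)) =
              G (pt a b m y) * G (pt a b n y) - (if n = m then v else 0) := by
            intro n _
            split_ifs with hnm
            · rw [hnm]; ring
            · ring
          rw [Finset.sum_congr rfl e4, Finset.sum_sub_distrib, ← Finset.mul_sum, Finset.sum_ite_eq' B m, if_pos hm]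
        rw [Finset.sum_congr rfl e3, Finset.sum_sub_distrib, ← Finset.sum_mul, Finset.sum_const, nsmul_eq_mul]
        simp only [hs]
        ring
      rw [e2]
      push_cast
      rw [Finset.mul_sum]
      apply Finset.sum_congr rfl
      intro m _
      rw [Finset.mul_sum]
      apply Finset.sum_congr rfl
      intro n _
      split_ifs <;> push_cast <;> rfl
    simp only [e1]
    have hcc : ∀ m n : ℕ, Continuous fun y => (if n = m then F y * ((G (pt a b m y) ^ 2 - v : ℝ) : ℂ)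
        else F y * (((G (pt a b m y) : ℝ) : ℂ) * ((G (pt a b n y) : ℝ) : ℂ))) := by
      intro m n
      split_ifs
      · exact hFc.mul (Complex.continuous_ofReal.comp (((hGc m).pow 2).sub continuous_const))
      · exact hFc.mul ((Complex.continuous_ofReal.comp (hGc m)).mul (Complex.continuous_ofReal.comp (hGc n)))
    rw [intervalIntegral.integral_finsetSum (fun m _ => (continuous_finsetSum _ fun n _ => hcc m n).intervalIntegrable _ _)]
    calc ‖∑ m ∈ B, ∫ y in c..d, ∑ n ∈ B, (if n = m then F y * ((G (pt a b m y) ^ 2 - v : ℝ) : ℂ)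
        else F y * (((G (pt a b m y) : ℝ) : ℂ) * ((G (pt a b n y) : ℝ) : ℂ)))‖ ≤ ∑ _m ∈ B, ∑ _n ∈ B, τ := by
          refine (norm_sum_le _ _).trans (Finset.sum_le_sum fun m hm => ?_)
          rw [intervalIntegral.integral_finsetSum (fun n _ => (hcc m n).intervalIntegrable _ _)]
          refine (norm_sum_le _ _).trans (Finset.sum_le_sum fun n hn => ?_)
          rcases lt_trichotomy n m with hlt | heq | hgt
          · simp only [hlt.ne, if_false]
            exact (hdec m hm).2.2 n hlt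
          · simp only [heq, if_true]
            exact (hdec m hm).2.1
          · simp only [hgt.ne', if_false]
            have := (hdec n hn).2.2 m hgt
            have e5 : ∀ y, F y * (((G (pt a b m y) : ℝ) : ℂ) * ((G (pt a b n y) : ℝ) : ℂ)) =
                F y * (((G (pt a b n y) : ℝ) : ℂ) * ((G (pt a b m y) : ℝ) : ℂ)) := fun y => by ring
            simp only [e5]
            exact this
      _ = _ := by
          rw [Finset.sum_const, Finset.sum_const, nsmul_eq_mul, nsmul_eq_mul]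
          ring
  rw [hkey]
  have hτc : (B.card : ℝ) * τ ≤ Lf N * τ ∧ (B.card:ℝ) ^ 2 * τ ≤ (Lf N:ℝ) ^ 2 * τ := by
    rcases hτ0 with h0 | h0
    · exact ⟨mul_le_mul_of_nonneg_right hBL h0, mul_le_mul_of_nonneg_right (pow_le_pow_left₀ (Nat.cast_nonneg _) hBL 2) h0⟩
    · have hcard : Lf N - gf N = 0 := by rw [← hBc, h0]; simp
      have hBB : (B.card:ℝ) = 0 := by rw [h0]; simp
      rw [hBB]
      have hτ1 : 0 ≤ τ := by
        have hW := hG.hW
        have hCo := Co_pos hcd h.dpos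
        have hb0 := h.pos 0
        have hΛ10 : 0 ≤ Λ1 := (norm_nonneg _).trans (hw.bd' c hcm)
        have hpi := Real.pi_pos
        rw [hτ]
        unfold K2 K1
        positivity
      constructor
      · rw [zero_mul]; positivity
      · rw [zero_pow (by norm_num), zero_mul]; positivity
  calc ‖I1 + (Complex.I * ((t / √N : ℝ) : ℂ)) * I2 - ((t ^ 2 / (2 * N) : ℝ) : ℂ) * I3‖
      ≤ ‖I1‖ + |t| / √N * ‖I2‖ + t ^ 2 / (2 * N) * ‖I3‖ := by
        refine (norm_sub_le _ _).trans (add_le_add ((norm_add_le _ _).trans (add_le_add le_rfl ?_)) ?_)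
        · rw [norm_mul, norm_mul, Complex.norm_I, one_mul, Complex.norm_real, Real.norm_eq_abs, abs_div, abs_of_pos hs0]
        · rw [norm_mul, Complex.norm_real, Real.norm_eq_abs, abs_of_nonneg (by positivity)]
    _ ≤ Λ * (|t| * A * Lf N / √N) ^ 3 * (d - c) + |t| / √N * (Lf N * τ) + t ^ 2 / (2 * N) * ((Lf N:ℝ) ^ 2 * τ) := by
        gcongr
        · exact b2.trans hτc.1
        · exact b3.trans hτc.2
    _ = _ := by ring

end Run7.h113.CL
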