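import Mathlib
import Pool.Agent.Run7.h113.CL.Clt
import Pool.Agent.R306.GP.IID

/-!
The central limit theorem for a fixed observable: the limit.
-/

set_option autoImplicit false

open MeasureTheory Filter Topology Set Real
open Pool.Agent.H469R2.NK (e norm_e e_add conj_e e_zero)
open Pool.Agent.R306.GP

namespace Run7.h113.CL

variable {a b : ℕ → ℝ} {δ c d : ℝ} {A W v : ℝ} {G : ℝ → ℝ} {Λ Λ1 : ℝ} {w w' : ℝ → ℂ}

lemma pow_sub_pow_abs {x y : ℝ} (hx : 0 ≤ x) (hx1 : x ≤ 1) (hy : 0 ≤ y) (hy1 : y ≤ 1) (k : ℕ) :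
    |x ^ k - y ^ k| ≤ k * |x - y| := by
  induction k with
  | zero => simp
  | succ k ih =>
    have e1 : x ^ (k + 1) - y ^ (k + 1) = x * (x ^ k - y ^ k) + (x - y) * y ^ k := by ring
    rw [e1]
    refine (abs_add_le _ _).trans ?_
    rw [abs_mul, abs_mul, abs_of_nonneg hx, abs_of_nonneg (pow_nonneg hy k)]
    have h1 : y ^ k ≤ 1 := pow_le_one₀ hy hy1
    have h2 := abs_nonneg (x ^ k - y ^ k)
    have h3 := abs_nonneg (x - y)
    push_cast
    nlinarith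

lemma exp_lip' {p q : ℝ} (hp : 0 ≤ p) (hq : 0 ≤ q) : |exp (-p) - exp (-q)| ≤ |p - q| := by
  wlog hpq : p ≤ q generalizing p q
  · have := this hq hp (by linarith)
    rwa [abs_sub_comm, abs_sub_comm p q]
  have h1 : exp (-q) ≤ exp (-p) := Real.exp_le_exp.mpr (by linarith)
  rw [abs_of_nonneg (by linarith), abs_of_nonpos (by linarith : p - q ≤ 0)]
  have h2 := Real.add_one_le_exp (-(q - p))
  have h3 : exp (-q) = exp (-p) * exp (-(q - p)) := by rw [← Real.exp_add]; congr 1; ring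
  have h4 : exp (-p) ≤ 1 := by rw [Real.exp_le_one_iff]; linarith
  have h5 := Real.exp_pos (-p)
  rw [h3]
  nlinarith

lemma pow_exp {x : ℝ} (hx : 0 ≤ x) (hx1 : x ≤ 1) (k : ℕ) : |(1 - x) ^ k - exp (-(k * x))| ≤ k * x ^ 2 := by
  have e1 : exp (-(k * x)) = (exp (-x)) ^ k := by rw [← Real.exp_nat_mul]; congr 1; ring
  rw [e1]
  have h1 : exp (-x) ≤ 1 := by rw [Real.exp_le_one_iff]; linarith
  refine (pow_sub_pow_abs (by linarith) (by linarith) (Real.exp_pos _).le h1 k).trans ?_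
  apply mul_le_mul_of_nonneg_left _ (Nat.cast_nonneg k)
  have h2 := Real.abs_exp_sub_one_sub_id_le (x := -x) (by rw [abs_neg, abs_of_nonneg hx]; exact hx1)
  rw [abs_sub_comm]
  have e2 : exp (-x) - (1 - x) = exp (-x) - 1 - -x := by ring
  rw [e2]
  calc _ ≤ (-x) ^ 2 := h2
    _ = _ := by ring

/-- iteration of the step -/
lemma iter {z : ℕ → ℂ} {ρ : ℝ} (hρ : |ρ| ≤ 1) {ε : ℝ} {J : ℕ} (h : ∀ j, 1 ≤ j → j < J → ‖z (j + 1) - (ρ : ℂ) * z j‖ ≤ ε) :
    ∀ k : ℕ, k + 1 ≤ J → ‖z (k + 1) - (ρ : ℂ) ^ k * z 1‖ ≤ k * ε := by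
  intro k
  induction k with
  | zero => intro _; simp
  | succ k ih =>
    intro hk
    have h1 := ih (by omega)
    have h2 := h (k + 1) (by omega) (by omega)
    have e1 : z (k + 1 + 1) - (ρ : ℂ) ^ (k + 1) * z 1 =
        (z (k + 1 + 1) - (ρ : ℂ) * z (k + 1)) + (ρ : ℂ) * (z (k + 1) - (ρ : ℂ) ^ k * z 1) := by ring
    rw [e1]
    refine (norm_add_le _ _).trans ?_
    rw [norm_mul, Complex.norm_real, Real.norm_eq_abs]
    have h3 : |ρ| * ‖z (k + 1) - (ρ : ℂ) ^ k * z 1‖ ≤ 1 * (k * ε) := mul_le_mul hρ h1 (norm_nonneg _) (by norm_num)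
    push_cast
    linarith

/-- numerical facts about the parameters -/
structure Par (N : ℕ) : Prop where
  hN : 1 ≤ N
  hg : 1 ≤ gf N
  hJ : 1 ≤ Jf N
  gL : (gf N : ℝ) ≤ Lf N
  JL : (Jf N : ℝ) * Lf N ≤ N
  L4 : (Lf N : ℝ) ^ 4 ≤ √N
  g2 : (gf N : ℝ) ^ 2 ≤ Lf N
  Ng : (N : ℝ) ≤ ((gf N : ℝ) + 1) ^ 16
  gN : (gf N : ℝ) ≤ N

lemma Par.of {N : ℕ} (hg : 1 ≤ gf N) : Par N := by
  have hL1 : 1 ≤ Lf N := hg.trans (Nat.sqrt_le_self _)
  have hLN : Lf N ≤ N := by
    calc Lf N = Lf N ^ 1 := (pow_one _).symm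
      _ ≤ Lf N ^ 8 := Nat.pow_le_pow_right hL1 (by norm_num)
      _ ≤ N := Lf_pow N
  have hgL : gf N ≤ Lf N := Nat.sqrt_le_self _
  refine ⟨hL1.trans hLN, hg, Nat.div_pos hLN hL1, by exact_mod_cast hgL, by exact_mod_cast Nat.div_mul_le_self N (Lf N), ?_,
    by exact_mod_cast gf_sq N, by exact_mod_cast N_lt N, by exact_mod_cast hgL.trans hLN⟩
  apply Real.le_sqrt_of_sq_le
  have := Lf_pow N
  calc ((Lf N : ℝ) ^ 4) ^ 2 = (Lf N : ℝ) ^ 8 := by ring
    _ ≤ (N:ℝ) := by exact_mod_cast this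

/-- the total error of the blocks -/
lemma err1 {N : ℕ} (hp : Par N) {Λ A t D K s : ℝ} (hΛ : 0 ≤ Λ) (hA : 0 ≤ A) (hD : 0 ≤ D) (hK : 0 ≤ K) :
    ((Jf N - 1 : ℕ) : ℝ) * (Λ * (|t| * A * Lf N / √N) ^ 3 * D + (|t| * Lf N / √N + t ^ 2 * (Lf N) ^ 2 / (2 * N)) *
        (K * (√N * exp (-s * gf N)))) ≤
      Λ * (|t| * A) ^ 3 * D / gf N + (|t| + t ^ 2) * K * (((gf N : ℝ) + 1) ^ 16 * exp (-s * gf N)) := by
  have hN0 : (0:ℝ) < N := by exact_mod_cast hp.hN
  have hs0 : 0 < √(N:ℝ) := Real.sqrt_pos.mpr hN0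
  have hg0 : (0:ℝ) < gf N := by exact_mod_cast hp.hg
  have hg1 : (1:ℝ) ≤ gf N := by exact_mod_cast hp.hg
  have hL0 : (0:ℝ) < Lf N := lt_of_lt_of_le hg0 hp.gL
  have hL1 : (1:ℝ) ≤ Lf N := hg1.trans hp.gL
  have hss : √(N:ℝ) * √(N:ℝ) = N := Real.mul_self_sqrt hN0.le
  set E := exp (-s * gf N) with hE
  have hE0 : 0 < E := Real.exp_pos _
  have hJ : ((Jf N - 1 : ℕ) : ℝ) ≤ Jf N := by exact_mod_cast Nat.sub_le _ _
  set ρ := Λ * (|t| * A * Lf N / √N) ^ 3 * D + (|t| * Lf N / √N + t ^ 2 * (Lf N) ^ 2 / (2 * N)) * (K * (√N * E)) with hρ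
  have hρ0 : 0 ≤ ρ := by positivity
  have hLs : (Lf N : ℝ) ≤ √N := by
    calc (Lf N : ℝ) = (Lf N : ℝ) ^ 1 := (pow_one _).symm
      _ ≤ (Lf N : ℝ) ^ 4 := pow_le_pow_right₀ hL1 (by norm_num)
      _ ≤ _ := hp.L4
  have h1 : (Jf N : ℝ) * (Λ * (|t| * A * Lf N / √N) ^ 3 * D) ≤ Λ * (|t| * A) ^ 3 * D / gf N := by
    have e1 : (Jf N : ℝ) * (Λ * (|t| * A * Lf N / √N) ^ 3 * D) = Λ * (|t| * A) ^ 3 * D * ((Jf N * Lf N) * (Lf N) ^ 2 / (√N) ^ 3) := by
      field_simp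
    have e2 : (Jf N * Lf N) * (Lf N : ℝ) ^ 2 / (√N) ^ 3 ≤ 1 / gf N := by
      rw [div_le_div_iff₀ (by positivity) hg0, one_mul]
      have h5 : (Lf N : ℝ) ^ 2 * gf N ≤ √N := by
        calc (Lf N : ℝ) ^ 2 * gf N ≤ (Lf N : ℝ) ^ 2 * Lf N := mul_le_mul_of_nonneg_left hp.gL (by positivity)
          _ = (Lf N : ℝ) ^ 3 := by ring
          _ ≤ (Lf N : ℝ) ^ 4 := pow_le_pow_right₀ hL1 (by norm_num)
          _ ≤ _ := hp.L4
      calc Jf N * Lf N * (Lf N : ℝ) ^ 2 * gf N = (Jf N * Lf N) * ((Lf N : ℝ) ^ 2 * gf N) := by ring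
        _ ≤ N * √N := mul_le_mul hp.JL h5 (by positivity) hN0.le
        _ = (√N) ^ 3 := by rw [← hss]; simp only [Real.sqrt_mul_self hs0.le]; ring
    rw [e1]
    calc _ ≤ Λ * (|t| * A) ^ 3 * D * (1 / gf N) := mul_le_mul_of_nonneg_left e2 (by positivity)
      _ = _ := by ring
  have h2 : (Jf N : ℝ) * ((|t| * Lf N / √N + t ^ 2 * (Lf N) ^ 2 / (2 * N)) * (K * (√N * E))) ≤
      (|t| + t ^ 2) * K * (((gf N : ℝ) + 1) ^ 16 * E) := by
    have e1 : (Jf N : ℝ) * ((|t| * Lf N / √N + t ^ 2 * (Lf N) ^ 2 / (2 * N)) * (K * (√N * E))) =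
        (|t| * (Jf N * Lf N) + t ^ 2 * ((Jf N * Lf N) * (Lf N * √N) / (2 * N))) * (K * E) := by
      field_simp
    rw [e1]
    have e2 : (Jf N * Lf N) * (Lf N * √N) / (2 * N) ≤ (N:ℝ) := by
      rw [div_le_iff₀ (by positivity)]
      calc (Jf N * Lf N) * (Lf N * √N) ≤ N * (√N * √N) := mul_le_mul hp.JL (mul_le_mul_of_nonneg_right hLs hs0.le) (by positivity) hN0.le
        _ = N * N := by rw [hss]
        _ ≤ _ := by nlinarith
    calc (|t| * (Jf N * Lf N) + t ^ 2 * ((Jf N * Lf N) * (Lf N * √N) / (2 * N))) * (K * E)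
        ≤ (|t| * N + t ^ 2 * N) * (K * E) := by
          apply mul_le_mul_of_nonneg_right _ (by positivity)
          exact add_le_add (mul_le_mul_of_nonneg_left hp.JL (abs_nonneg _)) (mul_le_mul_of_nonneg_left e2 (by positivity))
      _ = (|t| + t ^ 2) * K * (N * E) := by ring
      _ ≤ _ := mul_le_mul_of_nonneg_left (mul_le_mul_of_nonneg_right hp.Ng hE0.le) (by positivity)
  calc ((Jf N - 1 : ℕ) : ℝ) * ρ ≤ Jf N * ρ := mul_le_mul_of_nonneg_right hJ hρ0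
    _ = (Jf N : ℝ) * (Λ * (|t| * A * Lf N / √N) ^ 3 * D) +
        (Jf N : ℝ) * ((|t| * Lf N / √N + t ^ 2 * (Lf N) ^ 2 / (2 * N)) * (K * (√N * E))) := by rw [hρ]; ring
    _ ≤ _ := add_le_add h1 h2

/-- the product of the variances -/
lemma err2 {N : ℕ} (hp : Par N) {t v : ℝ} (hv : 0 ≤ v) (hgt : t ^ 2 * v ≤ gf N) :
    |1 - t ^ 2 * v * (Lf N - gf N : ℕ) / (2 * N)| ≤ 1 ∧
    |(1 - t ^ 2 * v * (Lf N - gf N : ℕ) / (2 * N)) ^ (Jf N - 1) - exp (-(t ^ 2 * v / 2))| ≤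
      ((t ^ 2 * v) ^ 2 + 2 * (t ^ 2 * v)) / gf N := by
  have hN0 : (0:ℝ) < N := by exact_mod_cast hp.hN
  have hg0 : (0:ℝ) < gf N := by exact_mod_cast hp.hg
  have hg1 : (1:ℝ) ≤ gf N := by exact_mod_cast hp.hg
  have hL0 : (0:ℝ) < Lf N := lt_of_lt_of_le hg0 hp.gL
  have hL1 : (1:ℝ) ≤ Lf N := hg1.trans hp.gL
  have hs0 : 0 < √(N:ℝ) := Real.sqrt_pos.mpr hN0
  have hss : √(N:ℝ) * √(N:ℝ) = N := Real.mul_self_sqrt hN0.le
  have hLg : ((Lf N - gf N : ℕ) : ℝ) ≤ Lf N := by exact_mod_cast Nat.sub_le _ _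
  have hu0 : 0 ≤ t ^ 2 * v := by positivity
  set u := t ^ 2 * v with hu
  set x := u * (Lf N - gf N : ℕ) / (2 * N) with hx
  have hx0 : 0 ≤ x := by positivity
  -- `L² g ≤ N`
  have hLLg : (Lf N : ℝ) ^ 2 * gf N ≤ N := by
    have h5 : (Lf N : ℝ) ^ 2 * gf N ≤ √N := by
      calc (Lf N : ℝ) ^ 2 * gf N ≤ (Lf N : ℝ) ^ 2 * Lf N := mul_le_mul_of_nonneg_left hp.gL (by positivity)
        _ = (Lf N : ℝ) ^ 3 := by ring
        _ ≤ (Lf N : ℝ) ^ 4 := pow_le_pow_right₀ hL1 (by norm_num)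
        _ ≤ _ := hp.L4
    have hs1 : 1 ≤ √(N:ℝ) := by rw [Real.one_le_sqrt]; exact_mod_cast hp.hN
    nlinarith
  have hLg' : (Lf N : ℝ) * gf N ≤ N := by nlinarith
  have hx1 : x ≤ 1 := by
    rw [hx, div_le_one (by positivity)]
    calc u * (Lf N - gf N : ℕ) ≤ gf N * Lf N := mul_le_mul hgt hLg (Nat.cast_nonneg _) hg0.le
      _ ≤ _ := by linarith
  refine ⟨by rw [abs_of_nonneg (by linarith)]; linarith, ?_⟩
  have h1 := pow_exp hx0 hx1 (Jf N - 1)
  have hJ : ((Jf N - 1 : ℕ) : ℝ) ≤ Jf N := by exact_mod_cast Nat.sub_le _ _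
  have h2 : ((Jf N - 1 : ℕ) : ℝ) * x ^ 2 ≤ u ^ 2 / gf N := by
    have e1 : x ≤ u * Lf N / (2 * N) := by
      rw [hx]
      apply div_le_div_of_nonneg_right _ (by positivity)
      exact mul_le_mul_of_nonneg_left hLg hu0
    calc ((Jf N - 1 : ℕ) : ℝ) * x ^ 2 ≤ Jf N * (u * Lf N / (2 * N)) ^ 2 := by gcongr
      _ = u ^ 2 * ((Jf N * Lf N) * Lf N / (4 * N ^ 2)) := by field_simp; ring
      _ ≤ u ^ 2 * (1 / gf N) := by
          apply mul_le_mul_of_nonneg_left _ (by positivity)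
          rw [div_le_div_iff₀ (by positivity) hg0, one_mul]
          calc (Jf N : ℝ) * Lf N * Lf N * gf N = (Jf N * Lf N) * (Lf N * gf N) := by ring
            _ ≤ N * N := mul_le_mul hp.JL hLg' (by positivity) hN0.le
            _ ≤ _ := by nlinarith
      _ = _ := by ring
  have h3 : |exp (-(((Jf N - 1 : ℕ) : ℝ) * x)) - exp (-(u / 2))| ≤ 2 * u / gf N := by
    refine (exp_lip' (by positivity) (by positivity)).trans ?_
    have h4 := rem_card N hp.hg
    have hle : (Jf N - 1) * (Lf N - gf N) ≤ N := by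
      calc (Jf N - 1) * (Lf N - gf N) ≤ Jf N * Lf N := Nat.mul_le_mul (Nat.sub_le _ _) (Nat.sub_le _ _)
        _ ≤ N := Nat.div_mul_le_self _ _
    rw [Nat.cast_sub hle] at h4
    have e1 : ((Jf N - 1 : ℕ) : ℝ) * x - u / 2 = -(u / (2 * N) * ((N:ℝ) - (((Jf N - 1) * (Lf N - gf N) : ℕ) : ℝ))) := by
      rw [hx, Nat.cast_mul]
      field_simp
      ring
    have hnn : 0 ≤ (N:ℝ) - (((Jf N - 1) * (Lf N - gf N) : ℕ) : ℝ) := by
      have : (((Jf N - 1) * (Lf N - gf N) : ℕ) : ℝ) ≤ N := by exact_mod_cast hle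
      linarith
    rw [e1, abs_neg, abs_of_nonneg (by positivity)]
    calc u / (2 * N) * ((N:ℝ) - (((Jf N - 1) * (Lf N - gf N) : ℕ) : ℝ)) ≤ u / (2 * N) * (3 / gf N * N) :=
          mul_le_mul_of_nonneg_left h4 (by positivity)
      _ = (3 / 2) * u / gf N := by field_simp
      _ ≤ _ := by
          apply div_le_div_of_nonneg_right _ hg0.le
          nlinarith
  calc _ ≤ |(1 - x) ^ (Jf N - 1) - exp (-(((Jf N - 1 : ℕ) : ℝ) * x))| + |exp (-(((Jf N - 1 : ℕ) : ℝ) * x)) - exp (-(u / 2))| :=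
        abs_sub_le _ _ _
    _ ≤ u ^ 2 / gf N + 2 * u / gf N := add_le_add (h1.trans h2) h3
    _ = _ := by ring

lemma tend_g {f : ℝ → ℝ} (hf : Tendsto (fun n : ℕ => f n) atTop (𝓝 0)) : Tendsto (fun N : ℕ => f (gf N)) atTop (𝓝 0) :=
  hf.comp gf_tendsto

lemma tend_exp (C : ℝ) {s : ℝ} (hs : 0 < s) : Tendsto (fun n : ℕ => C * (((n:ℝ) + 1) ^ 16 * exp (-s * n))) atTop (𝓝 0) := by
  have h1 : Tendsto (fun x : ℝ => x ^ 16 * exp (-s * x)) atTop (𝓝 0) := by
    have h2 := (isLittleO_pow_exp_pos_mul_atTop (k := 16) hs).tendsto_div_nhds_zero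
    refine h2.congr fun x => ?_
    rw [neg_mul, Real.exp_neg]
    rfl
  have h3 : Tendsto (fun n : ℕ => (n:ℝ) + 1) atTop atTop := tendsto_atTop_add_const_right _ _ tendsto_natCast_atTop_atTop
  have h4 := (h1.comp h3).const_mul (C * exp s)
  rw [mul_zero] at h4
  refine h4.congr fun n => ?_
  simp only [Function.comp]
  have e1 : exp (-s * ((n:ℝ) + 1)) = exp (-s * n) * exp (-s) := by rw [← Real.exp_add]; congr 1; ring
  have e2 : exp s * exp (-s) = 1 := by rw [← Real.exp_add, add_neg_cancel, Real.exp_zero]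
  rw [e1]
  calc C * exp s * (((n:ℝ) + 1) ^ 16 * (exp (-s * n) * exp (-s))) =
      C * (((n:ℝ) + 1) ^ 16 * exp (-s * n)) * (exp s * exp (-s)) := by ring
    _ = _ := by rw [e2, mul_one]

lemma tend_inv (C : ℝ) : Tendsto (fun n : ℕ => C / (n:ℝ)) atTop (𝓝 0) :=
  tendsto_const_nhds.div_atTop tendsto_natCast_atTop_atTop

/-- the mean of the complementary sum -/
lemma rem_small (h : Sq a b δ) (hc : 0 < c) (hcd : c ≤ d) (hG : Ob A W v G) : ∃ C : ℝ, 0 ≤ C ∧ ∀ N : ℕ, 1 ≤ gf N →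
    ∫ y in c..d, ‖∑ n ∈ Finset.range N \ Pl N (Jf N), ((G (pt a b n y) : ℝ) : ℂ)‖ ^ 2 ≤ C / gf N * N := by
  have hA := hG.hA
  have hW := hG.hW
  obtain ⟨C1, hC1, horth⟩ := orth h hc hcd (C := max A W) (hA.trans (le_max_left _ _)) 0
  have hdc : 0 ≤ d - c := by linarith
  refine ⟨3 * (A ^ 2 * (d - c)) + C1, by positivity, fun N hg => ?_⟩
  have hp := Par.of hg
  have hN0 : (0:ℝ) < N := by exact_mod_cast hp.hN
  have hg0 : (0:ℝ) < gf N := by exact_mod_cast hp.hg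
  set S := Finset.range N \ Pl N (Jf N) with hS
  have h1 := horth (fun _ R => ((G R : ℝ) : ℂ)) (fun n => hG.tp.mono (by simp) (by simp)) S
  have hcard : (S.card : ℝ) ≤ 3 / gf N * N := by
    refine le_trans ?_ (rem_card N hg)
    have : S.card = N - (Jf N - 1) * (Lf N - gf N) := by
      rw [hS, Finset.card_sdiff_of_subset, Finset.card_range, Pl_card]
      intro n hn
      rw [Finset.mem_range]
      exact Pl_lt le_rfl hn
    rw [this]
  have h2 : ∀ n ∈ S, ∫ y in c..d, ‖((G (pt a b n y) : ℝ) : ℂ)‖ ^ 2 ≤ A ^ 2 * (d - c) := by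
    intro n _
    have hcont : Continuous fun y => ‖((G (pt a b n y) : ℝ) : ℂ)‖ ^ 2 :=
      ((Complex.continuous_ofReal.comp (hG.contG.comp (pt_cont a b n))).norm).pow 2
    calc ∫ y in c..d, ‖((G (pt a b n y) : ℝ) : ℂ)‖ ^ 2 ≤ ∫ _y in c..d, A ^ 2 := by
          apply intervalIntegral.integral_mono_on hcd (hcont.intervalIntegrable _ _) (by simp)
          intro y _
          rw [Complex.norm_real, Real.norm_eq_abs]
          exact pow_le_pow_left₀ (abs_nonneg _) (hG.abs_le _) 2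
      _ = _ := by rw [intervalIntegral.integral_const, smul_eq_mul]; ring
  calc _ ≤ _ := h1
    _ ≤ ∑ _n ∈ S, A ^ 2 * (d - c) + C1 := by
        apply add_le_add (Finset.sum_le_sum h2) le_rfl
    _ = S.card * (A ^ 2 * (d - c)) + C1 := by rw [Finset.sum_const, nsmul_eq_mul]
    _ ≤ 3 / gf N * N * (A ^ 2 * (d - c)) + C1 * (1 / gf N * N) := by
        apply add_le_add
        · exact mul_le_mul_of_nonneg_right hcard (by positivity)
        · apply le_mul_of_one_le_right hC1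
          rw [one_div, inv_mul_eq_div, one_le_div hg0]
          exact hp.gN
    _ = _ := by ring

/-- the Cauchy-Schwarz inequality -/
lemma cs_int {c d : ℝ} (hcd : c ≤ d) {f : ℝ → ℝ} (hf : Continuous f) :
    (∫ y in c..d, |f y|) ≤ √(d - c) * √(∫ y in c..d, f y ^ 2) := by
  have hdc : 0 ≤ d - c := by linarith
  have h0 : 0 ≤ ∫ y in c..d, f y ^ 2 := intervalIntegral.integral_nonneg hcd fun y _ => sq_nonneg _
  rw [← Real.sqrt_mul hdc]
  apply Real.le_sqrt_of_sq_le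
  set I := ∫ y in c..d, |f y| with hI
  -- `∫ (|f| - s)^2 ≥ 0`
  rcases hdc.eq_or_lt with h1 | h1
  · have : d = c := by linarith
    subst this
    simp [hI]
  · set s := I / (d - c) with hs
    have h2 : 0 ≤ ∫ y in c..d, (|f y| - s) ^ 2 := intervalIntegral.integral_nonneg hcd fun y _ => sq_nonneg _
    have h3 : ∫ y in c..d, (|f y| - s) ^ 2 = (∫ y in c..d, f y ^ 2) - 2 * s * I + (d - c) * s ^ 2 := by
      have e1 : ∀ y, (|f y| - s) ^ 2 = f y ^ 2 - 2 * s * |f y| + s ^ 2 := by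
        intro y
        rw [sub_sq, sq_abs]; ring
      simp only [e1]
      rw [intervalIntegral.integral_add, intervalIntegral.integral_sub, intervalIntegral.integral_const_mul,
        intervalIntegral.integral_const, smul_eq_mul]
      · exact (hf.pow 2).intervalIntegrable _ _
      · exact (continuous_const.mul hf.abs).intervalIntegrable _ _
      · exact ((hf.pow 2).sub (continuous_const.mul hf.abs)).intervalIntegrable _ _
      · exact continuous_const.intervalIntegrable _ _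
    rw [h3] at h2
    have e2 : (d - c) * s ^ 2 = s * I := by rw [hs]; field_simp
    rw [e2] at h2
    have e3 : s * I = I ^ 2 / (d - c) := by rw [hs]; ring
    have h4 : I ^ 2 / (d - c) ≤ ∫ y in c..d, f y ^ 2 := by rw [← e3]; linarith
    rw [div_le_iff₀ h1] at h4
    linarith

lemma exp_I_lip (x y : ℝ) : ‖Complex.exp (Complex.I * (x:ℂ)) - Complex.exp (Complex.I * (y:ℂ))‖ ≤ |x - y| := exp_lip x y

/-- **the central limit theorem for a fixed observable** -/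
theorem clt_fix (h : Sq a b δ) (hc : 0 < c) (hcd : c ≤ d) (hG : Ob A W v G) (hw : Am c d Λ Λ1 w w') (t : ℝ) :
    Tendsto (fun N : ℕ => ∫ y in c..d, w y * EE a b G t N (Finset.range N) y) atTop
      (𝓝 ((∫ y in c..d, w y) * (exp (-(t ^ 2 * v / 2)) : ℝ))) := by
  have hA := hG.hA
  have hW := hG.hW
  have hv := hG.hv
  have hcm : c ∈ Icc c d := ⟨le_rfl, hcd⟩
  have hΛ0 : 0 ≤ Λ := (norm_nonneg _).trans (hw.bd c hcm)
  have hΛ10 : 0 ≤ Λ1 := (norm_nonneg _).trans (hw.bd' c hcm)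
  have hb0 := h.pos 0
  have hd := h.dpos
  have hdc : 0 ≤ d - c := by linarith
  have hpi := Real.pi_pos
  have hCo := Co_pos hcd h.dpos
  have hK2 : 0 ≤ K2 b c d δ A W Λ Λ1 t := by unfold K2 K1; positivity
  obtain ⟨C3, hC3, hrem⟩ := rem_small h hc hcd hG
  have hs : 0 < δ * c / 4 := by positivity
  set u := t ^ 2 * v with hu
  have hu0 : 0 ≤ u := by positivity
  set Er : ℕ → ℝ := fun g => (Λ * (|t| * A) ^ 3 * (d - c) / g + (|t| + t ^ 2) * K2 b c d δ A W Λ Λ1 t * (((g : ℝ) + 1) ^ 16 * exp (-(δ * c / 4) * g))) +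
    ((u ^ 2 + 2 * u) / g) * (Λ * (d - c)) + Λ * |t| * √(d - c) * √(C3 / g) with hEr
  have hErt : Tendsto Er atTop (𝓝 0) := by
    have h1 := tend_inv (Λ * (|t| * A) ^ 3 * (d - c))
    have h2 := tend_exp ((|t| + t ^ 2) * K2 b c d δ A W Λ Λ1 t) hs
    have h3 := (tend_inv (u ^ 2 + 2 * u)).mul_const (Λ * (d - c))
    have h4 := ((Real.continuous_sqrt.tendsto 0).comp (tend_inv C3)).const_mul (Λ * |t| * √(d - c))
    have h5 := ((h1.add h2).add h3).add h4
    simp only [Real.sqrt_zero, mul_zero, zero_mul, add_zero] at h5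
    exact h5
  rw [tendsto_iff_norm_sub_tendsto_zero]
  have hgt := gf_tendsto
  obtain ⟨g1, hg1⟩ := exists_nat_ge u
  obtain ⟨g2, hg2⟩ := exists_nat_ge (|t| * A)
  refine squeeze_zero' (Eventually.of_forall fun _ => norm_nonneg _) ?_ (hErt.comp hgt)
  filter_upwards [hgt.eventually_ge_atTop (max 1 (max g1 g2))] with N hN
  have hg : 1 ≤ gf N := (le_max_left _ _).trans hN
  have hgu : u ≤ gf N := hg1.trans (by exact_mod_cast (le_max_left g1 g2).trans ((le_max_right _ _).trans hN))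
  have hgA : |t| * A ≤ gf N := hg2.trans (by exact_mod_cast (le_max_right g1 g2).trans ((le_max_right _ _).trans hN))
  have hp := Par.of hg
  have hN0 : (0:ℝ) < N := by exact_mod_cast hp.hN
  have hs0 : 0 < √(N:ℝ) := Real.sqrt_pos.mpr hN0
  have hg0 : (0:ℝ) < gf N := by exact_mod_cast hp.hg
  have hgr1 : (1:ℝ) ≤ gf N := by exact_mod_cast hp.hg
  have hL1 : (1:ℝ) ≤ Lf N := hgr1.trans hp.gL
  have hwc : Continuous w := continuous_iff_continuousAt.mpr fun y => (hw.der y).continuousAt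
  -- the size of one block
  have hx1 : |t| * A * Lf N / √N ≤ 1 := by
    rw [div_le_one hs0]
    calc |t| * A * Lf N ≤ Lf N * Lf N := mul_le_mul_of_nonneg_right (hgA.trans hp.gL) (by linarith)
      _ = (Lf N : ℝ) ^ 2 := by ring
      _ ≤ (Lf N : ℝ) ^ 4 := pow_le_pow_right₀ hL1 (by norm_num)
      _ ≤ _ := hp.L4
  set z : ℕ → ℂ := fun j => ∫ y in c..d, w y * EE a b G t N (Pl N j) y with hz
  set ρ : ℝ := 1 - t ^ 2 * v * (Lf N - gf N : ℕ) / (2 * N) with hρ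
  obtain ⟨hρ1, hρ2⟩ := err2 hp hv (t := t) hgu
  have hit := iter (z := z) (ρ := ρ) hρ1 (J := Jf N) (fun j hj1 hjJ => step h hc hcd hG hw t hp.hN hg hj1 hjJ hx1)
    (Jf N - 1) (by have := hp.hJ; omega)
  have hJ1 : Jf N - 1 + 1 = Jf N := by have := hp.hJ; omega
  rw [hJ1] at hit
  have hit' := hit.trans (err1 hp hΛ0 (by linarith : 0 ≤ A) hdc hK2)
  have hz1 : z 1 = ∫ y in c..d, w y := by
    simp only [hz]
    apply intervalIntegral.integral_congr
    intro y _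
    simp only [Pl, Finset.Ico_self, Finset.biUnion_empty, EE, Finset.sum_empty, mul_zero, Complex.exp_zero, mul_one]
  have hz1n : ‖z 1‖ ≤ Λ * (d - c) := by
    rw [hz1]
    have h10 := intervalIntegral.norm_integral_le_of_norm_le_const (a := c) (b := d) (f := w) (C := Λ) (fun y hy => by
      rw [uIoc_of_le hcd] at hy
      exact hw.bd y ⟨hy.1.le, hy.2⟩)
    rwa [abs_of_nonneg hdc] at h10
  -- second error
  have e2 : ‖(ρ : ℂ) ^ (Jf N - 1) * z 1 - (∫ y in c..d, w y) * (exp (-(t ^ 2 * v / 2)) : ℝ)‖ ≤ ((u ^ 2 + 2 * u) / gf N) * (Λ * (d - c)) := by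
    rw [← hz1]
    have : (ρ : ℂ) ^ (Jf N - 1) * z 1 - z 1 * ((exp (-(t ^ 2 * v / 2)) : ℝ) : ℂ) =
        ((ρ ^ (Jf N - 1) - exp (-(t ^ 2 * v / 2)) : ℝ) : ℂ) * z 1 := by push_cast; ring
    rw [this, norm_mul, Complex.norm_real, Real.norm_eq_abs]
    exact mul_le_mul hρ2 hz1n (norm_nonneg _) (by positivity)
  -- third error
  have e3 : ‖(∫ y in c..d, w y * EE a b G t N (Finset.range N) y) - z (Jf N)‖ ≤ Λ * |t| * √(d - c) * √(C3 / gf N) := by
    simp only [hz]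
    have hii : ∀ P : Finset ℕ, IntervalIntegrable (fun y => w y * EE a b G t N P y) volume c d := fun P =>
      (hwc.mul (EE_cont t N P hG)).intervalIntegrable _ _
    rw [← intervalIntegral.integral_sub (hii _) (hii _)]
    set r : ℝ → ℝ := fun y => ∑ n ∈ Finset.range N \ Pl N (Jf N), G (pt a b n y) with hr
    have hrc : Continuous r := continuous_finsetSum _ fun n _ => hG.contG.comp (pt_cont a b n)
    have hpt : ∀ y ∈ Icc c d, ‖w y * EE a b G t N (Finset.range N) y - w y * EE a b G t N (Pl N (Jf N)) y‖ ≤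
        Λ * (|t| / √N * |r y|) := by
      intro y hy
      rw [← mul_sub, norm_mul]
      apply mul_le_mul (hw.bd y hy) _ (norm_nonneg _) hΛ0
      unfold EE
      have hsub : Pl N (Jf N) ⊆ Finset.range N := by
        intro n hn
        rw [Finset.mem_range]
        exact Pl_lt le_rfl hn
      have f1 : ∀ P : Finset ℕ, Complex.I * ((t / √N : ℝ) : ℂ) * ∑ n ∈ P, ((G (pt a b n y) : ℝ) : ℂ) =
          Complex.I * ((t / √N * ∑ n ∈ P, G (pt a b n y) : ℝ) : ℂ) := by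
        intro P; push_cast; ring
      rw [f1, f1]
      refine (exp_I_lip _ _).trans ?_
      rw [← mul_sub, abs_mul, abs_div, abs_of_pos hs0]
      apply mul_le_mul_of_nonneg_left _ (by positivity)
      rw [← Finset.sum_sdiff hsub, add_sub_cancel_right]
    calc ‖∫ y in c..d, (w y * EE a b G t N (Finset.range N) y - w y * EE a b G t N (Pl N (Jf N)) y)‖
        ≤ ∫ y in c..d, Λ * (|t| / √N * |r y|) := by
          apply intervalIntegral.norm_integral_le_of_norm_le hcd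
          · exact Eventually.of_forall fun y hy => hpt y ⟨hy.1.le, hy.2⟩
          · exact (continuous_const.mul (continuous_const.mul hrc.abs)).intervalIntegrable _ _
      _ = Λ * (|t| / √N) * ∫ y in c..d, |r y| := by
          rw [intervalIntegral.integral_const_mul, intervalIntegral.integral_const_mul]; ring
      _ ≤ Λ * (|t| / √N) * (√(d - c) * √(∫ y in c..d, r y ^ 2)) :=
          mul_le_mul_of_nonneg_left (cs_int hcd hrc) (by positivity)
      _ ≤ Λ * (|t| / √N) * (√(d - c) * √(C3 / gf N * N)) := by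
          apply mul_le_mul_of_nonneg_left _ (by positivity)
          apply mul_le_mul_of_nonneg_left _ (Real.sqrt_nonneg _)
          apply Real.sqrt_le_sqrt
          refine le_trans (le_of_eq ?_) (hrem N hg)
          apply intervalIntegral.integral_congr
          intro y _
          simp only [hr]
          rw [← Complex.ofReal_sum, Complex.norm_real, Real.norm_eq_abs, sq_abs]
      _ = _ := by
          rw [Real.sqrt_mul (by positivity)]
          field_simp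
  calc ‖(∫ y in c..d, w y * EE a b G t N (Finset.range N) y) - (∫ y in c..d, w y) * (exp (-(t ^ 2 * v / 2)) : ℝ)‖
      = ‖(z (Jf N) - (ρ : ℂ) ^ (Jf N - 1) * z 1) + ((ρ : ℂ) ^ (Jf N - 1) * z 1 - (∫ y in c..d, w y) * (exp (-(t ^ 2 * v / 2)) : ℝ)) +
          ((∫ y in c..d, w y * EE a b G t N (Finset.range N) y) - z (Jf N))‖ := by congr 1; ring
    _ ≤ ‖z (Jf N) - (ρ : ℂ) ^ (Jf N - 1) * z 1‖ + ‖(ρ : ℂ) ^ (Jf N - 1) * z 1 - (∫ y in c..d, w y) * (exp (-(t ^ 2 * v / 2)) : ℝ)‖ +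
          ‖(∫ y in c..d, w y * EE a b G t N (Finset.range N) y) - z (Jf N)‖ := norm_add₃_le
    _ ≤ Er (gf N) := add_le_add (add_le_add hit' e2) e3

end Run7.h113.CL
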