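import Mathlib
import Pool.Agent.Run7.h113.CL.Fix
import Pool.Agent.R306.GP.AEd

/-!
Comparison of the polynomials in the model polynomials of different degrees.
-/

set_option autoImplicit false

open MeasureTheory Filter Topology Set Real
open scoped ENNReal
open Pool.Agent.H469R2.NK (e norm_e e_add conj_e e_zero)
open Pool.Agent.H383.Gen (U Bd)
open Pool.Agent.Y969.TM
open Pool.Agent.R306.GP

namespace Run7.h113.CL

variable {E : ℝ → ℝ} {af : ℕ → ℝ} {φ : ℝ} {a b : ℕ → ℝ} {δ c d : ℝ}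

lemma pow_diff_abs (x y : ℝ) (k : ℕ) : |x ^ k - y ^ k| ≤ k * |x - y| * (max |x| |y|) ^ (k - 1) := by
  set M := max |x| |y| with hM
  have hM0 : 0 ≤ M := (abs_nonneg x).trans (le_max_left _ _)
  induction k with
  | zero => simp
  | succ k ih =>
    rcases Nat.eq_zero_or_pos k with hk | hk
    · subst hk; simp
    have e1 : x ^ (k + 1) - y ^ (k + 1) = x * (x ^ k - y ^ k) + (x - y) * y ^ k := by ring
    rw [e1]
    refine (abs_add_le _ _).trans ?_
    rw [abs_mul, abs_mul, abs_pow]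
    have h1 : |x| * |x ^ k - y ^ k| ≤ M * (k * |x - y| * M ^ (k - 1)) :=
      mul_le_mul (le_max_left _ _) ih (abs_nonneg _) hM0
    have h2 : |x - y| * |y| ^ k ≤ |x - y| * M ^ k :=
      mul_le_mul_of_nonneg_left (pow_le_pow_left₀ (abs_nonneg _) (le_max_right _ _) k) (abs_nonneg _)
    have e2 : M * M ^ (k - 1) = M ^ k := by rw [← pow_succ']; congr 1; omega
    calc _ ≤ M * (k * |x - y| * M ^ (k - 1)) + |x - y| * M ^ k := add_le_add h1 h2
      _ = k * |x - y| * (M * M ^ (k - 1)) + |x - y| * M ^ k := by ring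
      _ = _ := by rw [e2, Nat.add_sub_cancel]; push_cast; ring

/-- the weight -/
noncomputable def Qw (D : ℕ) (x y : ℝ) : ℝ := 1 + x ^ (2 * D) + y ^ (2 * D)

lemma Qw_one (D : ℕ) (x y : ℝ) : 1 ≤ Qw D x y := by
  unfold Qw
  have := Even.pow_nonneg (even_two_mul D) x
  have := Even.pow_nonneg (even_two_mul D) y
  linarith

lemma poly_diff (f : Polynomial ℝ) : ∃ C : ℝ, 0 ≤ C ∧ ∀ x y : ℝ, |f.eval x - f.eval y| ≤ C * |x - y| * Qw f.natDegree x y := by
  set D := f.natDegree with hD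
  refine ⟨∑ k ∈ Finset.range (D + 1), |f.coeff k| * k, Finset.sum_nonneg fun _ _ => by positivity, fun x y => ?_⟩
  rw [Polynomial.eval_eq_sum_range, Polynomial.eval_eq_sum_range, ← Finset.sum_sub_distrib]
  refine (Finset.abs_sum_le_sum_abs _ _).trans ?_
  rw [Finset.sum_mul, Finset.sum_mul]
  apply Finset.sum_le_sum
  intro k hk
  have hkD : k ≤ D := by rw [Finset.mem_range] at hk; omega
  rw [← mul_sub, abs_mul]
  have h1 := pow_diff_abs x y k
  set M := max |x| |y| with hM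
  have hM0 : 0 ≤ M := (abs_nonneg x).trans (le_max_left _ _)
  have h2 : M ^ (k - 1) ≤ Qw D x y := by
    have h3 : M ^ (2 * D) ≤ x ^ (2 * D) + y ^ (2 * D) := by
      have hx := Even.pow_nonneg (even_two_mul D) x
      have hy := Even.pow_nonneg (even_two_mul D) y
      rcases max_choice |x| |y| with h4 | h4
      · rw [hM, h4, pow_mul, sq_abs, ← pow_mul]; linarith
      · rw [hM, h4, pow_mul, sq_abs, ← pow_mul]; linarith
    unfold Qw
    rcases le_total M 1 with h4 | h4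
    · have h5 : M ^ (k - 1) ≤ 1 := pow_le_one₀ hM0 h4
      have hx := Even.pow_nonneg (even_two_mul D) x
      have hy := Even.pow_nonneg (even_two_mul D) y
      linarith
    · have h5 : M ^ (k - 1) ≤ M ^ (2 * D) := pow_le_pow_right₀ h4 (by omega)
      linarith
  calc |f.coeff k| * |x ^ k - y ^ k| ≤ |f.coeff k| * (k * |x - y| * M ^ (k - 1)) := mul_le_mul_of_nonneg_left h1 (abs_nonneg _)
    _ ≤ |f.coeff k| * (k * |x - y| * Qw D x y) := by
        apply mul_le_mul_of_nonneg_left _ (abs_nonneg _)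
        exact mul_le_mul_of_nonneg_left h2 (by positivity)
    _ = _ := by ring

lemma Qw_four (D : ℕ) (x y : ℝ) : Qw D x y ^ 4 ≤ 27 * (1 + x ^ (2 * (4 * D)) + y ^ (2 * (4 * D))) := by
  unfold Qw
  have hx := Even.pow_nonneg (even_two_mul D) x
  have hy := Even.pow_nonneg (even_two_mul D) y
  have e1 : x ^ (2 * (4 * D)) = (x ^ (2 * D)) ^ 4 := by rw [← pow_mul]; congr 1; ring
  have e2 : y ^ (2 * (4 * D)) = (y ^ (2 * D)) ^ 4 := by rw [← pow_mul]; congr 1; ring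
  rw [e1, e2]
  set p := x ^ (2 * D)
  set q := y ^ (2 * D)
  have h1 : (1 + p + q) ^ 2 ≤ 3 * (1 + p ^ 2 + q ^ 2) := by nlinarith [sq_nonneg (1 - p), sq_nonneg (1 - q), sq_nonneg (p - q)]
  have h2 : (1 + p ^ 2 + q ^ 2) ^ 2 ≤ 3 * (1 + p ^ 4 + q ^ 4) := by
    nlinarith [sq_nonneg (1 - p ^ 2), sq_nonneg (1 - q ^ 2), sq_nonneg (p ^ 2 - q ^ 2)]
  calc (1 + p + q) ^ 4 = ((1 + p + q) ^ 2) ^ 2 := by ring
    _ ≤ (3 * (1 + p ^ 2 + q ^ 2)) ^ 2 := pow_le_pow_left₀ (by positivity) h1 2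
    _ = 9 * (1 + p ^ 2 + q ^ 2) ^ 2 := by ring
    _ ≤ _ := by linarith

lemma Udiff_cont (f : Polynomial ℝ) (af : ℕ → ℝ) (φ : ℝ) (a b : ℕ → ℝ) (n M : ℕ) :
    Continuous fun y => f.eval (U af φ (pt a b n y) M) := f.continuous.comp (Upt_cont af φ a b n M)

/-- comparison of the degrees in mean square -/
theorem cmp_sq (hX : Ctx E af φ) (h : Sq a b δ) (hc : 0 < c) (hcd : c ≤ d) {p : ℕ} (hp1 : 1 ≤ p) (f : Polynomial ℝ) :
    ∃ C : ℝ, 0 < C ∧ ∃ n0 : ℕ, ∀ n : ℕ, n0 ≤ n → ∀ K : ℕ, 1 ≤ K → K ≤ n + 1 →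
      ∫ y in c..d, (f.eval (U af φ (pt a b n y) ((n + 1) ^ p)) - f.eval (U af φ (pt a b n y) K)) ^ 2 ≤
        C * (K:ℝ) ^ (-(1/800):ℝ) := by
  obtain ⟨Cf, hCf, hf⟩ := poly_diff f
  set D := f.natDegree with hD
  obtain ⟨C1, hC1, n1, h1⟩ := diff_pow hX h hc hcd hp1 2 (by norm_num)
  obtain ⟨C2, hC2, n2, h2⟩ := mom_bd (φ := φ) hX.bd h hc hcd p (4 * D)
  have hdc : 0 ≤ d - c := by linarith
  refine ⟨Cf ^ 2 * (C1 + 27 * ((d - c) + 2 * C2)) + 1, by positivity, max n1 n2, ?_⟩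
  intro n hn K hK hKn
  have hn1 : n1 ≤ n := (le_max_left _ _).trans hn
  have hn2 : n2 ≤ n := (le_max_right _ _).trans hn
  have hK0 : (0:ℝ) < K := by exact_mod_cast hK
  have hKp : K ≤ (n + 1) ^ p := hKn.trans (Nat.le_self_pow (by omega) _)
  set X : ℝ → ℝ := fun y => U af φ (pt a b n y) ((n + 1) ^ p) with hXd
  set Y : ℝ → ℝ := fun y => U af φ (pt a b n y) K with hYd
  have hXc : Continuous X := Upt_cont af φ a b n _
  have hYc : Continuous Y := Upt_cont af φ a b n _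
  have d1 : ∫ y in c..d, (X y - Y y) ^ 4 ≤ C1 * (K:ℝ) ^ (-(1/400):ℝ) := h1 n hn1 K hK hKn
  have m1 : ∫ y in c..d, X y ^ (2 * (4 * D)) ≤ C2 := h2 n hn2 _ le_rfl
  have m2 : ∫ y in c..d, Y y ^ (2 * (4 * D)) ≤ C2 := h2 n hn2 K hKp
  set lam : ℝ := (K:ℝ) ^ (1/800:ℝ) with hlam
  have hlam0 : 0 < lam := by positivity
  have hli : lam⁻¹ = (K:ℝ) ^ (-(1/800):ℝ) := by rw [hlam, ← Real.rpow_neg hK0.le]
  have hll : lam * (K:ℝ) ^ (-(1/400):ℝ) = (K:ℝ) ^ (-(1/800):ℝ) := by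
    rw [hlam, ← Real.rpow_add hK0]; norm_num
  have hpw : ∀ y, (f.eval (X y) - f.eval (Y y)) ^ 2 ≤
      Cf ^ 2 * (lam * (X y - Y y) ^ 4 + lam⁻¹ * (27 * (1 + X y ^ (2 * (4 * D)) + Y y ^ (2 * (4 * D))))) := by
    intro y
    have h5 := hf (X y) (Y y)
    have hq := Qw_four D (X y) (Y y)
    have hq1 := Qw_one D (X y) (Y y)
    set Z := X y - Y y with hZ
    set Q := Qw D (X y) (Y y) with hQ
    have h6 : Z ^ 2 * Q ^ 2 ≤ lam * Z ^ 4 + lam⁻¹ * Q ^ 4 := by
      have e1 : lam * Z ^ 4 + lam⁻¹ * Q ^ 4 - 2 * (Z ^ 2 * Q ^ 2) = lam⁻¹ * (lam * Z ^ 2 - Q ^ 2) ^ 2 := by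
        field_simp
        ring
      have e2 : 0 ≤ lam⁻¹ * (lam * Z ^ 2 - Q ^ 2) ^ 2 := by positivity
      have e3 : 0 ≤ Z ^ 2 * Q ^ 2 := by positivity
      linarith
    calc (f.eval (X y) - f.eval (Y y)) ^ 2 = |f.eval (X y) - f.eval (Y y)| ^ 2 := (sq_abs _).symm
      _ ≤ (Cf * |Z| * Q) ^ 2 := pow_le_pow_left₀ (abs_nonneg _) h5 2
      _ = Cf ^ 2 * (Z ^ 2 * Q ^ 2) := by rw [mul_pow, mul_pow, sq_abs]; ring
      _ ≤ Cf ^ 2 * (lam * Z ^ 4 + lam⁻¹ * Q ^ 4) := mul_le_mul_of_nonneg_left h6 (by positivity)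
      _ ≤ _ := by
          apply mul_le_mul_of_nonneg_left _ (by positivity)
          have := mul_le_mul_of_nonneg_left hq (inv_nonneg.mpr hlam0.le)
          linarith
  have i1 : IntervalIntegrable (fun y => X y ^ (2 * (4 * D))) volume c d := (hXc.pow _).intervalIntegrable _ _
  have i2 : IntervalIntegrable (fun y => Y y ^ (2 * (4 * D))) volume c d := (hYc.pow _).intervalIntegrable _ _
  have i3 : IntervalIntegrable (fun y => (X y - Y y) ^ 4) volume c d := ((hXc.sub hYc).pow _).intervalIntegrable _ _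
  calc ∫ y in c..d, (f.eval (X y) - f.eval (Y y)) ^ 2
      ≤ ∫ y in c..d, Cf ^ 2 * (lam * (X y - Y y) ^ 4 + lam⁻¹ * (27 * (1 + X y ^ (2 * (4 * D)) + Y y ^ (2 * (4 * D))))) := by
        apply intervalIntegral.integral_mono_on hcd
        · exact (((f.continuous.comp hXc).sub (f.continuous.comp hYc)).pow _).intervalIntegrable _ _
        · refine Continuous.intervalIntegrable ?_ _ _
          exact continuous_const.mul ((continuous_const.mul ((hXc.sub hYc).pow _)).add (continuous_const.mul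
            (continuous_const.mul ((continuous_const.add (hXc.pow _)).add (hYc.pow _)))))
        · intro y _
          exact hpw y
    _ = Cf ^ 2 * (lam * (∫ y in c..d, (X y - Y y) ^ 4) + lam⁻¹ * (27 * ((d - c) + (∫ y in c..d, X y ^ (2 * (4 * D))) +
          ∫ y in c..d, Y y ^ (2 * (4 * D))))) := by
        rw [intervalIntegral.integral_const_mul, intervalIntegral.integral_add, intervalIntegral.integral_const_mul,
          intervalIntegral.integral_const_mul, intervalIntegral.integral_const_mul, intervalIntegral.integral_add,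
          intervalIntegral.integral_add, intervalIntegral.integral_const, smul_eq_mul, mul_one]
        · exact continuous_const.intervalIntegrable _ _
        · exact i1
        · exact (continuous_const.intervalIntegrable _ _).add i1
        · exact i2
        · exact i3.const_mul _
        · refine Continuous.intervalIntegrable ?_ _ _
          exact continuous_const.mul (continuous_const.mul ((continuous_const.add (hXc.pow _)).add (hYc.pow _)))
    _ ≤ Cf ^ 2 * (lam * (C1 * (K:ℝ) ^ (-(1/400):ℝ)) + lam⁻¹ * (27 * ((d - c) + C2 + C2))) := by gcongr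
    _ = Cf ^ 2 * (C1 + 27 * ((d - c) + 2 * C2)) * (K:ℝ) ^ (-(1/800):ℝ) := by
        rw [hli, show lam * (C1 * (K:ℝ) ^ (-(1/400):ℝ)) = C1 * (lam * (K:ℝ) ^ (-(1/400):ℝ)) by ring, hll]
        ring
    _ ≤ _ := by
        apply mul_le_mul_of_nonneg_right _ (by positivity)
        linarith

/-- the means of trigonometric polynomials of moderate size are small -/
lemma mean_osc (h : Sq a b δ) (hc : 0 < c) (hcd : c ≤ d) {C : ℝ} (hC : 1 ≤ C) (q : ℕ) : ∃ n0 : ℕ, ∀ n : ℕ, n0 ≤ n →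
    ∀ H : ℝ → ℂ, IsTP (C * ((n:ℝ) + 1) ^ q) (C * ((n:ℝ) + 1) ^ q) H → ‖∫ y in c..d, H (pt a b n y)‖ ≤ 1 / ((n:ℝ) + 1) := by
  have hs : 0 < δ * c / 4 := by have := h.dpos; positivity
  have hCo := Co_pos hcd h.dpos
  have hb0 := h.pos 0
  obtain ⟨n0, hn0⟩ := ev_poly (β := 1) one_pos hs (C * (Co c d δ * (2 * C + 1 / b 0))) (2 * q + 1)
  refine ⟨n0, fun n hn H hH => ?_⟩
  have hn1 : (1:ℝ) ≤ (n:ℝ) + 1 := by linarith [(Nat.cast_nonneg n : (0:ℝ) ≤ n)]
  set X := C * ((n:ℝ) + 1) ^ q with hX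
  have hX1 : 1 ≤ X := by
    have : (1:ℝ) ≤ ((n:ℝ) + 1) ^ q := one_le_pow₀ hn1
    rw [hX]; nlinarith
  set η := exp (-(δ * c / 4) * n) with hη
  have hsm : 0 ≤ δ * c / 4 * n := by positivity
  have hη1 : η ≤ 1 := by rw [hη, Real.exp_le_one_iff]; linarith
  have hη0 : 0 < η := Real.exp_pos _
  have h1 := osc_tp h hc hcd (F := fun _ => 1) (F' := fun _ => 0) (fun y _ => hasDerivAt_const y 1) continuousOn_const
    (Λ := 1) (κ := 0) (η := η) le_rfl (fun y _ => by simp) (m := n) (fun y _ => by simp) hη0 hη1 (by linarith) hH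
  simp only [one_mul] at h1
  refine h1.trans ?_
  have k1 : b 0 * exp (δ * c * n) ≤ pt a b n c := pt_low h hc.le n
  have k2 : 1 / (η ^ 2 * pt a b n c) ≤ η / b 0 := by
    rw [div_le_div_iff₀ (mul_pos (pow_pos hη0 2) (pt_pos h n c)) hb0, one_mul]
    have e1 : exp (δ * c * n) * η ^ 3 = exp (δ * c / 4 * n) := by
      rw [hη, ← Real.exp_nat_mul, ← Real.exp_add]
      congr 1
      push_cast
      ring
    have e2 : 1 ≤ exp (δ * c / 4 * n) := Real.one_le_exp hsm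
    calc b 0 ≤ b 0 * exp (δ * c / 4 * n) := le_mul_of_one_le_right hb0.le e2
      _ = η ^ 3 * (b 0 * exp (δ * c * n)) := by rw [← e1]; ring
      _ ≤ η ^ 3 * pt a b n c := mul_le_mul_of_nonneg_left k1 (by positivity)
      _ = _ := by ring
  have k3 : η * (X + 1) + 0 / η ^ 2 + 1 / (η ^ 2 * pt a b n c) ≤ (2 * C + 1 / b 0) * ((n:ℝ) + 1) ^ q * η := by
    rw [zero_div, add_zero]
    have k4 : η * (X + 1) ≤ 2 * C * ((n:ℝ) + 1) ^ q * η := by
      have : 2 * C * ((n:ℝ) + 1) ^ q * η = η * (2 * X) := by rw [hX]; ring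
      rw [this]
      apply mul_le_mul_of_nonneg_left _ hη0.le
      linarith
    have k5 : η / b 0 ≤ 1 / b 0 * ((n:ℝ) + 1) ^ q * η := by
      have : (1:ℝ) ≤ ((n:ℝ) + 1) ^ q := one_le_pow₀ hn1
      calc η / b 0 = 1 / b 0 * 1 * η := by ring
        _ ≤ _ := by gcongr
    calc _ ≤ 2 * C * ((n:ℝ) + 1) ^ q * η + 1 / b 0 * ((n:ℝ) + 1) ^ q * η := add_le_add k4 (k2.trans k5)
      _ = _ := by ring
  have k6 := hn0 n hn
  rw [one_mul] at k6
  rw [le_div_iff₀ (by linarith)]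
  have e1 : exp (δ * c / 4 * n) * η = 1 := by rw [hη, ← Real.exp_add]; simp
  calc X * (Co c d δ * (η * (X + 1) + 0 / η ^ 2 + 1 / (η ^ 2 * pt a b n c))) * ((n:ℝ) + 1)
      ≤ X * (Co c d δ * ((2 * C + 1 / b 0) * ((n:ℝ) + 1) ^ q * η)) * ((n:ℝ) + 1) := by
        apply mul_le_mul_of_nonneg_right _ (by linarith)
        apply mul_le_mul_of_nonneg_left _ (by linarith)
        exact mul_le_mul_of_nonneg_left k3 hCo.le
    _ = (C * (Co c d δ * (2 * C + 1 / b 0)) * ((n:ℝ) + 1) ^ (2 * q + 1)) * η := by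
        rw [hX]
        ring
    _ ≤ exp (δ * c / 4 * n) * η := mul_le_mul_of_nonneg_right k6 hη0.le
    _ = 1 := e1

/-- comparison of the means -/
theorem mn_cmp (hX : Ctx E af φ) (h : Sq a b δ) (hc : 0 < c) (hcd : c < d) {p : ℕ} (hp1 : 1 ≤ p) (f : Polynomial ℝ) :
    ∃ C : ℝ, 0 < C ∧ ∃ n0 : ℕ, ∀ n : ℕ, n0 ≤ n → ∀ K : ℕ, 1 ≤ K → K ≤ n + 1 →
      |mn af φ f ((n + 1) ^ p) - mn af φ f K| ≤ C * (K:ℝ) ^ (-(1/1600):ℝ) := by
  obtain ⟨C1, hC1, n1, h1⟩ := cmp_sq hX h hc hcd.le hp1 f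
  obtain ⟨C2, q, hC2, hq, h2⟩ := tp_poly hX.bd φ f
  obtain ⟨n2, h3⟩ := mean_osc h hc hcd.le hC2 (p * q)
  have hdc : 0 < d - c := by linarith
  refine ⟨(2 + √(d - c) * √C1) / (d - c), by positivity, max n1 n2, ?_⟩
  intro n hn K hK hKn
  have hn1 : n1 ≤ n := (le_max_left _ _).trans hn
  have hn2 : n2 ≤ n := (le_max_right _ _).trans hn
  have hK0 : (0:ℝ) < K := by exact_mod_cast hK
  have hK1 : (1:ℝ) ≤ K := by exact_mod_cast hK
  have hKn' : (K:ℝ) ≤ (n:ℝ) + 1 := by exact_mod_cast hKn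
  have hnn : (1:ℝ) ≤ (n:ℝ) + 1 := hK1.trans hKn'
  have t1 := h3 n hn2 _ ((h2 ((n + 1) ^ p) (Nat.one_le_pow _ _ (by omega))).mono
    (le_of_eq (by push_cast; rw [← pow_mul])) (le_of_eq (by push_cast; rw [← pow_mul])))
  have hKq : C2 * (K:ℝ) ^ q ≤ C2 * ((n:ℝ) + 1) ^ (p * q) := by
    apply mul_le_mul_of_nonneg_left _ (by linarith)
    calc (K:ℝ) ^ q ≤ ((n:ℝ) + 1) ^ q := pow_le_pow_left₀ hK0.le hKn' q
      _ ≤ _ := pow_le_pow_right₀ hnn (Nat.le_mul_of_pos_left q (by omega))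
  have t2 := h3 n hn2 _ ((h2 K hK).mono hKq hKq)
  rw [intervalIntegral.integral_ofReal, Complex.norm_real, Real.norm_eq_abs] at t1 t2
  have hXc : Continuous fun y => f.eval (U af φ (pt a b n y) ((n + 1) ^ p)) := Udiff_cont f af φ a b n _
  have hYc : Continuous fun y => f.eval (U af φ (pt a b n y) K) := Udiff_cont f af φ a b n _
  rw [intervalIntegral.integral_sub (hXc.intervalIntegrable _ _) (continuous_const.intervalIntegrable _ _),
    intervalIntegral.integral_const, smul_eq_mul] at t1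
  rw [intervalIntegral.integral_sub (hYc.intervalIntegrable _ _) (continuous_const.intervalIntegrable _ _),
    intervalIntegral.integral_const, smul_eq_mul] at t2
  have t3 := cs_int hcd.le (hXc.sub hYc)
  have t4 := h1 n hn1 K hK hKn
  have t5 : |(∫ y in c..d, f.eval (U af φ (pt a b n y) ((n + 1) ^ p))) - ∫ y in c..d, f.eval (U af φ (pt a b n y) K)| ≤
      √(d - c) * √(C1 * (K:ℝ) ^ (-(1/800):ℝ)) := by
    rw [← intervalIntegral.integral_sub (hXc.intervalIntegrable _ _) (hYc.intervalIntegrable _ _)]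
    refine (intervalIntegral.abs_integral_le_integral_abs hcd.le).trans (t3.trans ?_)
    exact mul_le_mul_of_nonneg_left (Real.sqrt_le_sqrt t4) (Real.sqrt_nonneg _)
  have t6 : √(C1 * (K:ℝ) ^ (-(1/800):ℝ)) = √C1 * (K:ℝ) ^ (-(1/1600):ℝ) := by
    rw [Real.sqrt_mul hC1.le]
    congr 1
    rw [Real.sqrt_eq_rpow, ← Real.rpow_mul hK0.le]
    norm_num
  rw [t6] at t5
  have t7 : 1 / ((n:ℝ) + 1) ≤ (K:ℝ) ^ (-(1/1600):ℝ) := by
    calc 1 / ((n:ℝ) + 1) ≤ 1 / K := one_div_le_one_div_of_le hK0 hKn'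
      _ = (K:ℝ) ^ (-1:ℝ) := by rw [Real.rpow_neg_one, one_div]
      _ ≤ _ := Real.rpow_le_rpow_of_exponent_le hK1 (by norm_num)
  rw [div_mul_eq_mul_div, le_div_iff₀ hdc]
  set I1 := ∫ y in c..d, f.eval (U af φ (pt a b n y) ((n + 1) ^ p))
  set I2 := ∫ y in c..d, f.eval (U af φ (pt a b n y) K)
  set r := (K:ℝ) ^ (-(1/1600):ℝ)
  have e1 : (mn af φ f ((n + 1) ^ p) - mn af φ f K) * (d - c) =
      -(I1 - (d - c) * mn af φ f ((n + 1) ^ p)) + (I2 - (d - c) * mn af φ f K) + (I1 - I2) := by ring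
  calc |mn af φ f ((n + 1) ^ p) - mn af φ f K| * (d - c) = |(mn af φ f ((n + 1) ^ p) - mn af φ f K) * (d - c)| := by
        rw [abs_mul, abs_of_pos hdc]
    _ ≤ |-(I1 - (d - c) * mn af φ f ((n + 1) ^ p))| + |I2 - (d - c) * mn af φ f K| + |I1 - I2| := by
        rw [e1]; exact abs_add_three _ _ _
    _ ≤ r + r + √(d - c) * (√C1 * r) := by
        rw [abs_neg]
        exact add_le_add (add_le_add (t1.trans t7) (t2.trans t7)) t5
    _ = _ := by ring

end Run7.h113.CL
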