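import Mathlib
import Pool.Agent.Run7.h113.CL.Means

/-!
The limit of the means, and the approximation of the error term.
-/

set_option autoImplicit false

open MeasureTheory Filter Topology Set Real
open scoped ENNReal
open Pool.Agent.H469R2.NK (e norm_e e_add conj_e e_zero)
open Pool.Agent.H383.Gen (U Bd)
open Pool.Agent.Y969.TM
open Pool.Agent.R306.GP

namespace Run7.h113.CL

variable {E : ℝ → ℝ} {af : ℕ → ℝ} {φ : ℝ} {a b : ℕ → ℝ} {δ c d : ℝ}

/-- the means of the polynomials converge to the integrals over the limit law -/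
structure Lw (af : ℕ → ℝ) (φ : ℝ) (μ : ProbabilityMeasure ℝ) : Prop where
  int : ∀ f : Polynomial ℝ, Integrable (fun x => f.eval x) (μ : Measure ℝ)
  lim : ∀ f : Polynomial ℝ, Tendsto (fun K : ℕ => mn af φ f K) atTop (𝓝 (∫ x, f.eval x ∂(μ : Measure ℝ)))

/-- averages of the polynomials in a model polynomial -/
lemma avg_mn {q : ℕ → ℝ} (hm : ∀ (r K : ℕ),
    Tendsto (fun N : ℕ => (∑ n ∈ Finset.range N, ((U af φ (q n) K : ℝ) : ℂ) ^ r) / (N:ℂ)) atTop (𝓝 (ZZ af φ r K)))
    (f : Polynomial ℝ) (K : ℕ) :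
    Tendsto (fun N : ℕ => (∑ n ∈ Finset.range N, f.eval (U af φ (q n) K)) / (N:ℝ)) atTop (𝓝 (mn af φ f K)) := by
  have h1 : Tendsto (fun N : ℕ => ∑ k ∈ Finset.range (f.natDegree + 1), f.coeff k *
      ((∑ n ∈ Finset.range N, ((U af φ (q n) K : ℝ) : ℂ) ^ k) / (N:ℂ)).re) atTop (𝓝 (mn af φ f K)) := by
    unfold mn
    refine tendsto_finsetSum _ fun k _ => ?_
    exact ((Complex.continuous_re.tendsto _).comp (hm k K)).const_mul _
  refine h1.congr fun N => ?_
  have e1 : ∀ k : ℕ, ((∑ n ∈ Finset.range N, ((U af φ (q n) K : ℝ) : ℂ) ^ k) / (N:ℂ)).re =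
      (∑ n ∈ Finset.range N, (U af φ (q n) K) ^ k) / (N:ℝ) := by
    intro k
    have : (∑ n ∈ Finset.range N, ((U af φ (q n) K : ℝ) : ℂ) ^ k) / (N:ℂ) =
        (((∑ n ∈ Finset.range N, (U af φ (q n) K) ^ k) / (N:ℝ) : ℝ) : ℂ) := by push_cast; rfl
    rw [this, Complex.ofReal_re]
  simp only [e1, Polynomial.eval_eq_sum_range]
  rw [Finset.sum_comm, Finset.sum_div]
  apply Finset.sum_congr rfl
  intro k _
  rw [← Finset.mul_sum, mul_div_assoc]

/-- identification of the limits of the means -/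
theorem lw_of {μ : ProbabilityMeasure ℝ} (ha : Bd af) {q : ℕ → ℝ} (hm : ∀ (r K : ℕ),
    Tendsto (fun N : ℕ => (∑ n ∈ Finset.range N, ((U af φ (q n) K : ℝ) : ℂ) ^ r) / (N:ℂ)) atTop (𝓝 (ZZ af φ r K)))
    (h2 : ∀ ε : ℝ, 0 < ε → ∀ᶠ K : ℕ in atTop, ∀ᶠ N : ℕ in atTop,
      ∑ n ∈ Finset.range N, (E (q n) - U af φ (q n) K) ^ 2 ≤ ε * N)
    (hl : ∀ f : Polynomial ℝ, Integrable (fun x => f.eval x) (μ : Measure ℝ) ∧
      Tendsto (fun N : ℕ => (∑ n ∈ Finset.range N, f.eval (E (q n))) / (N:ℝ)) atTop (𝓝 (∫ x, f.eval x ∂(μ : Measure ℝ)))) :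
    Lw af φ μ := by
  refine ⟨fun f => (hl f).1, fun f => ?_⟩
  obtain ⟨Cf, hCf, hf⟩ := poly_diff f
  set D := f.natDegree with hD
  obtain ⟨Kz, hKz, hZ⟩ := ZZ_bound φ ha
  -- averages of the fourth powers of the weights
  set m4 := ∫ x, (Polynomial.X ^ (4 * D) : Polynomial ℝ).eval x ∂(μ : Measure ℝ) with hm4
  have hE4 := (hl (Polynomial.X ^ (4 * D))).2
  set B := 3 * (1 + (|m4| + 1) + (Kz * ((4 * D).factorial : ℝ) + 1)) with hB
  have hB0 : 0 < B := by positivity
  have hw : ∀ K : ℕ, ∀ᶠ N : ℕ in atTop, ∑ n ∈ Finset.range N, (Qw D (E (q n)) (U af φ (q n) K)) ^ 2 ≤ B * N := by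
    intro K
    have h3 := avg_mn hm (Polynomial.X ^ (4 * D)) K
    have h4 : mn af φ (Polynomial.X ^ (4 * D)) K ≤ Kz * ((4 * D).factorial : ℝ) := by
      have e1 : mn af φ (Polynomial.X ^ (4 * D)) K = (ZZ af φ (4 * D) K).re := by
        rw [mn_eq af φ _ K (n := 4 * D + 1) (by rw [Polynomial.natDegree_X_pow]; omega)]
        rw [Finset.sum_eq_single (4 * D)]
        · rw [Polynomial.coeff_X_pow_self, one_mul]
        · intro k _ hk
          rw [Polynomial.coeff_X_pow, if_neg hk, zero_mul]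
        · intro hne
          exact absurd (Finset.mem_range.mpr (by omega)) hne
      rw [e1]
      have := hZ (2 * D) K
      rw [show 2 * (2 * D) = 4 * D by ring] at this
      exact (Complex.re_le_norm _).trans this
    filter_upwards [h3.eventually (gt_mem_nhds (lt_of_le_of_lt h4 (lt_add_one _))),
      hE4.eventually (gt_mem_nhds (lt_of_le_of_lt (le_abs_self m4) (lt_add_one _))), eventually_ge_atTop 1] with N g1 g2 g3
    have hN0 : (0:ℝ) < N := by exact_mod_cast g3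
    rw [div_lt_iff₀ hN0] at g1 g2
    simp only [Polynomial.eval_pow, Polynomial.eval_X] at g1 g2
    have hpt : ∀ n, (Qw D (E (q n)) (U af φ (q n) K)) ^ 2 ≤ 3 * (1 + (E (q n)) ^ (4 * D) + (U af φ (q n) K) ^ (4 * D)) := by
      intro n
      unfold Qw
      have e1 : (E (q n)) ^ (4 * D) = ((E (q n)) ^ (2 * D)) ^ 2 := by rw [← pow_mul]; congr 1; ring
      have e2 : (U af φ (q n) K) ^ (4 * D) = ((U af φ (q n) K) ^ (2 * D)) ^ 2 := by rw [← pow_mul]; congr 1; ring
      rw [e1, e2]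
      set x := (E (q n)) ^ (2 * D)
      set y := (U af φ (q n) K) ^ (2 * D)
      nlinarith [sq_nonneg (1 - x), sq_nonneg (1 - y), sq_nonneg (x - y)]
    calc ∑ n ∈ Finset.range N, (Qw D (E (q n)) (U af φ (q n) K)) ^ 2
        ≤ ∑ n ∈ Finset.range N, 3 * (1 + (E (q n)) ^ (4 * D) + (U af φ (q n) K) ^ (4 * D)) := Finset.sum_le_sum fun n _ => hpt n
      _ = 3 * (N + ∑ n ∈ Finset.range N, (E (q n)) ^ (4 * D) + ∑ n ∈ Finset.range N, (U af φ (q n) K) ^ (4 * D)) := by
          rw [← Finset.mul_sum, Finset.sum_add_distrib, Finset.sum_add_distrib]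
          simp
      _ ≤ 3 * (N + (|m4| + 1) * N + (Kz * ((4 * D).factorial : ℝ) + 1) * N) := by linarith
      _ = _ := by rw [hB]; ring
  rw [Metric.tendsto_nhds]
  intro ε hε
  set lam := 2 * Cf * B / ε + 1 with hlam
  have hlam0 : 0 < lam := by positivity
  have hlB : Cf * (lam⁻¹ * B) ≤ ε / 2 := by
    rw [← mul_assoc, mul_comm Cf, mul_assoc, inv_mul_le_iff₀ hlam0, hlam]
    have : (2 * Cf * B / ε + 1) * (ε / 2) = Cf * B + ε / 2 := by field_simp
    rw [this]; linarith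
  have hη0 : 0 < ε / (4 * (Cf + 1) * lam) := by positivity
  filter_upwards [h2 _ hη0] with K hK
  rw [dist_comm, Real.dist_eq]
  have h5 := ((hl f).2.sub (avg_mn hm f K)).abs
  have h6 : |∫ x, f.eval x ∂(μ : Measure ℝ) - mn af φ f K| ≤ ε * (3 / 4) := by
    refine le_of_tendsto h5 ?_
    filter_upwards [hK, hw K, eventually_ge_atTop 1] with N g1 g2 g3
    have hN0 : (0:ℝ) < N := by exact_mod_cast g3
    rw [← sub_div, ← Finset.sum_sub_distrib, abs_div, abs_of_pos hN0, div_le_iff₀ hN0]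
    have hpt : ∀ n, |f.eval (E (q n)) - f.eval (U af φ (q n) K)| ≤
        Cf * (lam * (E (q n) - U af φ (q n) K) ^ 2 + lam⁻¹ * (Qw D (E (q n)) (U af φ (q n) K)) ^ 2) := by
      intro n
      refine (hf _ _).trans ?_
      rw [mul_assoc]
      apply mul_le_mul_of_nonneg_left _ hCf
      set Z := E (q n) - U af φ (q n) K
      set Q := Qw D (E (q n)) (U af φ (q n) K)
      have e1 : lam * Z ^ 2 + lam⁻¹ * Q ^ 2 - 2 * (|Z| * Q) = lam⁻¹ * (lam * |Z| - Q) ^ 2 := by
        rw [← sq_abs Z]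
        field_simp
        ring
      have e2 : 0 ≤ lam⁻¹ * (lam * |Z| - Q) ^ 2 := by positivity
      have e3 : 0 ≤ |Z| * Q := mul_nonneg (abs_nonneg _) (le_trans zero_le_one (Qw_one _ _ _))
      linarith
    calc |∑ n ∈ Finset.range N, (f.eval (E (q n)) - f.eval (U af φ (q n) K))|
        ≤ ∑ n ∈ Finset.range N, Cf * (lam * (E (q n) - U af φ (q n) K) ^ 2 + lam⁻¹ * (Qw D (E (q n)) (U af φ (q n) K)) ^ 2) :=
          (Finset.abs_sum_le_sum_abs _ _).trans (Finset.sum_le_sum fun n _ => hpt n)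
      _ = Cf * (lam * ∑ n ∈ Finset.range N, (E (q n) - U af φ (q n) K) ^ 2 +
            lam⁻¹ * ∑ n ∈ Finset.range N, (Qw D (E (q n)) (U af φ (q n) K)) ^ 2) := by
          rw [← Finset.mul_sum, Finset.sum_add_distrib, ← Finset.mul_sum, ← Finset.mul_sum]
      _ ≤ Cf * (lam * (ε / (4 * (Cf + 1) * lam) * N) + lam⁻¹ * (B * N)) := by
          apply mul_le_mul_of_nonneg_left _ hCf
          exact add_le_add (mul_le_mul_of_nonneg_left g1 hlam0.le) (mul_le_mul_of_nonneg_left g2 (by positivity))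
      _ = (Cf / (Cf + 1) * (ε / 4) + Cf * (lam⁻¹ * B)) * N := by field_simp
      _ ≤ (1 * (ε / 4) + ε / 2) * N := by
          apply mul_le_mul_of_nonneg_right _ hN0.le
          apply add_le_add _ hlB
          apply mul_le_mul_of_nonneg_right _ (by positivity)
          rw [div_le_one (by positivity)]; linarith
      _ = _ := by ring
  linarith

/-- rate of convergence of the means -/
theorem Lw.rate {μ : ProbabilityMeasure ℝ} (hL : Lw af φ μ) (hX : Ctx E af φ) (h : Sq a b δ) (hc : 0 < c) (hcd : c < d)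
    (f : Polynomial ℝ) : ∃ C : ℝ, 0 < C ∧ ∀ K : ℕ, 1 ≤ K →
      |(∫ x, f.eval x ∂(μ : Measure ℝ)) - mn af φ f K| ≤ C * (K:ℝ) ^ (-(1/1600):ℝ) := by
  obtain ⟨C, hC, n0, h1⟩ := mn_cmp hX h hc hcd (p := 1) le_rfl f
  refine ⟨C, hC, fun K hK => ?_⟩
  have h2 : Tendsto (fun n : ℕ => |mn af φ f ((n + 1) ^ 1) - mn af φ f K|) atTop
      (𝓝 |(∫ x, f.eval x ∂(μ : Measure ℝ)) - mn af φ f K|) := by
    simp only [pow_one]
    exact (((hL.lim f).comp (tendsto_add_atTop_nat 1)).sub tendsto_const_nhds).abs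
  refine le_of_tendsto h2 ?_
  filter_upwards [eventually_ge_atTop (max n0 K)] with n hn
  exact h1 n ((le_max_left _ _).trans hn) K hK (((le_max_right _ _).trans hn).trans (Nat.le_succ n))

/-- the error term is approximated, almost everywhere with a summable error -/
theorem ae_sum (hX : Ctx E af φ) (h : Sq a b δ) (hc : 0 < c) (hcd : c ≤ d) (f : Polynomial ℝ) {p : ℕ}
    (hp : 200 * (4 * f.natDegree + 6) ≤ p) :
    ∀ᵐ y ∂(volume.restrict (Icc c d)),
      Summable fun n : ℕ => |f.eval (E (pt a b n y)) - f.eval (U af φ (pt a b n y) ((n + 1) ^ p))| := by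
  obtain ⟨Cf, hCf, hf⟩ := poly_diff f
  set D := f.natDegree with hD
  obtain ⟨C, hC, ρ, hρ, hl⟩ := hX.l2 c d hcd
  have hsc : 0 < δ * c := mul_pos h.dpos hc
  obtain ⟨n2, hn2⟩ := ev_poly (h.pos 0) hsc ρ 0
  obtain ⟨n3, hn3⟩ := ev_poly (h.pos 0) hsc 2 (p * 100)
  obtain ⟨C2, hC2, n4, hmom⟩ := mom_bd (φ := φ) hX.bd h hc hcd p 1
  have hs2 : ∀ C : ℝ, Summable fun n : ℕ => C * (((n:ℝ) + 1) ^ 2)⁻¹ := by
    intro C
    apply Summable.mul_left
    have h1 : Summable fun n : ℕ => ((n:ℝ) ^ 2)⁻¹ := Real.summable_nat_pow_inv.mpr (by norm_num)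
    have h2 := (summable_nat_add_iff 1).mpr h1
    refine h2.congr fun n => ?_
    push_cast
    rfl
  -- the approximation
  have g1 : ∀ᵐ y ∂(volume.restrict (Icc c d)), Tendsto (fun n : ℕ =>
      ((n:ℝ) + 1) ^ (2 * (2 * D + 2)) * (E (pt a b n y) - U af φ (pt a b n y) ((n + 1) ^ p)) ^ 2) atTop (𝓝 0) := by
    refine ae_zero (μ := volume.restrict (Icc c d)) (fun n => ?_) (hs2 C) (j0 := max n2 n3) ?_ ?_
    · exact (((pt_meas hX.meas n).sub (Upt_cont af φ a b n _).measurable).pow_const 2).const_mul _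
    · intro n hn
      have hn2' : n2 ≤ n := (le_max_left _ _).trans hn
      have hn3' : n3 ≤ n := (le_max_right _ _).trans hn
      have hpl := pt_low h hc.le n
      have hρ' : ρ ≤ pt a b n c := by
        have := hn2 n hn2'
        rw [pow_zero, mul_one] at this
        linarith
      have hbig : ((((n + 1) ^ p : ℕ)) : ℝ) ^ 100 ≤ pt a b n c / 2 := by
        have := hn3 n hn3'
        push_cast
        rw [← pow_mul]
        linarith
      have k1 := hl (a n) (b n) (h.one n) (h.pos n) hρ' ((n + 1) ^ p) (Nat.one_le_pow _ _ (by omega)) hbig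
      have hn1 : (1:ℝ) ≤ (n:ℝ) + 1 := by linarith [(Nat.cast_nonneg n : (0:ℝ) ≤ n)]
      have hn0 : (0:ℝ) < (n:ℝ) + 1 := by linarith
      calc ∫⁻ y in Icc c d, ENNReal.ofReal (((n:ℝ) + 1) ^ (2 * (2 * D + 2)) *
            (E (pt a b n y) - U af φ (pt a b n y) ((n + 1) ^ p)) ^ 2)
          = ENNReal.ofReal (((n:ℝ) + 1) ^ (2 * (2 * D + 2))) *
            ∫⁻ y in Icc c d, ENNReal.ofReal ((E (pt a b n y) - U af φ (pt a b n y) ((n + 1) ^ p)) ^ 2) := by
            rw [← lintegral_const_mul]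
            · apply lintegral_congr
              intro y
              rw [ENNReal.ofReal_mul (by positivity)]
            · exact (((pt_meas hX.meas n).sub (Upt_cont af φ a b n _).measurable).pow_const 2).ennreal_ofReal
        _ ≤ ENNReal.ofReal (((n:ℝ) + 1) ^ (2 * (2 * D + 2))) *
            ENNReal.ofReal (C * (((n + 1) ^ p : ℕ) : ℝ) ^ (-(1/200):ℝ)) := by gcongr; exact k1
        _ = ENNReal.ofReal (((n:ℝ) + 1) ^ (2 * (2 * D + 2)) * (C * (((n + 1) ^ p : ℕ) : ℝ) ^ (-(1/200):ℝ))) :=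
            (ENNReal.ofReal_mul (by positivity)).symm
        _ ≤ _ := by
            apply ENNReal.ofReal_le_ofReal
            have e1 : (((n + 1) ^ p : ℕ) : ℝ) ^ (-(1/200):ℝ) = ((n:ℝ) + 1) ^ (-((p:ℝ)/200)) := by
              push_cast
              rw [← Real.rpow_natCast, ← Real.rpow_mul hn0.le]
              congr 1
              ring
            have e2 : ((n:ℝ) + 1) ^ (2 * (2 * D + 2)) = ((n:ℝ) + 1) ^ (((2 * (2 * D + 2) : ℕ) : ℝ)) := (Real.rpow_natCast _ _).symm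
            have e3 : (((n:ℝ) + 1) ^ 2)⁻¹ = ((n:ℝ) + 1) ^ (-2:ℝ) := by
              rw [Real.rpow_neg hn0.le]
              norm_num
            rw [e1, e2, e3, mul_left_comm, ← Real.rpow_add hn0]
            apply mul_le_mul_of_nonneg_left _ hC.le
            apply Real.rpow_le_rpow_of_exponent_le hn1
            have h7 : (200 * (4 * (D:ℝ) + 6)) ≤ p := by exact_mod_cast hp
            push_cast
            linarith
    · intro n y
      positivity
  -- the size of the model polynomials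
  have g2 : ∀ᵐ y ∂(volume.restrict (Icc c d)), Tendsto (fun n : ℕ =>
      (((n:ℝ) + 1) ^ 2)⁻¹ * (U af φ (pt a b n y) ((n + 1) ^ p)) ^ (2 * 1)) atTop (𝓝 0) := by
    refine ae_zero' hcd (fun n => ?_) (hs2 C2) (j0 := n4) ?_ ?_
    · exact continuous_const.mul ((Upt_cont af φ a b n _).pow _)
    · intro n hn
      rw [intervalIntegral.integral_const_mul, mul_comm]
      exact mul_le_mul_of_nonneg_right (hmom n hn _ le_rfl) (by positivity)
    · intro n y
      have := Even.pow_nonneg (even_two_mul 1) (U af φ (pt a b n y) ((n + 1) ^ p))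
      positivity
  filter_upwards [g1, g2] with y h1 h2
  have h3 : ∀ᶠ n : ℕ in atTop, |f.eval (E (pt a b n y)) - f.eval (U af φ (pt a b n y) ((n + 1) ^ p))| ≤
      (Cf * (1 + 2 ^ (2 * D) + 1)) * (((n:ℝ) + 1) ^ 2)⁻¹ := by
    filter_upwards [h1.eventually (gt_mem_nhds one_pos), h2.eventually (gt_mem_nhds one_pos)] with n k1 k2
    have hn1 : (1:ℝ) ≤ (n:ℝ) + 1 := by linarith [(Nat.cast_nonneg n : (0:ℝ) ≤ n)]
    have hn0 : (0:ℝ) < (n:ℝ) + 1 := by linarith
    set X := E (pt a b n y) with hX'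
    set Y := U af φ (pt a b n y) ((n + 1) ^ p) with hY'
    set T := (n:ℝ) + 1 with hT
    have k3 : |X - Y| ≤ (T ^ (2 * D + 2))⁻¹ := by
      have e1 : (T ^ (2 * D + 2) * |X - Y|) ^ 2 ≤ 1 := by
        rw [mul_pow, sq_abs, ← pow_mul, mul_comm (2 * D + 2) 2]
        exact k1.le
      have e2 : T ^ (2 * D + 2) * |X - Y| ≤ 1 := by
        have := abs_le_of_sq_le_sq (a := T ^ (2 * D + 2) * |X - Y|) (b := 1) (by rw [one_pow]; exact e1) zero_le_one
        exact (le_abs_self _).trans this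
      rw [← one_div, le_div_iff₀ (by positivity), mul_comm]
      exact e2
    have k4 : |Y| ≤ T := by
      have e1 : Y ^ 2 ≤ T ^ 2 := by
        rw [inv_mul_lt_iff₀ (by positivity), mul_one, mul_one] at k2
        exact k2.le
      exact abs_le_of_sq_le_sq e1 hn0.le
    have k5 : |X| ≤ 2 * T := by
      have e1 : |X| ≤ |X - Y| + |Y| := by
        have := abs_add_le (X - Y) Y
        rwa [sub_add_cancel] at this
      have e2 : (T ^ (2 * D + 2))⁻¹ ≤ 1 := inv_le_one_of_one_le₀ (one_le_pow₀ hn1)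
      linarith
    have k6 : Qw D X Y ≤ (1 + 2 ^ (2 * D) + 1) * T ^ (2 * D) := by
      unfold Qw
      have e1 : X ^ (2 * D) ≤ 2 ^ (2 * D) * T ^ (2 * D) := by
        rw [← mul_pow]
        calc X ^ (2 * D) = |X| ^ (2 * D) := by rw [pow_mul, pow_mul, sq_abs]
          _ ≤ _ := pow_le_pow_left₀ (abs_nonneg _) k5 _
      have e2 : Y ^ (2 * D) ≤ T ^ (2 * D) := by
        calc Y ^ (2 * D) = |Y| ^ (2 * D) := by rw [pow_mul, pow_mul, sq_abs]
          _ ≤ _ := pow_le_pow_left₀ (abs_nonneg _) k4 _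
      have e3 : (1:ℝ) ≤ T ^ (2 * D) := one_le_pow₀ hn1
      linarith
    calc |f.eval X - f.eval Y| ≤ Cf * |X - Y| * Qw D X Y := hf X Y
      _ ≤ Cf * (T ^ (2 * D + 2))⁻¹ * ((1 + 2 ^ (2 * D) + 1) * T ^ (2 * D)) := by
          apply mul_le_mul (mul_le_mul_of_nonneg_left k3 hCf) k6 (le_trans zero_le_one (Qw_one _ _ _)) (by positivity)
      _ = _ := by
          rw [pow_add]
          field_simp
  refine Summable.of_norm_bounded_eventually_nat (hs2 (Cf * (1 + 2 ^ (2 * D) + 1))) ?_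
  filter_upwards [h3] with n hn
  rw [Real.norm_eq_abs, abs_abs]
  exact hn

end Run7.h113.CL
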