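import Mathlib
import Pool.Agent.Run7.h113.CL.Lim

/-!
The central limit theorem for polynomials in the error term: characteristic functions.
-/

set_option autoImplicit false

open MeasureTheory Filter Topology Set Real
open scoped ENNReal
open Pool.Agent.H469R2.NK (e norm_e e_add conj_e e_zero)
open Pool.Agent.H383.Gen (U Bd)
open Pool.Agent.Y969.TM
open Pool.Agent.R306.GP

namespace Run7.h113.CL

variable {E : ℝ → ℝ} {af : ℕ → ℝ} {φ : ℝ} {a b : ℕ → ℝ} {δ c d : ℝ} {Λ Λ1 : ℝ} {w w' : ℝ → ℂ}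

/-- the centred polynomials in the truncations, relative to a fixed degree -/
noncomputable def Hn (af : ℕ → ℝ) (φ : ℝ) (f : Polynomial ℝ) (p K n : ℕ) (R : ℝ) : ℝ :=
  (f.eval (U af φ R ((n + 1) ^ p)) - mn af φ f ((n + 1) ^ p)) - (f.eval (U af φ R K) - mn af φ f K)

lemma Hn_tp (ha : Bd af) (φ : ℝ) (f : Polynomial ℝ) {p : ℕ} (hp : 1 ≤ p) {K : ℕ} (hK : 1 ≤ K) : ∃ (C : ℝ) (q : ℕ), 1 ≤ C ∧
    ∀ n : ℕ, IsTP (C * ((n:ℝ) + 1) ^ q) (C * ((n:ℝ) + 1) ^ q) (fun R => ((Hn af φ f p K n R : ℝ) : ℂ)) := by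
  obtain ⟨C, q, hC, hq, h⟩ := tp_poly ha φ f
  have hK1 : (1:ℝ) ≤ K := by exact_mod_cast hK
  refine ⟨C + C * (K:ℝ) ^ q, p * q, by
    have : 0 ≤ C * (K:ℝ) ^ q := by positivity
    linarith, fun n => ?_⟩
  have hn1 : (1:ℝ) ≤ (n:ℝ) + 1 := by linarith [(Nat.cast_nonneg n : (0:ℝ) ≤ n)]
  have h1 := h ((n + 1) ^ p) (Nat.one_le_pow _ _ (by omega))
  have h2 := h K hK
  have e1 : C * ((((n + 1) ^ p : ℕ)) : ℝ) ^ q = C * ((n:ℝ) + 1) ^ (p * q) := by push_cast; rw [← pow_mul]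
  rw [e1] at h1
  have hT : (1:ℝ) ≤ ((n:ℝ) + 1) ^ (p * q) := one_le_pow₀ hn1
  have hKq : 0 ≤ C * (K:ℝ) ^ q := by positivity
  have k1 : C * ((n:ℝ) + 1) ^ (p * q) ≤ (C + C * (K:ℝ) ^ q) * ((n:ℝ) + 1) ^ (p * q) := by
    apply mul_le_mul_of_nonneg_right _ (by positivity)
    linarith
  have k2 : C * (K:ℝ) ^ q ≤ (C + C * (K:ℝ) ^ q) * ((n:ℝ) + 1) ^ (p * q) := by
    calc C * (K:ℝ) ^ q = (C * (K:ℝ) ^ q) * 1 := (mul_one _).symm
      _ ≤ (C + C * (K:ℝ) ^ q) * ((n:ℝ) + 1) ^ (p * q) := mul_le_mul (by linarith) hT zero_le_one (by positivity)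
  have h3 := (h1.mono le_rfl k1).sub (h2.mono le_rfl k2)
  have e2 : (fun R => ((Hn af φ f p K n R : ℝ) : ℂ)) = fun R => ((f.eval (U af φ R ((n + 1) ^ p)) - mn af φ f ((n + 1) ^ p) : ℝ) : ℂ) -
      ((f.eval (U af φ R K) - mn af φ f K : ℝ) : ℂ) := by
    funext R
    unfold Hn
    push_cast
    ring
  rw [e2]
  refine h3.mono ?_ le_rfl
  have : C * (K:ℝ) ^ q ≤ C * (K:ℝ) ^ q * ((n:ℝ) + 1) ^ (p * q) := le_mul_of_one_le_right hKq hT
  calc C * ((n:ℝ) + 1) ^ (p * q) + C * (K:ℝ) ^ q ≤ C * ((n:ℝ) + 1) ^ (p * q) + C * (K:ℝ) ^ q * ((n:ℝ) + 1) ^ (p * q) := by linarith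
    _ = _ := by ring

lemma Hn_cont (af : ℕ → ℝ) (φ : ℝ) (f : Polynomial ℝ) (p K n : ℕ) (a b : ℕ → ℝ) :
    Continuous fun y => Hn af φ f p K n (pt a b n y) := by
  unfold Hn
  exact ((Udiff_cont f af φ a b n _).sub continuous_const).sub ((Udiff_cont f af φ a b n _).sub continuous_const)

/-- the contribution of the high frequencies -/
theorem tail_sq (hX : Ctx E af φ) (h : Sq a b δ) (hc : 0 < c) (hcd : c < d) {p : ℕ} (hp1 : 1 ≤ p) (f : Polynomial ℝ) :
    ∃ C : ℝ, 0 < C ∧ ∀ K : ℕ, 1 ≤ K → ∃ CK : ℝ, 0 ≤ CK ∧ ∀ N : ℕ,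
      ∫ y in c..d, (∑ n ∈ Finset.range N, Hn af φ f p K n (pt a b n y)) ^ 2 ≤ C * (K:ℝ) ^ (-(1/800):ℝ) * N + CK := by
  obtain ⟨C1, hC1, n1, h1⟩ := cmp_sq hX h hc hcd.le hp1 f
  obtain ⟨C2, hC2, n2, h2⟩ := mn_cmp hX h hc hcd hp1 f
  have hdc : 0 < d - c := by linarith
  refine ⟨2 * C1 + 2 * (d - c) * C2 ^ 2, by positivity, fun K hK => ?_⟩
  obtain ⟨Ct, q, hCt, htp⟩ := Hn_tp hX.bd φ f hp1 hK
  obtain ⟨Co, hCo, horth⟩ := orth h hc hcd.le hCt q
  have hK0 : (0:ℝ) < K := by exact_mod_cast hK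
  set n0 := max (max n1 n2) K with hn0
  set F : ℕ → ℝ := fun n => ∫ y in c..d, (Hn af φ f p K n (pt a b n y)) ^ 2 with hF
  have hF0 : ∀ n, 0 ≤ F n := fun n => intervalIntegral.integral_nonneg hcd.le fun y _ => sq_nonneg _
  refine ⟨∑ n ∈ Finset.range n0, F n + Co, add_nonneg (Finset.sum_nonneg fun n _ => hF0 n) hCo, fun N => ?_⟩
  set X := (2 * C1 + 2 * (d - c) * C2 ^ 2) * (K:ℝ) ^ (-(1/800):ℝ) with hXd
  have hX0 : 0 ≤ X := by positivity
  have hbig : ∀ n, n0 ≤ n → F n ≤ X := by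
    intro n hn
    have k1 := h1 n (((le_max_left _ _).trans (le_max_left _ _)).trans hn) K hK (((le_max_right _ _).trans hn).trans (Nat.le_succ n))
    have k2 := h2 n (((le_max_right _ _).trans (le_max_left _ _)).trans hn) K hK (((le_max_right _ _).trans hn).trans (Nat.le_succ n))
    set u : ℝ → ℝ := fun y => f.eval (U af φ (pt a b n y) ((n + 1) ^ p)) - f.eval (U af φ (pt a b n y) K) with hu
    set v := mn af φ f ((n + 1) ^ p) - mn af φ f K with hv
    have huc : Continuous u := (Udiff_cont f af φ a b n _).sub (Udiff_cont f af φ a b n _)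
    have k3 : v ^ 2 ≤ C2 ^ 2 * (K:ℝ) ^ (-(1/800):ℝ) := by
      calc v ^ 2 = |v| ^ 2 := (sq_abs v).symm
        _ ≤ (C2 * (K:ℝ) ^ (-(1/1600):ℝ)) ^ 2 := pow_le_pow_left₀ (abs_nonneg _) k2 2
        _ = _ := by
            rw [mul_pow]
            congr 1
            rw [← Real.rpow_natCast, ← Real.rpow_mul hK0.le]
            norm_num
    calc F n = ∫ y in c..d, (u y - v) ^ 2 := by
          simp only [hF]
          congr 1
          funext y
          unfold Hn
          simp only [hu, hv]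
          ring
      _ ≤ ∫ y in c..d, (2 * (u y) ^ 2 + 2 * v ^ 2) := by
          apply intervalIntegral.integral_mono_on hcd.le
          · exact ((huc.sub continuous_const).pow 2).intervalIntegrable _ _
          · exact ((continuous_const.mul (huc.pow 2)).add continuous_const).intervalIntegrable _ _
          · intro y _
            nlinarith [sq_nonneg (u y + v)]
      _ = 2 * (∫ y in c..d, (u y) ^ 2) + (d - c) * (2 * v ^ 2) := by
          rw [intervalIntegral.integral_add, intervalIntegral.integral_const_mul, intervalIntegral.integral_const, smul_eq_mul]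
          · exact (continuous_const.mul (huc.pow 2)).intervalIntegrable _ _
          · exact continuous_const.intervalIntegrable _ _
      _ ≤ 2 * (C1 * (K:ℝ) ^ (-(1/800):ℝ)) + (d - c) * (2 * (C2 ^ 2 * (K:ℝ) ^ (-(1/800):ℝ))) := by gcongr
      _ = _ := by rw [hXd]; ring
  have h3 := horth (fun n R => ((Hn af φ f p K n R : ℝ) : ℂ)) htp (Finset.range N)
  have e1 : ∀ y, ‖∑ n ∈ Finset.range N, ((Hn af φ f p K n (pt a b n y) : ℝ) : ℂ)‖ ^ 2 =
      (∑ n ∈ Finset.range N, Hn af φ f p K n (pt a b n y)) ^ 2 := by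
    intro y
    rw [← Complex.ofReal_sum, Complex.norm_real, Real.norm_eq_abs, sq_abs]
  have e2 : ∀ n y, ‖((Hn af φ f p K n (pt a b n y) : ℝ) : ℂ)‖ ^ 2 = (Hn af φ f p K n (pt a b n y)) ^ 2 := by
    intro n y
    rw [Complex.norm_real, Real.norm_eq_abs, sq_abs]
  simp only [e1, e2] at h3
  refine h3.trans ?_
  have h4 : ∑ n ∈ Finset.range N, F n ≤ X * N + ∑ n ∈ Finset.range n0, F n := by
    calc ∑ n ∈ Finset.range N, F n ≤ ∑ n ∈ Finset.range N, (X + if n < n0 then F n else 0) := by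
          apply Finset.sum_le_sum
          intro n _
          split_ifs with h5
          · linarith
          · rw [add_zero]; exact hbig n (not_lt.mp h5)
      _ = X * N + ∑ n ∈ (Finset.range N).filter (fun n => n < n0), F n := by
          rw [Finset.sum_add_distrib, Finset.sum_const, Finset.card_range, nsmul_eq_mul, Finset.sum_filter, mul_comm]
      _ ≤ _ := by
          apply add_le_add le_rfl
          apply Finset.sum_le_sum_of_subset_of_nonneg
          · intro n hn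
            rw [Finset.mem_filter] at hn
            exact Finset.mem_range.mpr hn.2
          · intro n _ _
            exact hF0 n
  calc ∑ n ∈ Finset.range N, F n + Co ≤ X * N + ∑ n ∈ Finset.range n0, F n + Co := by linarith
    _ = _ := by ring

/-- linearity of the means -/
lemma mn_C_mul (af : ℕ → ℝ) (φ : ℝ) (x : ℝ) (g : Polynomial ℝ) (M : ℕ) : mn af φ (Polynomial.C x * g) M = x * mn af φ g M := by
  have h1 := Polynomial.natDegree_C_mul_le x g
  rw [mn_eq af φ (Polynomial.C x * g) M (n := g.natDegree + 1) (by omega)]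
  unfold mn
  rw [Finset.mul_sum]
  apply Finset.sum_congr rfl
  intro k _
  rw [Polynomial.coeff_C_mul]
  ring

/-- the mean of a square is nonnegative -/
lemma mn_sq_nonneg (ha : Bd af) (h : Sq a b δ) (hc : 0 < c) (hcd : c < d) (φ : ℝ) (g : Polynomial ℝ) {K : ℕ} (hK : 1 ≤ K) :
    0 ≤ mn af φ (g ^ 2) K := by
  obtain ⟨C, q, hC, hq, h1⟩ := tp_poly ha φ (g ^ 2)
  have hK1 : (1:ℝ) ≤ K := by exact_mod_cast hK
  have hKq : (1:ℝ) ≤ C * (K:ℝ) ^ q := by
    have : (1:ℝ) ≤ (K:ℝ) ^ q := one_le_pow₀ hK1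
    nlinarith
  obtain ⟨n0, h2⟩ := mean_osc h hc hcd.le hKq 0
  have hdc : 0 < d - c := by linarith
  have h3 : ∀ n : ℕ, n0 ≤ n → -(1 / ((n:ℝ) + 1)) ≤ (d - c) * mn af φ (g ^ 2) K := by
    intro n hn
    have k1 := h2 n hn _ ((h1 K hK).mono (by simp) (by simp))
    rw [intervalIntegral.integral_ofReal, Complex.norm_real, Real.norm_eq_abs] at k1
    have hYc : Continuous fun y => (g ^ 2).eval (U af φ (pt a b n y) K) := Udiff_cont _ af φ a b n _
    rw [intervalIntegral.integral_sub (hYc.intervalIntegrable _ _) (continuous_const.intervalIntegrable _ _),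
      intervalIntegral.integral_const, smul_eq_mul] at k1
    have k2 : 0 ≤ ∫ y in c..d, (g ^ 2).eval (U af φ (pt a b n y) K) :=
      intervalIntegral.integral_nonneg hcd.le fun y _ => by rw [Polynomial.eval_pow]; exact sq_nonneg _
    have k3 := (abs_le.mp k1).2
    linarith
  have h4 : Tendsto (fun n : ℕ => -(1 / ((n:ℝ) + 1))) atTop (𝓝 0) := by
    have := (tendsto_one_div_add_atTop_nhds_zero_nat (𝕜 := ℝ)).neg
    rwa [neg_zero] at this
  have h5 : 0 ≤ (d - c) * mn af φ (g ^ 2) K := by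
    refine le_of_tendsto' (h4.comp (tendsto_add_atTop_nat n0)) fun n => ?_
    exact h3 (n + n0) (by omega)
  exact nonneg_of_mul_nonneg_right h5 hdc

/-- the variance of the truncated observable -/
noncomputable def vK (af : ℕ → ℝ) (φ : ℝ) (f : Polynomial ℝ) (K : ℕ) : ℝ :=
  mn af φ (f ^ 2) K - (mn af φ f K) ^ 2

/-- the truncated observable -/
theorem ob_K (ha : Bd af) (h : Sq a b δ) (hc : 0 < c) (hcd : c < d) (φ : ℝ) (f : Polynomial ℝ) {K : ℕ} (hK : 1 ≤ K) :
    ∃ A W : ℝ, Ob A W (vK af φ f K) (fun R => f.eval (U af φ R K) - mn af φ f K) := by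
  obtain ⟨C, q, hC, hq, h1⟩ := tp_poly ha φ f
  set m := mn af φ f K with hm
  set g : Polynomial ℝ := f - Polynomial.C m with hg
  obtain ⟨C', q', hC', hq', h2⟩ := tp_poly ha φ (g ^ 2)
  have hK1 : (1:ℝ) ≤ K := by exact_mod_cast hK
  have hKq : (1:ℝ) ≤ C * (K:ℝ) ^ q := by
    have : (1:ℝ) ≤ (K:ℝ) ^ q := one_le_pow₀ hK1
    nlinarith
  have e1 : mn af φ (g ^ 2) K = vK af φ f K := by
    have : g ^ 2 = f ^ 2 + (Polynomial.C (-(2 * m)) * f + Polynomial.C (m ^ 2)) := by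
      rw [hg]
      simp only [Polynomial.C_neg, Polynomial.C_mul, Polynomial.C_pow, Polynomial.C_ofNat]
      ring
    rw [this, mn_add, mn_add, mn_C_mul, mn_C]
    unfold vK
    rw [← hm]
    ring
  set B := max (C * (K:ℝ) ^ q) (C' * (K:ℝ) ^ q') with hB
  refine ⟨B, B, (h1 K hK).mono (le_max_left _ _) (le_max_left _ _), ?_, hKq.trans (le_max_left _ _), hKq.trans (le_max_left _ _), ?_⟩
  · have h3 := (h2 K hK).mono (le_max_right (C * (K:ℝ) ^ q) _) (le_max_right (C * (K:ℝ) ^ q) _)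
    rw [e1] at h3
    have e2 : (fun R => (((f.eval (U af φ R K) - m) ^ 2 - vK af φ f K : ℝ) : ℂ)) =
        fun R => (((g ^ 2).eval (U af φ R K) - vK af φ f K : ℝ) : ℂ) := by
      funext R
      rw [Polynomial.eval_pow, hg, Polynomial.eval_sub, Polynomial.eval_C]
    rw [e2]
    exact h3
  · rw [← e1]
    exact mn_sq_nonneg ha h hc hcd φ g hK

end Run7.h113.CL
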