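import Mathlib
import Pool.Agent.Run7.h113.CL.Tail

/-!
The central limit theorem for polynomials in the error term: the characteristic functions converge.
-/

set_option autoImplicit false

open MeasureTheory Filter Topology Set Real
open scoped ENNReal
open Pool.Agent.H469R2.NK (e norm_e e_add conj_e e_zero)
open Pool.Agent.H383.Gen (U Bd)
open Pool.Agent.Y969.TM
open Pool.Agent.R306.GP

namespace Run7.h113.CL

variable {E : ℝ → ℝ} {af : ℕ → ℝ} {φ : ℝ} {a b : ℕ → ℝ} {δ c d : ℝ} {Λ Λ1 : ℝ} {w w' : ℝ → ℂ}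

/-- the exponential of a real number times `i` -/
noncomputable def ei (x : ℝ) : ℂ := Complex.exp (Complex.I * (x : ℂ))

lemma ei_norm (x : ℝ) : ‖ei x‖ = 1 := by
  unfold ei
  rw [mul_comm, Complex.norm_exp_ofReal_mul_I]

lemma ei_lip (x y : ℝ) : ‖ei x - ei y‖ ≤ |x - y| := exp_lip x y

lemma ei_cont : Continuous ei := by unfold ei; fun_prop

lemma sum_le_of_sm {u : ℕ → ℝ} (hu : Summable fun n => |u n|) (N : ℕ) : |∑ n ∈ Finset.range N, u n| ≤ ∑' n, |u n| :=
  (Finset.abs_sum_le_sum_abs _ _).trans (hu.sum_le_tsum _ fun _ _ => abs_nonneg _)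

/-- summability of the differences of the means -/
lemma mn_summable {μ : ProbabilityMeasure ℝ} (hL : Lw af φ μ) (hX : Ctx E af φ) (h : Sq a b δ) (hc : 0 < c) (hcd : c < d)
    (f : Polynomial ℝ) {p : ℕ} (hp : 3200 ≤ p) :
    Summable fun n : ℕ => |mn af φ f ((n + 1) ^ p) - ∫ x, f.eval x ∂(μ : Measure ℝ)| := by
  obtain ⟨C, hC, hr⟩ := hL.rate hX h hc hcd f
  have h1 : Summable fun n : ℕ => ((n:ℝ) ^ 2)⁻¹ := Real.summable_nat_pow_inv.mpr (by norm_num)
  have h2 := ((summable_nat_add_iff 1).mpr h1).mul_left C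
  refine Summable.of_nonneg_of_le (fun _ => abs_nonneg _) (fun n => ?_) h2
  have hn1 : (1:ℝ) ≤ (n:ℝ) + 1 := by linarith [(Nat.cast_nonneg n : (0:ℝ) ≤ n)]
  have hn0 : (0:ℝ) < (n:ℝ) + 1 := by linarith
  have h3 := hr ((n + 1) ^ p) (Nat.one_le_pow _ _ (by omega))
  rw [abs_sub_comm] at h3
  refine h3.trans ?_
  apply mul_le_mul_of_nonneg_left _ hC.le
  have e1 : (((n + 1) ^ p : ℕ) : ℝ) ^ (-(1/1600):ℝ) = ((n:ℝ) + 1) ^ (-((p:ℝ)/1600)) := by
    push_cast
    rw [← Real.rpow_natCast, ← Real.rpow_mul hn0.le]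
    congr 1
    ring
  have e2 : ((((n + 1 : ℕ)) : ℝ) ^ 2)⁻¹ = ((n:ℝ) + 1) ^ (-2:ℝ) := by
    push_cast
    rw [Real.rpow_neg hn0.le]
    norm_num
  rw [e1, e2]
  apply Real.rpow_le_rpow_of_exponent_le hn1
  have : (3200:ℝ) ≤ p := by exact_mod_cast hp
  linarith

/-- **the characteristic functions** -/
theorem clt_char {μ : ProbabilityMeasure ℝ} (hL : Lw af φ μ) (hX : Ctx E af φ) (h : Sq a b δ) (hc : 0 < c) (hcd : c < d)
    (hw : Am c d Λ Λ1 w w') (f : Polynomial ℝ) (t : ℝ) :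
    Tendsto (fun N : ℕ => ∫ y in c..d, w y * ei (t / √N * ∑ n ∈ Finset.range N, (f.eval (E (pt a b n y)) -
        ∫ x, f.eval x ∂(μ : Measure ℝ)))) atTop
      (𝓝 ((∫ y in c..d, w y) * (exp (-(t ^ 2 * ((∫ x, f.eval x ^ 2 ∂(μ : Measure ℝ)) -
        (∫ x, f.eval x ∂(μ : Measure ℝ)) ^ 2) / 2)) : ℝ))) := by
  set m := ∫ x, f.eval x ∂(μ : Measure ℝ) with hm
  set v := (∫ x, f.eval x ^ 2 ∂(μ : Measure ℝ)) - m ^ 2 with hv
  have hcm : c ∈ Icc c d := ⟨le_rfl, hcd.le⟩
  have hΛ0 : 0 ≤ Λ := (norm_nonneg _).trans (hw.bd c hcm)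
  have hdc : 0 < d - c := by linarith
  have hwc : Continuous w := continuous_iff_continuousAt.mpr fun y => (hw.der y).continuousAt
  obtain ⟨p, hp1, hp2, hp3⟩ : ∃ p : ℕ, 200 * (4 * f.natDegree + 6) ≤ p ∧ 3200 ≤ p ∧ 1 ≤ p :=
    ⟨200 * (4 * f.natDegree + 6) + 3200, by omega, by omega, by omega⟩
  -- the variances
  have hvK : Tendsto (fun K => vK af φ f K) atTop (𝓝 v) := by
    have h1 := hL.lim (f ^ 2)
    have h2 := hL.lim f
    have e1 : ∫ x, (f ^ 2).eval x ∂(μ : Measure ℝ) = ∫ x, f.eval x ^ 2 ∂(μ : Measure ℝ) := by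
      simp only [Polynomial.eval_pow]
    rw [e1] at h1
    exact h1.sub (h2.pow 2)
  obtain ⟨Ct, hCt, htail⟩ := tail_sq hX h hc hcd hp3 f
  -- the first approximation: the error term by the truncations
  set xE : ℕ → ℝ → ℝ := fun N y => t / √N * ∑ n ∈ Finset.range N, (f.eval (E (pt a b n y)) - m) with hxE
  set xU : ℕ → ℝ → ℝ := fun N y => t / √N * ∑ n ∈ Finset.range N, (f.eval (U af φ (pt a b n y) ((n + 1) ^ p)) - m) with hxU
  have hxUc : ∀ N, Continuous (xU N) := fun N => continuous_const.mul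
    (continuous_finsetSum _ fun n _ => (Udiff_cont f af φ a b n _).sub continuous_const)
  have hxEm : ∀ N, Measurable (xE N) := fun N => by
    refine Measurable.const_mul ?_ _
    exact Finset.measurable_sum _ fun n _ => (f.continuous.measurable.comp (pt_meas hX.meas n)).sub_const _
  have hsq : Tendsto (fun N : ℕ => (√(N:ℝ))⁻¹) atTop (𝓝 0) :=
    tendsto_inv_atTop_zero.comp (Real.tendsto_sqrt_atTop.comp tendsto_natCast_atTop_atTop)
  have hfirst : Tendsto (fun N : ℕ => ∫ y in c..d, w y * (ei (xE N y) - ei (xU N y))) atTop (𝓝 0) := by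
    have h0 : ∫ y in c..d, (0:ℂ) = 0 := by simp
    rw [← h0]
    apply intervalIntegral.tendsto_integral_filter_of_dominated_convergence (fun _ => Λ * 2)
    · refine Eventually.of_forall fun N => ?_
      refine Measurable.aestronglyMeasurable ?_
      exact hwc.measurable.mul ((ei_cont.measurable.comp (hxEm N)).sub (ei_cont.measurable.comp (hxUc N).measurable))
    · refine Eventually.of_forall fun N => Eventually.of_forall fun y hy => ?_
      rw [uIoc_of_le hcd.le] at hy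
      rw [norm_mul]
      apply mul_le_mul (hw.bd y ⟨hy.1.le, hy.2⟩) _ (norm_nonneg _) hΛ0
      refine (norm_sub_le _ _).trans ?_
      rw [ei_norm, ei_norm]; norm_num
    · exact continuous_const.intervalIntegrable _ _
    · have hae := ae_sum hX h hc hcd.le f hp1
      rw [ae_restrict_iff' measurableSet_Icc] at hae
      filter_upwards [hae] with y hy hyI
      rw [uIoc_of_le hcd.le] at hyI
      have hs := hy ⟨hyI.1.le, hyI.2⟩
      rw [tendsto_zero_iff_norm_tendsto_zero]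
      have hlim : Tendsto (fun N : ℕ => ‖w y‖ * (|t| * (√(N:ℝ))⁻¹ *
          ∑' n : ℕ, |f.eval (E (pt a b n y)) - f.eval (U af φ (pt a b n y) ((n + 1) ^ p))|)) atTop (𝓝 0) := by
        have := (((hsq.const_mul |t|).mul_const (∑' n : ℕ, |f.eval (E (pt a b n y)) -
          f.eval (U af φ (pt a b n y) ((n + 1) ^ p))|))).const_mul ‖w y‖
        simpa using this
      refine squeeze_zero (fun _ => norm_nonneg _) (fun N => ?_) hlim
      rw [norm_mul]
      apply mul_le_mul_of_nonneg_left _ (norm_nonneg _)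
      refine (ei_lip _ _).trans ?_
      simp only [hxE, hxU]
      rw [← mul_sub, ← Finset.sum_sub_distrib, abs_mul, abs_div, abs_of_nonneg (Real.sqrt_nonneg _), div_eq_mul_inv]
      apply mul_le_mul_of_nonneg_left _ (by positivity)
      have e1 : ∀ n : ℕ, f.eval (E (pt a b n y)) - m - (f.eval (U af φ (pt a b n y) ((n + 1) ^ p)) - m) =
          f.eval (E (pt a b n y)) - f.eval (U af φ (pt a b n y) ((n + 1) ^ p)) := fun n => by ring
      simp only [e1]
      exact sum_le_of_sm hs N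
  -- the second approximation: by a fixed degree
  set Sm := ∑' n : ℕ, |mn af φ f ((n + 1) ^ p) - m| with hSm
  have hsm := mn_summable hL hX h hc hcd f hp2
  have hSm0 : 0 ≤ Sm := tsum_nonneg fun _ => abs_nonneg _
  have hsecond : ∀ K : ℕ, 1 ≤ K → ∃ CK : ℝ, 0 ≤ CK ∧ ∀ N : ℕ, 1 ≤ N →
      ‖(∫ y in c..d, w y * ei (xU N y)) - ∫ y in c..d, w y * ei (t / √N * ∑ n ∈ Finset.range N,
        (f.eval (U af φ (pt a b n y) K) - mn af φ f K))‖ ≤
        Λ * |t| * √(d - c) * √(Ct * (K:ℝ) ^ (-(1/800):ℝ) + CK * (N:ℝ)⁻¹) + Λ * |t| * Sm * (d - c) * (√(N:ℝ))⁻¹ := by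
    intro K hK
    obtain ⟨CK, hCK, hCK2⟩ := htail K hK
    refine ⟨CK, hCK, fun N hN => ?_⟩
    have hN0 : (0:ℝ) < N := by exact_mod_cast hN
    have hs0 : 0 < √(N:ℝ) := Real.sqrt_pos.mpr hN0
    set xK : ℝ → ℝ := fun y => t / √N * ∑ n ∈ Finset.range N, (f.eval (U af φ (pt a b n y) K) - mn af φ f K) with hxK
    have hxKc : Continuous xK := continuous_const.mul
      (continuous_finsetSum _ fun n _ => (Udiff_cont f af φ a b n _).sub continuous_const)
    set r : ℝ → ℝ := fun y => ∑ n ∈ Finset.range N, Hn af φ f p K n (pt a b n y) with hr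
    have hrc : Continuous r := continuous_finsetSum _ fun n _ => Hn_cont af φ f p K n a b
    have i1 : IntervalIntegrable (fun y => w y * ei (xU N y)) volume c d := (hwc.mul (ei_cont.comp (hxUc N))).intervalIntegrable _ _
    have i2 : IntervalIntegrable (fun y => w y * ei (xK y)) volume c d := (hwc.mul (ei_cont.comp hxKc)).intervalIntegrable _ _
    rw [← intervalIntegral.integral_sub i1 i2]
    have hpt : ∀ y ∈ Icc c d, ‖w y * ei (xU N y) - w y * ei (xK y)‖ ≤ Λ * (|t| / √N * |r y| + |t| / √N * Sm) := by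
      intro y hy
      rw [← mul_sub, norm_mul]
      apply mul_le_mul (hw.bd y hy) _ (norm_nonneg _) hΛ0
      refine (ei_lip _ _).trans ?_
      have e1 : xU N y - xK y = t / √N * (r y + ∑ n ∈ Finset.range N, (mn af φ f ((n + 1) ^ p) - m)) := by
        simp only [hxU, hxK, hr]
        rw [← mul_sub, ← Finset.sum_sub_distrib, ← Finset.sum_add_distrib]
        congr 1
        apply Finset.sum_congr rfl
        intro n _
        unfold Hn
        ring
      rw [e1, abs_mul, abs_div, abs_of_pos hs0, ← mul_add]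
      apply mul_le_mul_of_nonneg_left _ (by positivity)
      refine (abs_add_le _ _).trans (add_le_add le_rfl ?_)
      exact sum_le_of_sm hsm N
    have hcs := cs_int hcd.le hrc
    have hint : ∫ y in c..d, r y ^ 2 ≤ (Ct * (K:ℝ) ^ (-(1/800):ℝ) + CK * (N:ℝ)⁻¹) * N := by
      refine (hCK2 N).trans (le_of_eq ?_)
      field_simp
    calc ‖∫ y in c..d, (w y * ei (xU N y) - w y * ei (xK y))‖
        ≤ ∫ y in c..d, Λ * (|t| / √N * |r y| + |t| / √N * Sm) := by
          apply intervalIntegral.norm_integral_le_of_norm_le hcd.le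
          · exact Eventually.of_forall fun y hy => hpt y ⟨hy.1.le, hy.2⟩
          · exact (continuous_const.mul ((continuous_const.mul hrc.abs).add continuous_const)).intervalIntegrable _ _
      _ = Λ * (|t| / √N * (∫ y in c..d, |r y|) + (d - c) * (|t| / √N * Sm)) := by
          rw [intervalIntegral.integral_const_mul, intervalIntegral.integral_add, intervalIntegral.integral_const_mul,
            intervalIntegral.integral_const, smul_eq_mul]
          · exact (continuous_const.mul hrc.abs).intervalIntegrable _ _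
          · exact continuous_const.intervalIntegrable _ _
      _ ≤ Λ * (|t| / √N * (√(d - c) * √((Ct * (K:ℝ) ^ (-(1/800):ℝ) + CK * (N:ℝ)⁻¹) * N)) + (d - c) * (|t| / √N * Sm)) := by
          apply mul_le_mul_of_nonneg_left _ hΛ0
          apply add_le_add _ le_rfl
          apply mul_le_mul_of_nonneg_left _ (by positivity)
          exact hcs.trans (mul_le_mul_of_nonneg_left (Real.sqrt_le_sqrt hint) (Real.sqrt_nonneg _))
      _ = _ := by
          rw [Real.sqrt_mul (by positivity)]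
          field_simp
  -- the limit
  rw [Metric.tendsto_nhds]
  intro ε hε
  have hKpow : Tendsto (fun K : ℕ => (K:ℝ) ^ (-(1/800):ℝ)) atTop (𝓝 0) :=
    (tendsto_rpow_neg_atTop (by norm_num : (0:ℝ) < 1/800)).comp tendsto_natCast_atTop_atTop
  have hA1 : Tendsto (fun K : ℕ => Λ * |t| * √(d - c) * √(Ct * (K:ℝ) ^ (-(1/800):ℝ) + 0)) atTop (𝓝 0) := by
    have h1 := (Real.continuous_sqrt.tendsto (Ct * 0 + 0)).comp ((hKpow.const_mul Ct).add_const 0)
    have h2 := h1.const_mul (Λ * |t| * √(d - c))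
    simpa using h2
  have hA2 : Tendsto (fun K : ℕ => ‖(∫ y in c..d, w y) * (exp (-(t ^ 2 * vK af φ f K / 2)) : ℝ) -
      (∫ y in c..d, w y) * (exp (-(t ^ 2 * v / 2)) : ℝ)‖) atTop (𝓝 0) := by
    rw [← tendsto_iff_norm_sub_tendsto_zero]
    apply Tendsto.const_mul
    have h1 : Tendsto (fun K : ℕ => exp (-(t ^ 2 * vK af φ f K / 2))) atTop (𝓝 (exp (-(t ^ 2 * v / 2)))) :=
      (Real.continuous_exp.tendsto _).comp (((hvK.const_mul (t ^ 2)).div_const 2).neg)
    exact (Complex.continuous_ofReal.tendsto _).comp h1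
  obtain ⟨K, hKa, hKb, hK1⟩ := ((hA1.eventually (gt_mem_nhds (show (0:ℝ) < ε / 8 by linarith))).and
    ((hA2.eventually (gt_mem_nhds (show (0:ℝ) < ε / 8 by linarith))).and (eventually_ge_atTop 1))).exists
  obtain ⟨CK, hCK, hsec⟩ := hsecond K hK1
  obtain ⟨A, W, hOb⟩ := ob_K hX.bd h hc hcd φ f hK1
  have hfix := clt_fix h hc hcd.le hOb hw t
  have hinv : Tendsto (fun N : ℕ => (N:ℝ)⁻¹) atTop (𝓝 0) := tendsto_inv_atTop_zero.comp tendsto_natCast_atTop_atTop
  have hB1 : Tendsto (fun N : ℕ => Λ * |t| * √(d - c) * √(Ct * (K:ℝ) ^ (-(1/800):ℝ) + CK * (N:ℝ)⁻¹) + Λ * |t| * Sm * (d - c) * (√(N:ℝ))⁻¹)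
      atTop (𝓝 (Λ * |t| * √(d - c) * √(Ct * (K:ℝ) ^ (-(1/800):ℝ) + 0) + 0)) := by
    have h1 : Tendsto (fun N : ℕ => Ct * (K:ℝ) ^ (-(1/800):ℝ) + CK * (N:ℝ)⁻¹) atTop (𝓝 (Ct * (K:ℝ) ^ (-(1/800):ℝ) + 0)) := by
      have := (hinv.const_mul CK).const_add (Ct * (K:ℝ) ^ (-(1/800):ℝ))
      simpa using this
    have h2 := ((Real.continuous_sqrt.tendsto _).comp h1).const_mul (Λ * |t| * √(d - c))
    have h3 := hsq.const_mul (Λ * |t| * Sm * (d - c))
    rw [mul_zero] at h3
    exact h2.add h3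
  have hB1' := hB1.eventually (gt_mem_nhds (show Λ * |t| * √(d - c) * √(Ct * (K:ℝ) ^ (-(1/800):ℝ) + 0) + 0 < ε / 4 by linarith))
  filter_upwards [hB1', (Metric.tendsto_nhds.mp hfix) (ε / 4) (by linarith), (Metric.tendsto_nhds.mp hfirst) (ε / 4) (by linarith),
    eventually_ge_atTop 1] with N g1 g2 g3 g4
  rw [dist_eq_norm] at g2 g3 ⊢
  rw [sub_zero] at g3
  have g5 := hsec N g4
  have i0 : IntervalIntegrable (fun y => w y * ei (xE N y)) volume c d := by
    have hmeas : AEStronglyMeasurable (fun y => w y * ei (xE N y)) (volume.restrict (uIoc c d)) :=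
      (hwc.measurable.mul (ei_cont.measurable.comp (hxEm N))).aestronglyMeasurable
    refine (intervalIntegrable_const (c := Λ)).mono_fun' hmeas ?_
    refine (ae_restrict_iff' measurableSet_uIoc).mpr (Eventually.of_forall fun y hy => ?_)
    rw [uIoc_of_le hcd.le] at hy
    beta_reduce
    rw [norm_mul, ei_norm, mul_one]
    exact hw.bd y ⟨hy.1.le, hy.2⟩
  have i1 : IntervalIntegrable (fun y => w y * ei (xU N y)) volume c d := (hwc.mul (ei_cont.comp (hxUc N))).intervalIntegrable _ _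
  have e1 : ∫ y in c..d, w y * (ei (xE N y) - ei (xU N y)) = (∫ y in c..d, w y * ei (xE N y)) - ∫ y in c..d, w y * ei (xU N y) := by
    rw [← intervalIntegral.integral_sub i0 i1]
    congr 1
    funext y
    ring
  rw [e1] at g3
  have e2 : (∫ y in c..d, w y * EE a b (fun R => f.eval (U af φ R K) - mn af φ f K) t N (Finset.range N) y) =
      ∫ y in c..d, w y * ei (t / √N * ∑ n ∈ Finset.range N, (f.eval (U af φ (pt a b n y) K) - mn af φ f K)) := by
    congr 1
    funext y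
    unfold EE ei
    congr 2
    push_cast
    ring
  rw [e2] at g2
  set I0 := ∫ y in c..d, w y * ei (xE N y)
  set I1 := ∫ y in c..d, w y * ei (xU N y)
  set I2 := ∫ y in c..d, w y * ei (t / √N * ∑ n ∈ Finset.range N, (f.eval (U af φ (pt a b n y) K) - mn af φ f K))
  set L1 := (∫ y in c..d, w y) * ((exp (-(t ^ 2 * vK af φ f K / 2)) : ℝ) : ℂ)
  set L2 := (∫ y in c..d, w y) * ((exp (-(t ^ 2 * v / 2)) : ℝ) : ℂ)
  calc ‖I0 - L2‖ = ‖(I0 - I1) + (I1 - I2) + (I2 - L1) + (L1 - L2)‖ := by congr 1; ring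
    _ ≤ ‖I0 - I1‖ + ‖I1 - I2‖ + ‖I2 - L1‖ + ‖L1 - L2‖ := by
        refine (norm_add_le _ _).trans (add_le_add ?_ le_rfl)
        exact norm_add₃_le
    _ < ε := by linarith

end Run7.h113.CL
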