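import Mathlib
import Pool.Agent.Run7.h113.CL.Char

/-!
From intervals to all measurable sets.
-/

set_option autoImplicit false

open MeasureTheory Filter Topology Set Real
open scoped ENNReal

namespace Run7.h113.CL

variable {G : ℕ → ℝ → ℂ} {C : ℝ}

lemma G_int (hm : ∀ N, Measurable (G N)) (hb : ∀ N x, ‖G N x‖ ≤ C) {A : Set ℝ} (hAf : volume A < ∞) (N : ℕ) :
    IntegrableOn (G N) A := by
  refine Measure.integrableOn_of_bounded (M := C) hAf.ne (hm N).aestronglyMeasurable ?_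
  exact Eventually.of_forall fun x => hb N x

lemma G_le (hb : ∀ N x, ‖G N x‖ ≤ C) {A : Set ℝ} (hAf : volume A < ∞) (N : ℕ) :
    ‖∫ x in A, G N x‖ ≤ C * volume.real A :=
  norm_setIntegral_le_of_norm_le_const hAf fun x _ => hb N x

/-- approximation from inside -/
lemma pr_approx (hm : ∀ N, Measurable (G N)) (hb : ∀ N x, ‖G N x‖ ≤ C) {A : Set ℝ} (hAf : volume A < ∞)
    (h : ∀ ε : ℝ, 0 < ε → ∃ B ⊆ A, MeasurableSet B ∧ volume.real (A \ B) ≤ ε ∧
      Tendsto (fun N => ∫ x in B, G N x) atTop (𝓝 0)) : Tendsto (fun N => ∫ x in A, G N x) atTop (𝓝 0) := by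
  have hC : 0 ≤ C := (norm_nonneg _).trans (hb 0 0)
  rw [Metric.tendsto_nhds]
  intro ε hε
  obtain ⟨B, hBA, hBm, hBv, hBt⟩ := h (ε / (2 * (C + 1))) (by positivity)
  rw [Metric.tendsto_nhds] at hBt
  filter_upwards [hBt (ε / 2) (by linarith)] with N hN
  rw [dist_zero_right] at hN ⊢
  have h1 : ∫ x in A, G N x = (∫ x in B, G N x) + ∫ x in A \ B, G N x := by
    rw [setIntegral_sdiff hBm (G_int hm hb hAf N) hBA]
    ring
  rw [h1]
  have h2 : ‖∫ x in A \ B, G N x‖ ≤ C * (ε / (2 * (C + 1))) := by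
    refine (G_le hb (lt_of_le_of_lt (measure_mono sdiff_subset) hAf) N).trans ?_
    exact mul_le_mul_of_nonneg_left hBv hC
  have h3 : C * (ε / (2 * (C + 1))) ≤ ε / 2 := by
    have e1 : C * (ε / (2 * (C + 1))) = ε / 2 * (C / (C + 1)) := by field_simp
    rw [e1]
    apply mul_le_of_le_one_right (by linarith)
    rw [div_le_one (by linarith)]
    linarith
  calc ‖(∫ x in B, G N x) + ∫ x in A \ B, G N x‖ ≤ ‖∫ x in B, G N x‖ + ‖∫ x in A \ B, G N x‖ := norm_add_le _ _
    _ < ε / 2 + ε / 2 := by linarith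
    _ = ε := by ring

lemma pr_Ioc (hm : ∀ N, Measurable (G N)) (hb : ∀ N x, ‖G N x‖ ≤ C)
    (h : ∀ u v : ℝ, 1 < u → u < v → Tendsto (fun N => ∫ x in Ioc u v, G N x) atTop (𝓝 0)) (v : ℝ) :
    Tendsto (fun N => ∫ x in Ioc 1 v, G N x) atTop (𝓝 0) := by
  rcases le_or_gt v 1 with hv | hv
  · rw [Ioc_eq_empty (by linarith)]
    simp
  apply pr_approx hm hb (by simp)
  intro ε hε
  refine ⟨Ioc (1 + min ε ((v - 1) / 2)) v, ?_, measurableSet_Ioc, ?_, h _ v ?_ ?_⟩
  · apply Ioc_subset_Ioc_left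
    have : 0 < min ε ((v - 1) / 2) := lt_min hε (by linarith)
    linarith
  · have h1 : Ioc 1 v \ Ioc (1 + min ε ((v - 1) / 2)) v ⊆ Ioc 1 (1 + min ε ((v - 1) / 2)) := by
      rintro x ⟨⟨hx1, hx2⟩, hx3⟩
      refine ⟨hx1, ?_⟩
      by_contra hx4
      exact hx3 ⟨not_le.mp hx4, hx2⟩
    calc volume.real (Ioc 1 v \ Ioc (1 + min ε ((v - 1) / 2)) v)
        ≤ volume.real (Ioc 1 (1 + min ε ((v - 1) / 2))) := measureReal_mono h1 (by simp)
      _ = min ε ((v - 1) / 2) := by
          rw [Real.volume_real_Ioc_of_le]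
          · ring
          · have : 0 < min ε ((v - 1) / 2) := lt_min hε (by linarith)
            linarith
      _ ≤ ε := min_le_left _ _
  · have : 0 < min ε ((v - 1) / 2) := lt_min hε (by linarith)
    linarith
  · have : min ε ((v - 1) / 2) ≤ (v - 1) / 2 := min_le_right _ _
    linarith

lemma pr_bdd (hm : ∀ N, Measurable (G N)) (hb : ∀ N x, ‖G N x‖ ≤ C)
    (h : ∀ u v : ℝ, 1 < u → u < v → Tendsto (fun N => ∫ x in Ioc u v, G N x) atTop (𝓝 0)) (T : ℝ) (B : Set ℝ)
    (hB : MeasurableSet B) : Tendsto (fun N => ∫ x in B ∩ Ioc 1 T, G N x) atTop (𝓝 0) := by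
  have hC : 0 ≤ C := (norm_nonneg _).trans (hb 0 0)
  have hfin : ∀ B : Set ℝ, volume (B ∩ Ioc 1 T) < ∞ := fun B =>
    lt_of_le_of_lt (measure_mono inter_subset_right) (by simp)
  refine MeasurableSpace.induction_on_inter
    (C := fun (B : Set ℝ) _ => Tendsto (fun N => ∫ x in B ∩ Ioc 1 T, G N x) atTop (𝓝 0))
    (borel_eq_generateFrom_Iic ℝ ▸ BorelSpace.measurable_eq) isPiSystem_Iic ?_ ?_ ?_ ?_ B hB
  · simp
  · rintro _ ⟨x, rfl⟩
    have h1 : Iic x ∩ Ioc 1 T = Ioc 1 (min x T) := by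
      ext y
      simp only [mem_inter_iff, mem_Iic, mem_Ioc, le_min_iff]
      tauto
    rw [h1]
    exact pr_Ioc hm hb h _
  · intro t ht ih
    have h1 : ∀ N, ∫ x in tᶜ ∩ Ioc 1 T, G N x = (∫ x in Ioc 1 T, G N x) - ∫ x in t ∩ Ioc 1 T, G N x := by
      intro N
      rw [← setIntegral_sdiff (ht.inter measurableSet_Ioc) (G_int hm hb (by simp) N) inter_subset_right]
      congr 2
      ext x
      simp only [mem_inter_iff, mem_compl_iff, Set.mem_sdiff]
      tauto
    simp only [h1]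
    have := (pr_Ioc hm hb h T).sub ih
    simpa using this
  · intro f hd hfm ih
    have h1 : ∀ N, ∫ x in (⋃ i, f i) ∩ Ioc 1 T, G N x = ∑' i, ∫ x in f i ∩ Ioc 1 T, G N x := by
      intro N
      rw [iUnion_inter]
      apply integral_iUnion (fun i => (hfm i).inter measurableSet_Ioc)
      · intro i j hij
        exact (hd hij).mono inter_subset_left inter_subset_left
      · rw [← iUnion_inter]
        exact G_int hm hb (hfin _) N
    simp only [h1]
    have hsum : Summable fun i => C * volume.real (f i ∩ Ioc 1 T) := by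
      apply Summable.mul_left
      refine (summable_measure_toReal (μ := volume.restrict (Ioc 1 T)) hfm hd).congr fun i => ?_
      rw [measureReal_restrict_apply (hfm i)]
    have h0 : (0:ℂ) = ∑' i : ℕ, (0:ℂ) := by simp
    rw [h0]
    apply tendsto_tsum_of_dominated_convergence hsum ih
    exact Eventually.of_forall fun N i => G_le hb (hfin _) N

/-- **all measurable sets of finite measure** -/
theorem pr_all (hm : ∀ N, Measurable (G N)) (hb : ∀ N x, ‖G N x‖ ≤ C)
    (h : ∀ u v : ℝ, 1 < u → u < v → Tendsto (fun N => ∫ x in Ioc u v, G N x) atTop (𝓝 0)) {A : Set ℝ}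
    (hA : MeasurableSet A) (hA1 : A ⊆ Ioi 1) (hAf : volume A < ∞) :
    Tendsto (fun N => ∫ x in A, G N x) atTop (𝓝 0) := by
  apply pr_approx hm hb hAf
  intro ε hε
  have h1 : Tendsto (fun n : ℕ => volume (A \ (A ∩ Ioc (1:ℝ) n))) atTop (𝓝 0) := by
    have h2 : ⋂ n : ℕ, A \ (A ∩ Ioc (1:ℝ) n) = ∅ := by
      rw [← sdiff_iUnion, ← inter_iUnion]
      apply sdiff_eq_empty.mpr
      intro x hx
      refine ⟨hx, mem_iUnion.mpr ?_⟩
      obtain ⟨n, hn⟩ := exists_nat_ge x
      exact ⟨n, hA1 hx, hn⟩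
    rw [← measure_empty (μ := (volume : Measure ℝ)), ← h2]
    apply tendsto_measure_iInter_atTop
    · intro n
      exact (hA.diff (hA.inter measurableSet_Ioc)).nullMeasurableSet
    · intro n m hnm
      apply sdiff_subset_sdiff_right
      apply inter_subset_inter_right
      apply Ioc_subset_Ioc_right
      exact_mod_cast hnm
    · exact ⟨0, (lt_of_le_of_lt (measure_mono sdiff_subset) hAf).ne⟩
  have h3 : Tendsto (fun n : ℕ => volume.real (A \ (A ∩ Ioc (1:ℝ) n))) atTop (𝓝 0) := by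
    exact (ENNReal.tendsto_toReal ENNReal.zero_ne_top).comp h1
  obtain ⟨n, hn⟩ := ((tendsto_order.mp h3).2 ε hε).exists
  refine ⟨A ∩ Ioc (1:ℝ) n, inter_subset_left, hA.inter measurableSet_Ioc, hn.le, ?_⟩
  exact pr_bdd hm hb h n A hA

end Run7.h113.CL
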