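import Mathlib
import Pool.Agent.Run7.h113.CL.Mixg

/-!
Convergence in distribution.
-/

set_option autoImplicit false

open MeasureTheory Filter Topology Set Real ProbabilityTheory
open scoped ENNReal
open Pool.Agent.H383.Gen (U Bd)
open Pool.Agent.Y969.TM
open Pool.Agent.R306.GP

namespace Run7.h113.CL

/-- the probability part -/
theorem clt_of_char {Y : ℕ → ℝ → ℝ} (hY : ∀ N, Measurable (Y N)) {A : Set ℝ} (hA : MeasurableSet A)
    (hf : volume A < ∞)
    (h : ∀ t : ℝ, Tendsto (fun N => ∫ x in A, (ei (t * Y N x) - (exp (-(t ^ 2 / 2)) : ℝ))) atTop (𝓝 0)) (x : ℝ) :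
    Tendsto (fun N => volume.real {α | α ∈ A ∧ Y N α ≤ x}) atTop
      (𝓝 (volume.real A * (gaussianReal 0 1).real (Iic x))) := by
  rcases eq_or_ne (volume A) 0 with h0 | h0
  · have e1 : ∀ N, volume.real {α | α ∈ A ∧ Y N α ≤ x} = 0 := by
      intro N
      rw [measureReal_def, measure_mono_null (fun α hα => hα.1) h0]
      rfl
    simp only [e1]
    rw [measureReal_def, h0]
    simp
  have hV : 0 < volume.real A := by
    rw [measureReal_def]
    exact ENNReal.toReal_pos h0 hf.ne
  have : IsProbabilityMeasure (ProbabilityTheory.cond volume A) := cond_isProbabilityMeasure_of_finite h0 hf.ne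
  set κ : ProbabilityMeasure ℝ := ⟨ProbabilityTheory.cond volume A, inferInstance⟩ with hκ
  set ν : ℕ → ProbabilityMeasure ℝ := fun N => κ.map (hY N).aemeasurable with hν
  set γ : ProbabilityMeasure ℝ := ⟨gaussianReal 0 1, inferInstance⟩ with hγ
  have hlim : Tendsto ν atTop (𝓝 γ) := by
    apply ProbabilityMeasure.tendsto_of_tendsto_charFun
    intro t
    have e2 : charFun (γ : Measure ℝ) t = ((exp (-(t ^ 2 / 2)) : ℝ) : ℂ) := by
      show charFun (gaussianReal 0 1) t = _
      rw [charFun_gaussianReal]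
      push_cast
      congr 1
      simp
    have e3 : ∀ N, charFun ((ν N : ProbabilityMeasure ℝ) : Measure ℝ) t = ((volume.real A : ℝ) : ℂ)⁻¹ *
        (∫ x in A, (ei (t * Y N x) - (exp (-(t ^ 2 / 2)) : ℝ))) + ((exp (-(t ^ 2 / 2)) : ℝ) : ℂ) := by
      intro N
      have i1 : IntegrableOn (fun x => ei (t * Y N x)) A := by
        refine Measure.integrableOn_of_bounded (M := 1) hf.ne ?_ ?_
        · exact (ei_cont.measurable.comp ((hY N).const_mul t)).aestronglyMeasurable
        · exact Eventually.of_forall fun x => by rw [ei_norm]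
      have i2 : IntegrableOn (fun _ : ℝ => ((exp (-(t ^ 2 / 2)) : ℝ) : ℂ)) A := by
        apply integrableOn_const hf.ne
      have e4 : charFun ((ν N : ProbabilityMeasure ℝ) : Measure ℝ) t = ((volume.real A : ℝ) : ℂ)⁻¹ *
          ∫ x in A, ei (t * Y N x) := by
        rw [charFun_apply_real]
        show ∫ x, Complex.exp (t * x * Complex.I) ∂(Measure.map (Y N) (ProbabilityTheory.cond volume A)) = _
        rw [integral_map (hY N).aemeasurable (by fun_prop)]
        rw [ProbabilityTheory.cond, integral_smul_measure]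
        rw [ENNReal.toReal_inv, ← measureReal_def]
        rw [Complex.real_smul, Complex.ofReal_inv]
        congr 1
        apply integral_congr_ae
        refine Eventually.of_forall fun x => ?_
        show Complex.exp (t * (Y N x) * Complex.I) = ei (t * Y N x)
        unfold ei
        congr 1
        push_cast
        ring
      rw [e4, integral_sub i1 i2, setIntegral_const, Complex.real_smul]
      have : ((volume.real A : ℝ) : ℂ) ≠ 0 := by exact_mod_cast hV.ne'
      field_simp
      ring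
    rw [e2]
    simp only [e3]
    have := ((h t).const_mul ((volume.real A : ℝ) : ℂ)⁻¹).add_const ((exp (-(t ^ 2 / 2)) : ℝ) : ℂ)
    simpa using this
  have hnull : (γ : Measure ℝ) (frontier (Iic x)) = 0 := by
    show gaussianReal 0 1 (frontier (Iic x)) = 0
    rw [frontier_Iic]
    have := nullSingletonClass_gaussianReal (μ := 0) (v := 1) one_ne_zero
    exact measure_singleton x
  have h1 := ProbabilityMeasure.tendsto_measure_of_null_frontier_of_tendsto' hlim hnull
  have h2 : Tendsto (fun N => ((ν N : ProbabilityMeasure ℝ) : Measure ℝ).real (Iic x)) atTop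
      (𝓝 ((gaussianReal 0 1).real (Iic x))) :=
    (ENNReal.tendsto_toReal (measure_ne_top _ _)).comp h1
  have h3 := h2.const_mul (volume.real A)
  refine h3.congr fun N => ?_
  have e5 : ((ν N : ProbabilityMeasure ℝ) : Measure ℝ) (Iic x) = (volume A)⁻¹ * volume {α | α ∈ A ∧ Y N α ≤ x} := by
    show Measure.map (Y N) (ProbabilityTheory.cond volume A) (Iic x) = _
    rw [Measure.map_apply (hY N) measurableSet_Iic, cond_apply hA]
    congr 1
  have e6 : ((ν N : ProbabilityMeasure ℝ) : Measure ℝ).real (Iic x) = (volume.real A)⁻¹ * volume.real {α | α ∈ A ∧ Y N α ≤ x} := by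
    rw [measureReal_def, e5, ENNReal.toReal_mul, ENNReal.toReal_inv, ← measureReal_def, ← measureReal_def]
  rw [e6]
  field_simp

lemma exp_image {c d : ℝ} : exp '' (Ioc c d) = Ioc (exp c) (exp d) := by
  ext x
  constructor
  · rintro ⟨y, ⟨h1, h2⟩, rfl⟩
    exact ⟨exp_lt_exp.mpr h1, exp_le_exp.mpr h2⟩
  · rintro ⟨h1, h2⟩
    have hx : 0 < x := (exp_pos c).trans h1
    refine ⟨log x, ⟨?_, ?_⟩, exp_log hx⟩
    · rwa [lt_log_iff_exp_lt hx]
    · rwa [log_le_iff_le_exp hx]

lemma subst_exp (c d : ℝ) (g : ℝ → ℂ) : ∫ x in Ioc (exp c) (exp d), g x = ∫ y in Ioc c d, (exp y : ℂ) * g (exp y) := by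
  rw [← exp_image, integral_image_eq_integral_abs_deriv_smul measurableSet_Ioc
    (fun x _ => (Real.hasDerivAt_exp x).hasDerivWithinAt) (Real.exp_injective.injOn)]
  apply integral_congr_ae
  refine Eventually.of_forall fun y => ?_
  simp only [abs_of_pos (exp_pos y), Complex.real_smul, Complex.ofReal_exp]

lemma am_exp (c d : ℝ) : Am c d (exp d) (exp d) (fun y => ((exp y : ℝ) : ℂ)) (fun y => ((exp y : ℝ) : ℂ)) where
  der y := (Real.hasDerivAt_exp y).ofReal_comp
  cont := by fun_prop
  bd y hy := by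
    rw [Complex.norm_real, Real.norm_of_nonneg (exp_pos y).le]
    exact exp_le_exp.mpr hy.2
  bd' y hy := by
    rw [Complex.norm_real, Real.norm_of_nonneg (exp_pos y).le]
    exact exp_le_exp.mpr hy.2

variable {E : ℝ → ℝ} {af : ℕ → ℝ} {φ : ℝ} {a b : ℕ → ℝ} {δ : ℝ}

/-- **the central limit theorem with mixing** -/
theorem clt_mix {μ : ProbabilityMeasure ℝ} (hL : Lw af φ μ) (hX : Ctx E af φ) (h : Sq a b δ) (f : Polynomial ℝ)
    {m v : ℝ} (hm : m = ∫ x, f.eval x ∂(μ : Measure ℝ)) (hv : v = (∫ x, f.eval x ^ 2 ∂(μ : Measure ℝ)) - m ^ 2)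
    (hv0 : 0 < v) {A : Set ℝ} (hA : MeasurableSet A) (hA1 : A ⊆ Ioi 1) (hAf : volume A < ∞) (t : ℝ) :
    Tendsto (fun N : ℕ => ∫ α in A, (ei (t * ((∑ n ∈ Finset.range N, (f.eval (E (b n * α ^ a n)) - m)) / √(v * N))) -
      (exp (-(t ^ 2 / 2)) : ℝ))) atTop (𝓝 0) := by
  set Y : ℕ → ℝ → ℝ := fun N α => (∑ n ∈ Finset.range N, (f.eval (E (b n * α ^ a n)) - m)) / √(v * N) with hYd
  have hYm : ∀ N, Measurable (Y N) := by
    intro N
    apply Measurable.div_const
    apply Finset.measurable_sum
    intro n _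
    have h1 : Measurable fun α : ℝ => b n * α ^ a n := (measurable_id.pow_const _).const_mul _
    exact (f.continuous.measurable.comp (hX.meas.comp h1)).sub_const _
  have hG : ∀ N, Measurable fun α => ei (t * Y N α) - ((exp (-(t ^ 2 / 2)) : ℝ) : ℂ) := fun N =>
    (ei_cont.measurable.comp ((hYm N).const_mul t)).sub_const _
  have hb : ∀ N α, ‖ei (t * Y N α) - ((exp (-(t ^ 2 / 2)) : ℝ) : ℂ)‖ ≤ 2 := by
    intro N α
    refine (norm_sub_le _ _).trans ?_
    rw [ei_norm, Complex.norm_real, Real.norm_of_nonneg (exp_pos _).le]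
    have : exp (-(t ^ 2 / 2)) ≤ 1 := Real.exp_le_one_iff.mpr (by have := sq_nonneg t; linarith)
    linarith
  apply pr_all hG hb _ hA hA1 hAf
  intro u w hu huw
  have hu0 : 0 < u := by linarith
  have hw0 : 0 < w := by linarith
  have hc : 0 < log u := Real.log_pos hu
  have hcd : log u < log w := Real.log_lt_log hu0 huw
  have h1 := clt_char hL hX h hc hcd (am_exp (log u) (log w)) f (t / √v)
  have e1 : ∀ N : ℕ, ∫ α in Ioc u w, (ei (t * Y N α) - ((exp (-(t ^ 2 / 2)) : ℝ) : ℂ)) =
      (∫ y in (log u)..(log w), ((exp y : ℝ) : ℂ) * ei (t / √v / √N * ∑ n ∈ Finset.range N, (f.eval (E (pt a b n y)) -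
        ∫ x, f.eval x ∂(μ : Measure ℝ)))) - (∫ y in (log u)..(log w), ((exp y : ℝ) : ℂ)) * ((exp (-(t ^ 2 / 2)) : ℝ) : ℂ) := by
    intro N
    have e2 : Ioc u w = Ioc (exp (log u)) (exp (log w)) := by rw [exp_log hu0, exp_log hw0]
    rw [e2, subst_exp, intervalIntegral.integral_of_le hcd.le, intervalIntegral.integral_of_le hcd.le,
      ← integral_mul_const, ← integral_sub]
    · apply integral_congr_ae
      refine Eventually.of_forall fun y => ?_
      have e3 : t * Y N (exp y) = t / √v / √N * ∑ n ∈ Finset.range N, (f.eval (E (pt a b n y)) -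
        ∫ x, f.eval x ∂(μ : Measure ℝ)) := by
        simp only [hYd]
        rw [Real.sqrt_mul hv0.le]
        have e4 : ∀ n, b n * exp y ^ a n = pt a b n y := by
          intro n
          unfold pt
          rw [← Real.exp_mul, mul_comm y]
        simp only [e4, ← hm]
        ring
      simp only [e3, Complex.ofReal_exp]
      ring
    · have i1 : Measurable fun y : ℝ => ((exp y : ℝ) : ℂ) := by fun_prop
      refine Measure.integrableOn_of_bounded (M := exp (log w)) (by simp) ?_ ?_
      · refine Measurable.aestronglyMeasurable (i1.mul (ei_cont.measurable.comp (Measurable.const_mul ?_ _)))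
        exact Finset.measurable_sum _ fun n _ => (f.continuous.measurable.comp (pt_meas hX.meas n)).sub_const _
      · rw [ae_restrict_iff' measurableSet_Ioc]
        refine Eventually.of_forall fun y hy => ?_
        rw [norm_mul, ei_norm, mul_one]
        exact (am_exp (log u) (log w)).bd y ⟨hy.1.le, hy.2⟩
    · have i1 : Continuous fun y : ℝ => ((exp y : ℝ) : ℂ) * ((exp (-(t ^ 2 / 2)) : ℝ) : ℂ) := by fun_prop
      exact i1.integrableOn_Ioc
  simp only [e1]
  have h2 := h1.sub_const ((∫ y in (log u)..(log w), ((exp y : ℝ) : ℂ)) * ((exp (-(t ^ 2 / 2)) : ℝ) : ℂ))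
  have e5 : (t / √v) ^ 2 * ((∫ x, f.eval x ^ 2 ∂(μ : Measure ℝ)) - (∫ x, f.eval x ∂(μ : Measure ℝ)) ^ 2) / 2 = t ^ 2 / 2 := by
    rw [← hm, ← hv, div_pow, Real.sq_sqrt hv0.le]
    field_simp
  rw [e5, sub_self] at h2
  exact h2

end Run7.h113.CL
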