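import Mathlib
import Pool.Agent.Run7.h113.CL.Dist

/-!
The maximal inequality of Rademacher and Menshov, and the almost everywhere rate.
-/

set_option autoImplicit false

open MeasureTheory Filter Topology Set Real
open scoped ENNReal
open Pool.Agent.H469R2.NK (e norm_e e_add conj_e e_zero)
open Pool.Agent.H383.Gen (U Bd)
open Pool.Agent.Y969.TM
open Pool.Agent.R306.GP

namespace Run7.h113.CL

/-- the dyadic block sums of length `2 ^ k` -/
noncomputable def Qb (J k : ℕ) (x : ℕ → ℝ) : ℝ :=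
  ∑ j ∈ Finset.range (2 ^ (J - k)), (∑ n ∈ Finset.range (2 ^ k), x (j * 2 ^ k + n)) ^ 2

lemma Qb_nonneg (J k : ℕ) (x : ℕ → ℝ) : 0 ≤ Qb J k x := Finset.sum_nonneg fun _ _ => sq_nonneg _

lemma Qb_succ {J k : ℕ} (x : ℕ → ℝ) : Qb J k x ≤ Qb (J + 1) k x := by
  unfold Qb
  apply Finset.sum_le_sum_of_subset_of_nonneg
  · apply Finset.range_subset_range.mpr
    exact Nat.pow_le_pow_right (by norm_num) (by omega)
  · intro _ _ _
    exact sq_nonneg _

lemma Qb_shift {J k : ℕ} (hk : k ≤ J) (x : ℕ → ℝ) : Qb J k (fun n => x (2 ^ J + n)) ≤ Qb (J + 1) k x := by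
  unfold Qb
  have e1 : 2 ^ (J + 1 - k) = 2 ^ (J - k) + 2 ^ (J - k) := by
    rw [show J + 1 - k = (J - k) + 1 by omega, pow_succ]; ring
  rw [e1, Finset.sum_range_add]
  have e2 : ∀ j n : ℕ, x ((2 ^ (J - k) + j) * 2 ^ k + n) = x (2 ^ J + (j * 2 ^ k + n)) := by
    intro j n
    congr 1
    rw [add_mul, ← pow_add, Nat.sub_add_cancel hk]
    ring
  simp only [e2]
  have : 0 ≤ ∑ j ∈ Finset.range (2 ^ (J - k)), (∑ n ∈ Finset.range (2 ^ k), x (j * 2 ^ k + n)) ^ 2 :=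
    Finset.sum_nonneg fun _ _ => sq_nonneg _
  linarith

/-- dyadic decomposition -/
lemma rm_lin (J : ℕ) : ∀ (x : ℕ → ℝ) (N : ℕ), N < 2 ^ J → |∑ n ∈ Finset.range N, x n| ≤ ∑ k ∈ Finset.range J, √(Qb J k x) := by
  induction J with
  | zero =>
    intro x N hN
    have : N = 0 := by simpa using hN
    subst this
    simp
  | succ J ih =>
    intro x N hN
    rw [Finset.sum_range_succ]
    rcases Nat.lt_or_ge N (2 ^ J) with h1 | h1
    · have h2 := ih x N h1
      have h3 : ∑ k ∈ Finset.range J, √(Qb J k x) ≤ ∑ k ∈ Finset.range J, √(Qb (J + 1) k x) :=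
        Finset.sum_le_sum fun k _ => Real.sqrt_le_sqrt (Qb_succ x)
      have h4 := Real.sqrt_nonneg (Qb (J + 1) J x)
      linarith
    · have hN' : N - 2 ^ J < 2 ^ J := by rw [pow_succ] at hN; omega
      have h2 := ih (fun n => x (2 ^ J + n)) (N - 2 ^ J) hN'
      have e1 : ∑ n ∈ Finset.range N, x n = ∑ n ∈ Finset.range (2 ^ J), x n + ∑ n ∈ Finset.range (N - 2 ^ J), x (2 ^ J + n) := by
        conv_lhs => rw [show N = 2 ^ J + (N - 2 ^ J) by omega]
        rw [Finset.sum_range_add]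
      have h3 : ∑ k ∈ Finset.range J, √(Qb J k (fun n => x (2 ^ J + n))) ≤ ∑ k ∈ Finset.range J, √(Qb (J + 1) k x) :=
        Finset.sum_le_sum fun k hk => Real.sqrt_le_sqrt (Qb_shift (Finset.mem_range.mp hk).le x)
      have h4 : |∑ n ∈ Finset.range (2 ^ J), x n| ≤ √(Qb (J + 1) J x) := by
        apply Real.abs_le_sqrt
        unfold Qb
        have h5 := Finset.single_le_sum (f := fun j => (∑ n ∈ Finset.range (2 ^ J), x (j * 2 ^ J + n)) ^ 2)
          (s := Finset.range (2 ^ (J + 1 - J))) (fun _ _ => sq_nonneg _) (Finset.mem_range.mpr (show 0 < 2 ^ (J + 1 - J) by positivity))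
        simpa using h5
      rw [e1]
      have := abs_add_le (∑ n ∈ Finset.range (2 ^ J), x n) (∑ n ∈ Finset.range (N - 2 ^ J), x (2 ^ J + n))
      linarith

/-- the maximal inequality -/
lemma rm_sq (J : ℕ) (x : ℕ → ℝ) {N : ℕ} (hN : N < 2 ^ J) :
    (∑ n ∈ Finset.range N, x n) ^ 2 ≤ J * ∑ k ∈ Finset.range J, Qb J k x := by
  have h1 := rm_lin J x N hN
  have h2 : (∑ n ∈ Finset.range N, x n) ^ 2 ≤ (∑ k ∈ Finset.range J, √(Qb J k x)) ^ 2 := by
    rw [← sq_abs]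
    exact pow_le_pow_left₀ (abs_nonneg _) h1 2
  refine h2.trans ?_
  have h3 := sq_sum_le_card_mul_sum_sq (s := Finset.range J) (f := fun k => √(Qb J k x))
  rw [Finset.card_range] at h3
  refine h3.trans (le_of_eq ?_)
  congr 1
  exact Finset.sum_congr rfl fun k _ => Real.sq_sqrt (Qb_nonneg J k x)

variable {E : ℝ → ℝ} {af : ℕ → ℝ} {φ : ℝ} {a b : ℕ → ℝ} {δ c d : ℝ}

/-- the centred polynomials in the truncations -/
noncomputable def Tn (af : ℕ → ℝ) (φ : ℝ) (f : Polynomial ℝ) (p n : ℕ) (R : ℝ) : ℝ :=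
  f.eval (U af φ R ((n + 1) ^ p)) - mn af φ f ((n + 1) ^ p)

lemma Tn_tp (ha : Bd af) (φ : ℝ) (f : Polynomial ℝ) (p : ℕ) : ∃ (C : ℝ) (q : ℕ), 1 ≤ C ∧
    ∀ n : ℕ, IsTP (C * ((n:ℝ) + 1) ^ q) (C * ((n:ℝ) + 1) ^ q) (fun R => ((Tn af φ f p n R : ℝ) : ℂ)) := by
  obtain ⟨C, q, hC, hq, h⟩ := tp_poly ha φ f
  refine ⟨C, p * q, hC, fun n => ?_⟩
  have h1 := h ((n + 1) ^ p) (Nat.one_le_pow _ _ (by omega))
  have e1 : C * ((((n + 1) ^ p : ℕ)) : ℝ) ^ q = C * ((n:ℝ) + 1) ^ (p * q) := by push_cast; rw [← pow_mul]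
  rw [e1] at h1
  exact h1

lemma Tn_cont (af : ℕ → ℝ) (φ : ℝ) (f : Polynomial ℝ) (p n : ℕ) (a b : ℕ → ℝ) :
    Continuous fun y => Tn af φ f p n (pt a b n y) := by
  unfold Tn
  exact (Udiff_cont f af φ a b n _).sub continuous_const

/-- the second moments are bounded -/
lemma Tn_bd (hX : Ctx E af φ) (h : Sq a b δ) (hc : 0 < c) (hcd : c < d) {p : ℕ} (hp1 : 1 ≤ p) (f : Polynomial ℝ) :
    ∃ C : ℝ, 0 < C ∧ ∀ n : ℕ, ∫ y in c..d, (Tn af φ f p n (pt a b n y)) ^ 2 ≤ C := by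
  obtain ⟨C1, hC1, n1, h1⟩ := cmp_sq hX h hc hcd.le hp1 f
  obtain ⟨C2, hC2, n2, h2⟩ := mn_cmp hX h hc hcd hp1 f
  obtain ⟨C3, q, hC3, hq, h3⟩ := tp_poly hX.bd φ f
  have hdc : 0 < d - c := by linarith
  set F : ℕ → ℝ := fun n => ∫ y in c..d, (Tn af φ f p n (pt a b n y)) ^ 2 with hF
  have hF0 : ∀ n, 0 ≤ F n := fun n => intervalIntegral.integral_nonneg hcd.le fun y _ => sq_nonneg _
  set n0 := max n1 n2 with hn0
  refine ⟨3 * C1 + 3 * (d - c) * C2 ^ 2 + 3 * (d - c) * C3 ^ 2 + ∑ n ∈ Finset.range n0, F n, by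
    have := Finset.sum_nonneg fun n (_ : n ∈ Finset.range n0) => hF0 n
    positivity, fun n => ?_⟩
  have hS0 := Finset.sum_nonneg fun n (_ : n ∈ Finset.range n0) => hF0 n
  rcases Nat.lt_or_ge n n0 with hn | hn
  · have k1 : F n ≤ ∑ n ∈ Finset.range n0, F n :=
      Finset.single_le_sum (fun n _ => hF0 n) (Finset.mem_range.mpr hn)
    have : 0 ≤ 3 * C1 + 3 * (d - c) * C2 ^ 2 + 3 * (d - c) * C3 ^ 2 := by positivity
    show F n ≤ _
    linarith
  · have k1 := h1 n ((le_max_left _ _).trans hn) 1 le_rfl (by omega)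
    have k2 := h2 n ((le_max_right _ _).trans hn) 1 le_rfl (by omega)
    rw [Nat.cast_one, Real.one_rpow, mul_one] at k1 k2
    set u : ℝ → ℝ := fun y => f.eval (U af φ (pt a b n y) ((n + 1) ^ p)) - f.eval (U af φ (pt a b n y) 1) with hu
    set v := mn af φ f ((n + 1) ^ p) - mn af φ f 1 with hv
    have huc : Continuous u := (Udiff_cont f af φ a b n _).sub (Udiff_cont f af φ a b n _)
    have k3 : v ^ 2 ≤ C2 ^ 2 := by
      rw [← sq_abs]
      exact pow_le_pow_left₀ (abs_nonneg _) k2 2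
    have k4 : ∀ y, (f.eval (U af φ (pt a b n y) 1) - mn af φ f 1) ^ 2 ≤ C3 ^ 2 := by
      intro y
      have := (h3 1 le_rfl).norm_le (pt a b n y)
      rw [Nat.cast_one, one_pow, mul_one, Complex.norm_real, Real.norm_eq_abs] at this
      rw [← sq_abs]
      exact pow_le_pow_left₀ (abs_nonneg _) this 2
    show F n ≤ _
    calc F n ≤ ∫ y in c..d, (3 * (u y) ^ 2 + (3 * C2 ^ 2 + 3 * C3 ^ 2)) := by
          apply intervalIntegral.integral_mono_on hcd.le
          · exact ((Tn_cont af φ f p n a b).pow 2).intervalIntegrable _ _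
          · exact ((continuous_const.mul (huc.pow 2)).add continuous_const).intervalIntegrable _ _
          · intro y _
            have e1 : Tn af φ f p n (pt a b n y) = u y - v + (f.eval (U af φ (pt a b n y) 1) - mn af φ f 1) := by
              unfold Tn
              simp only [hu, hv]
              ring
            rw [e1]
            have := k4 y
            set z := f.eval (U af φ (pt a b n y) 1) - mn af φ f 1
            nlinarith [sq_nonneg (u y + v), sq_nonneg (u y - z), sq_nonneg (v + z)]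
      _ = 3 * (∫ y in c..d, (u y) ^ 2) + (d - c) * (3 * C2 ^ 2 + 3 * C3 ^ 2) := by
          rw [intervalIntegral.integral_add, intervalIntegral.integral_const_mul, intervalIntegral.integral_const, smul_eq_mul]
          · exact (continuous_const.mul (huc.pow 2)).intervalIntegrable _ _
          · exact continuous_const.intervalIntegrable _ _
      _ ≤ 3 * C1 + (d - c) * (3 * C2 ^ 2 + 3 * C3 ^ 2) := by linarith
      _ ≤ _ := by linarith

/-- the sums over sets -/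
lemma Tn_sum (hX : Ctx E af φ) (h : Sq a b δ) (hc : 0 < c) (hcd : c < d) {p : ℕ} (hp1 : 1 ≤ p) (f : Polynomial ℝ) :
    ∃ C : ℝ, 0 < C ∧ ∀ S : Finset ℕ, S.Nonempty →
      ∫ y in c..d, (∑ n ∈ S, Tn af φ f p n (pt a b n y)) ^ 2 ≤ C * S.card := by
  obtain ⟨C1, hC1, h1⟩ := Tn_bd hX h hc hcd hp1 f
  obtain ⟨Ct, q, hCt, htp⟩ := Tn_tp hX.bd φ f p
  obtain ⟨Co, hCo, horth⟩ := orth h hc hcd.le hCt q
  refine ⟨C1 + Co, by linarith, fun S hS => ?_⟩
  have h3 := horth (fun n R => ((Tn af φ f p n R : ℝ) : ℂ)) htp S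
  have e1 : ∀ y, ‖∑ n ∈ S, ((Tn af φ f p n (pt a b n y) : ℝ) : ℂ)‖ ^ 2 = (∑ n ∈ S, Tn af φ f p n (pt a b n y)) ^ 2 := by
    intro y
    rw [← Complex.ofReal_sum, Complex.norm_real, Real.norm_eq_abs, sq_abs]
  have e2 : ∀ n y, ‖((Tn af φ f p n (pt a b n y) : ℝ) : ℂ)‖ ^ 2 = (Tn af φ f p n (pt a b n y)) ^ 2 := by
    intro n y
    rw [Complex.norm_real, Real.norm_eq_abs, sq_abs]
  simp only [e1, e2] at h3
  refine h3.trans ?_
  have hcard : (1:ℝ) ≤ S.card := by exact_mod_cast hS.card_pos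
  have h4 : ∑ n ∈ S, (∫ y in c..d, (Tn af φ f p n (pt a b n y)) ^ 2) ≤ C1 * S.card := by
    refine (Finset.sum_le_sum fun n _ => h1 n).trans (le_of_eq ?_)
    rw [Finset.sum_const, nsmul_eq_mul, mul_comm]
  have h5 : Co ≤ Co * S.card := le_mul_of_one_le_right hCo hcard
  linarith

/-- the square function -/
noncomputable def Qs (a b : ℕ → ℝ) (af : ℕ → ℝ) (φ : ℝ) (f : Polynomial ℝ) (p J : ℕ) (y : ℝ) : ℝ :=
  ∑ k ∈ Finset.range J, Qb J k (fun n => Tn af φ f p n (pt a b n y))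

lemma Qs_cont (a b : ℕ → ℝ) (af : ℕ → ℝ) (φ : ℝ) (f : Polynomial ℝ) (p J : ℕ) : Continuous (Qs a b af φ f p J) := by
  unfold Qs Qb
  refine continuous_finsetSum _ fun k _ => continuous_finsetSum _ fun j _ => Continuous.pow ?_ 2
  exact continuous_finsetSum _ fun n _ => Tn_cont af φ f p _ a b

lemma Qs_int (hX : Ctx E af φ) (h : Sq a b δ) (hc : 0 < c) (hcd : c < d) {p : ℕ} (hp1 : 1 ≤ p) (f : Polynomial ℝ) :
    ∃ C : ℝ, 0 < C ∧ ∀ J : ℕ, ∫ y in c..d, Qs a b af φ f p J y ≤ C * (J * 2 ^ J) := by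
  obtain ⟨C, hC, h1⟩ := Tn_sum hX h hc hcd hp1 f
  refine ⟨C, hC, fun J => ?_⟩
  unfold Qs Qb
  rw [intervalIntegral.integral_finsetSum]
  · have h2 : ∀ k ∈ Finset.range J, ∫ y in c..d, ∑ j ∈ Finset.range (2 ^ (J - k)), (∑ n ∈ Finset.range (2 ^ k),
        Tn af φ f p (j * 2 ^ k + n) (pt a b (j * 2 ^ k + n) y)) ^ 2 ≤ C * 2 ^ J := by
      intro k hk
      rw [intervalIntegral.integral_finsetSum]
      · have h3 : ∀ j ∈ Finset.range (2 ^ (J - k)), ∫ y in c..d, (∑ n ∈ Finset.range (2 ^ k),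
            Tn af φ f p (j * 2 ^ k + n) (pt a b (j * 2 ^ k + n) y)) ^ 2 ≤ C * 2 ^ k := by
          intro j _
          have h4 := h1 ((Finset.range (2 ^ k)).map ⟨fun n => j * 2 ^ k + n, fun x y hxy => by simpa using hxy⟩)
            (by
              apply Finset.Nonempty.map
              exact Finset.nonempty_range_iff.mpr (by positivity))
          simp only [Finset.sum_map, Function.Embedding.coeFn_mk, Finset.card_map, Finset.card_range] at h4
          push_cast at h4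
          exact h4
        refine (Finset.sum_le_sum h3).trans (le_of_eq ?_)
        rw [Finset.sum_const, Finset.card_range, nsmul_eq_mul]
        push_cast
        rw [mul_left_comm, ← pow_add, Nat.sub_add_cancel (Finset.mem_range.mp hk).le]
      · intro j _
        exact ((continuous_finsetSum _ fun n _ => Tn_cont af φ f p _ a b).pow 2).intervalIntegrable _ _
    refine (Finset.sum_le_sum h2).trans (le_of_eq ?_)
    rw [Finset.sum_const, Finset.card_range, nsmul_eq_mul]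
    ring
  · intro k _
    refine Continuous.intervalIntegrable (continuous_finsetSum _ fun j _ => Continuous.pow ?_ 2) _ _
    exact continuous_finsetSum _ fun n _ => Tn_cont af φ f p _ a b

/-- the almost everywhere bound for the truncations -/
lemma rm_ae (hX : Ctx E af φ) (h : Sq a b δ) (hc : 0 < c) (hcd : c < d) {p : ℕ} (hp1 : 1 ≤ p) (f : Polynomial ℝ) :
    ∀ᵐ y ∂(volume.restrict (Icc c d)),
      Tendsto (fun N : ℕ => (∑ n ∈ Finset.range N, Tn af φ f p n (pt a b n y)) / (√N * log N ^ 2)) atTop (𝓝 0) := by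
  obtain ⟨C, hC, h1⟩ := Qs_int hX h hc hcd hp1 f
  have hs : Summable fun J : ℕ => C * (((J:ℝ) + 1) ^ 2)⁻¹ := by
    have h2 : Summable fun n : ℕ => ((n:ℝ) ^ 2)⁻¹ := Real.summable_nat_pow_inv.mpr (by norm_num)
    have h3 := ((summable_nat_add_iff 1).mpr h2).mul_left C
    simpa using h3
  have h2 := ae_zero' hcd.le (g := fun J y => Qs a b af φ f p J y / (2 ^ J * ((J:ℝ) + 1) ^ 3))
    (fun J => (Qs_cont a b af φ f p J).div_const _) hs (j0 := 0) (fun J _ => by
      simp only [div_eq_mul_inv]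
      rw [intervalIntegral.integral_mul_const]
      have h3 := h1 J
      have h4 : (∫ y in c..d, Qs a b af φ f p J y) * (2 ^ J * ((J:ℝ) + 1) ^ 3)⁻¹ ≤
          C * (J * 2 ^ J) * (2 ^ J * ((J:ℝ) + 1) ^ 3)⁻¹ := mul_le_mul_of_nonneg_right h3 (by positivity)
      refine h4.trans ?_
      have e1 : C * (J * 2 ^ J) * (2 ^ J * ((J:ℝ) + 1) ^ 3)⁻¹ = C * (J * (((J:ℝ) + 1) ^ 3)⁻¹) := by
        field_simp
      rw [e1]
      apply mul_le_mul_of_nonneg_left _ hC.le
      rw [← div_eq_mul_inv, div_le_iff₀ (by positivity)]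
      have e2 : (((J:ℝ) + 1) ^ 2)⁻¹ * ((J:ℝ) + 1) ^ 3 = (J:ℝ) + 1 := by field_simp
      rw [e2]
      linarith)
    (fun J y => by
      apply div_nonneg _ (by positivity)
      unfold Qs
      exact Finset.sum_nonneg fun k _ => Qb_nonneg _ _ _)
  filter_upwards [h2] with y hy
  -- the index of the dyadic block
  set S : ℕ → ℝ := fun N => ∑ n ∈ Finset.range N, Tn af φ f p n (pt a b n y) with hS
  have hlog2 : 0 < Real.log 2 := Real.log_pos (by norm_num)
  have hlim : Tendsto (fun N : ℕ => (Qs a b af φ f p (Nat.log 2 N + 1) y /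
      (2 ^ (Nat.log 2 N + 1) * (((Nat.log 2 N + 1 : ℕ):ℝ) + 1) ^ 3))) atTop (𝓝 0) := by
    apply hy.comp
    apply tendsto_atTop_mono' (f₁ := fun N : ℕ => Nat.log 2 N)
    · exact Eventually.of_forall fun N => Nat.le_succ _
    · apply tendsto_atTop_atTop.mpr
      intro B
      refine ⟨2 ^ B, fun N hN => ?_⟩
      exact (Nat.le_log_iff_pow_le (by norm_num) (by have := Nat.one_le_two_pow (n := B); omega)).mpr hN
  have hlim2 : Tendsto (fun N : ℕ => √(2 * (3 / Real.log 2) ^ 4 * (Qs a b af φ f p (Nat.log 2 N + 1) y /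
      (2 ^ (Nat.log 2 N + 1) * (((Nat.log 2 N + 1 : ℕ):ℝ) + 1) ^ 3)))) atTop (𝓝 0) := by
    have h3 := (Real.continuous_sqrt.tendsto (2 * (3 / Real.log 2) ^ 4 * 0)).comp (hlim.const_mul (2 * (3 / Real.log 2) ^ 4))
    rw [mul_zero, Real.sqrt_zero] at h3
    exact h3
  refine squeeze_zero_norm' ?_ hlim2
  filter_upwards [eventually_ge_atTop 2] with N hN
  set J := Nat.log 2 N + 1 with hJ
  have hN0 : (0:ℝ) < N := by exact_mod_cast (by omega : 0 < N)
  have hN2 : (2:ℝ) ≤ N := by exact_mod_cast hN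
  have hL : Real.log 2 ≤ Real.log N := Real.log_le_log (by norm_num) hN2
  have hL0 : 0 < Real.log N := by linarith
  have hNJ : N < 2 ^ J := Nat.lt_pow_succ_log_self (by norm_num) N
  have hJN : 2 ^ (Nat.log 2 N) ≤ N := Nat.pow_log_le_self 2 (by omega)
  have hJN' : (2:ℝ) ^ (Nat.log 2 N) ≤ N := by exact_mod_cast hJN
  have h2J : (2:ℝ) ^ J ≤ 2 * N := by
    rw [hJ, pow_succ]
    linarith
  have hJl : (Nat.log 2 N : ℝ) ≤ Real.log N / Real.log 2 := by
    rw [le_div_iff₀ hlog2, ← Real.log_pow]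
    exact Real.log_le_log (by positivity) hJN'
  have hJ1 : (J:ℝ) + 1 ≤ 3 / Real.log 2 * Real.log N := by
    have h3 : 1 ≤ Real.log N / Real.log 2 := by rwa [le_div_iff₀ hlog2, one_mul]
    have h4 : 3 / Real.log 2 * Real.log N = 3 * (Real.log N / Real.log 2) := by ring
    rw [h4, hJ]
    push_cast
    linarith
  have hrm := rm_sq J (fun n => Tn af φ f p n (pt a b n y)) hNJ
  have hQ0 : 0 ≤ Qs a b af φ f p J y := Finset.sum_nonneg fun k _ => Qb_nonneg _ _ _
  rw [norm_div, Real.norm_eq_abs, Real.norm_of_nonneg (by positivity : 0 ≤ √(N:ℝ) * Real.log N ^ 2)]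
  apply Real.le_sqrt_of_sq_le
  rw [div_pow, sq_abs, mul_pow, Real.sq_sqrt hN0.le, ← pow_mul]
  rw [div_le_iff₀ (by positivity)]
  have h5 : (S N) ^ 2 ≤ J * Qs a b af φ f p J y := hrm
  refine h5.trans ?_
  have hJ0 : (0:ℝ) ≤ J := Nat.cast_nonneg J
  have h6 : (J:ℝ) * (2 ^ J * ((J:ℝ) + 1) ^ 3) ≤ 2 * (3 / Real.log 2) ^ 4 * (N * Real.log N ^ (2 * 2)) := by
    calc (J:ℝ) * (2 ^ J * ((J:ℝ) + 1) ^ 3) ≤ ((J:ℝ) + 1) * ((2 * N) * ((J:ℝ) + 1) ^ 3) := by
          apply mul_le_mul (by linarith) _ (by positivity) (by positivity)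
          exact mul_le_mul_of_nonneg_right h2J (by positivity)
      _ = 2 * N * ((J:ℝ) + 1) ^ 4 := by ring
      _ ≤ 2 * N * (3 / Real.log 2 * Real.log N) ^ 4 := by
          apply mul_le_mul_of_nonneg_left _ (by positivity)
          exact pow_le_pow_left₀ (by positivity) hJ1 4
      _ = _ := by ring
  have hD : (0:ℝ) < 2 ^ J * ((J:ℝ) + 1) ^ 3 := by positivity
  calc (J:ℝ) * Qs a b af φ f p J y = ((J:ℝ) * (2 ^ J * ((J:ℝ) + 1) ^ 3)) * (Qs a b af φ f p J y / (2 ^ J * ((J:ℝ) + 1) ^ 3)) := by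
        field_simp
    _ ≤ (2 * (3 / Real.log 2) ^ 4 * (N * Real.log N ^ (2 * 2))) * (Qs a b af φ f p J y / (2 ^ J * ((J:ℝ) + 1) ^ 3)) :=
        mul_le_mul_of_nonneg_right h6 (div_nonneg hQ0 hD.le)
    _ = _ := by ring

/-- **the almost everywhere rate, on an interval** -/
theorem rate_Icc {μ : ProbabilityMeasure ℝ} (hL : Lw af φ μ) (hX : Ctx E af φ) (h : Sq a b δ) (hc : 0 < c) (hcd : c < d)
    (f : Polynomial ℝ) : ∀ᵐ y ∂(volume.restrict (Icc c d)),
      Tendsto (fun N : ℕ => (∑ n ∈ Finset.range N, (f.eval (E (pt a b n y)) - ∫ x, f.eval x ∂(μ : Measure ℝ))) /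
        (√N * log N ^ 2)) atTop (𝓝 0) := by
  obtain ⟨p, hp1, hp2, hp3⟩ : ∃ p : ℕ, 200 * (4 * f.natDegree + 6) ≤ p ∧ 3200 ≤ p ∧ 1 ≤ p :=
    ⟨200 * (4 * f.natDegree + 6) + 3200, by omega, by omega, by omega⟩
  set m := ∫ x, f.eval x ∂(μ : Measure ℝ) with hm
  have hsm := mn_summable hL hX h hc hcd f hp2
  filter_upwards [ae_sum hX h hc hcd.le f hp1, rm_ae hX h hc hcd hp3 f] with y hy1 hy2
  set B := (∑' n : ℕ, |f.eval (E (pt a b n y)) - f.eval (U af φ (pt a b n y) ((n + 1) ^ p))|) +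
    ∑' n : ℕ, |mn af φ f ((n + 1) ^ p) - m| with hB
  have hB0 : 0 ≤ B := add_nonneg (tsum_nonneg fun _ => abs_nonneg _) (tsum_nonneg fun _ => abs_nonneg _)
  have hden : Tendsto (fun N : ℕ => √(N:ℝ) * Real.log N ^ 2) atTop atTop := by
    apply Tendsto.atTop_mul_atTop₀
    · exact Real.tendsto_sqrt_atTop.comp tendsto_natCast_atTop_atTop
    · exact (tendsto_pow_atTop (by norm_num)).comp (Real.tendsto_log_atTop.comp tendsto_natCast_atTop_atTop)
  have h1 : Tendsto (fun N : ℕ => B / (√(N:ℝ) * Real.log N ^ 2)) atTop (𝓝 0) := hden.const_div_atTop B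
  have h2 : Tendsto (fun N : ℕ => ((∑ n ∈ Finset.range N, (f.eval (E (pt a b n y)) - m)) -
      ∑ n ∈ Finset.range N, Tn af φ f p n (pt a b n y)) / (√(N:ℝ) * Real.log N ^ 2)) atTop (𝓝 0) := by
    refine squeeze_zero_norm (fun N => ?_) h1
    rw [norm_div, Real.norm_of_nonneg (by positivity : 0 ≤ √(N:ℝ) * Real.log N ^ 2), Real.norm_eq_abs]
    apply div_le_div_of_nonneg_right _ (by positivity)
    rw [← Finset.sum_sub_distrib]
    have e1 : ∀ n : ℕ, f.eval (E (pt a b n y)) - m - Tn af φ f p n (pt a b n y) =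
        (f.eval (E (pt a b n y)) - f.eval (U af φ (pt a b n y) ((n + 1) ^ p))) + (mn af φ f ((n + 1) ^ p) - m) := by
      intro n
      unfold Tn
      ring
    simp only [e1]
    rw [Finset.sum_add_distrib]
    refine (abs_add_le _ _).trans (add_le_add ?_ ?_)
    · exact (Finset.abs_sum_le_sum_abs _ _).trans (hy1.sum_le_tsum _ fun _ _ => abs_nonneg _)
    · exact (Finset.abs_sum_le_sum_abs _ _).trans (hsm.sum_le_tsum _ fun _ _ => abs_nonneg _)
  have h3 := hy2.add h2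
  rw [add_zero] at h3
  refine h3.congr fun N => ?_
  rw [← add_div]
  congr 1
  ring

/-- **the almost everywhere rate** -/
theorem rate_pos {μ : ProbabilityMeasure ℝ} (hL : Lw af φ μ) (hX : Ctx E af φ) (h : Sq a b δ)
    (f : Polynomial ℝ) : ∀ᵐ y : ℝ, 0 < y →
      Tendsto (fun N : ℕ => (∑ n ∈ Finset.range N, (f.eval (E (pt a b n y)) - ∫ x, f.eval x ∂(μ : Measure ℝ))) /
        (√N * log N ^ 2)) atTop (𝓝 0) := by
  have h1 : ∀ j : ℕ, ∀ᵐ y : ℝ, y ∈ Icc (((j:ℝ) + 1)⁻¹) ((j:ℝ) + 2) →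
      Tendsto (fun N : ℕ => (∑ n ∈ Finset.range N, (f.eval (E (pt a b n y)) - ∫ x, f.eval x ∂(μ : Measure ℝ))) /
        (√N * log N ^ 2)) atTop (𝓝 0) := by
    intro j
    have hj : (0:ℝ) ≤ j := Nat.cast_nonneg j
    rw [← ae_restrict_iff' measurableSet_Icc]
    apply rate_Icc hL hX h (by positivity)
    calc ((j:ℝ) + 1)⁻¹ ≤ 1 := inv_le_one_of_one_le₀ (by linarith)
      _ < (j:ℝ) + 2 := by linarith
  rw [← ae_all_iff] at h1
  filter_upwards [h1] with y hy hy0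
  obtain ⟨j1, hj1⟩ := exists_nat_ge (y⁻¹)
  obtain ⟨j2, hj2⟩ := exists_nat_ge y
  apply hy (max j1 j2)
  constructor
  · rw [inv_le_comm₀ (by positivity) hy0]
    have : (j1:ℝ) ≤ ((max j1 j2 : ℕ) : ℝ) := by exact_mod_cast le_max_left _ _
    linarith
  · have : (j2:ℝ) ≤ ((max j1 j2 : ℕ) : ℝ) := by exact_mod_cast le_max_right _ _
    linarith

end Run7.h113.CL
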