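import Mathlib
import Pool.Agent.Run7.h113.CL.RM
import Pool.Agent.R306.GP.CircIID

/-!
The circle problem: the central limit theorem along powers.
-/

set_option autoImplicit false

open MeasureTheory Filter Topology Set Real ProbabilityTheory
open scoped ENNReal
open Pool.Agent.H383.Gen (U Bd)
open Pool.Agent.H383.Gauss (En)
open Pool.Agent.H383.Circ (ag_Bd ag_zero wg_Wt En_Sand)
open Pool.Agent.Y969.TM
open Pool.Agent.R306.GP
open Pool.Agent.R306.Circ (iidMain P_En En_meas)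

namespace Run7.h113.CL

/-- polynomials have polynomial growth -/
lemma poly_growth (f : Polynomial ℝ) : ∃ (C : ℝ) (p : ℕ), ∀ x : ℝ, |f.eval x| ≤ C * (1 + |x| ^ p) := by
  refine ⟨∑ i ∈ Finset.range (f.natDegree + 1), |f.coeff i|, f.natDegree, fun x => ?_⟩
  rw [Polynomial.eval_eq_sum_range, Finset.sum_mul]
  refine (Finset.abs_sum_le_sum_abs _ _).trans (Finset.sum_le_sum fun i hi => ?_)
  rw [abs_mul, abs_pow]
  apply mul_le_mul_of_nonneg_left _ (abs_nonneg _)
  have hi' : i ≤ f.natDegree := Nat.lt_succ_iff.mp (Finset.mem_range.mp hi)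
  rcases le_total |x| 1 with h | h
  · have h1 : |x| ^ i ≤ 1 := pow_le_one₀ (abs_nonneg _) h
    have h2 : 0 ≤ |x| ^ f.natDegree := by positivity
    linarith
  · have h1 : |x| ^ i ≤ |x| ^ f.natDegree := pow_le_pow_right₀ h hi'
    linarith

/-- the law -/
theorem lw_main : ∃ μ : ProbabilityMeasure ℝ, (∀ x : ℝ, (μ : Measure ℝ) {x} = 0) ∧
    (∀ u v : ℝ, u < v → 0 < (μ : Measure ℝ) (Ioo u v)) ∧
    (∀ x η : ℝ, 0 < η → ∃ R₀ : ℝ, ∀ R : ℝ, R₀ ≤ R → ∀ H : ℝ, R ^ (3 / 4 : ℝ) ≤ H → H ≤ R →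
      |volume.real {r : ℝ | R < r ∧ r ≤ R + H ∧ Pool.Agent.R306.Circ.P r ≤ x * √r} - (μ : Measure ℝ).real (Iic x) * H| ≤ η * H) ∧
    Lw Pool.Agent.H383.Circ.ag (3 * Real.pi/4) μ := by
  obtain ⟨μ, h1, h2, h3, h4⟩ := iidMain
  refine ⟨μ, h1, h2, h3, ?_⟩
  have g1 := h4 (fun n => (n:ℝ) + 1) (fun _ => 1) 1 one_pos (fun n => by push_cast; linarith) (fun _ => one_pos)
    monotone_const
  obtain ⟨C0, hC0, hS⟩ := En_Sand
  have hX := Ctx.of ag_Bd ag_zero wg_Wt hC0 hS En_meas
  have hSq : Sq (fun n : ℕ => (n:ℝ) + 1) (fun _ => 1) 1 :=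
    ⟨one_pos, le_rfl, fun n => by
      have : (0:ℝ) ≤ n := Nat.cast_nonneg n
      show (1:ℝ) ≤ (n:ℝ) + 1
      linarith, fun n => by push_cast; linarith, fun _ => one_pos, monotone_const⟩
  have g2 := ae_exp (p := fun α => (∀ (k : ℕ) (p : Fin k → ℕ) (K : ℕ),
    Tendsto (fun N : ℕ => (∑ n ∈ Finset.range N, ∏ j : Fin k, ((U Pool.Agent.H383.Circ.ag (3 * Real.pi/4) (pj (fun n : ℕ => (n:ℝ) + 1) (fun _ => 1) n (Real.log α) j) K : ℝ) : ℂ) ^ (p j)) / (N:ℂ)) atTop
      (𝓝 (∏ j, ZZ Pool.Agent.H383.Circ.ag (3 * Real.pi/4) (p j) K))) ∧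
      (∀ (j : ℕ), ∀ ε : ℝ, 0 < ε → ∀ᶠ K : ℕ in atTop, ∀ᶠ N : ℕ in atTop,
      ∑ n ∈ Finset.range N, (En (pj (fun n : ℕ => (n:ℝ) + 1) (fun _ => 1) n (Real.log α) j) - U Pool.Agent.H383.Circ.ag (3 * Real.pi/4) (pj (fun n : ℕ => (n:ℝ) + 1) (fun _ => 1) n (Real.log α) j) K) ^ 2 ≤ ε * N))
      (by
        filter_upwards [mixed hSq Pool.Agent.H383.Circ.ag (3 * Real.pi/4), good2_pos hX hSq] with y hy1 hy2 hy0
        rw [Real.log_exp]
        exact ⟨hy1 hy0, hy2 hy0⟩)
  have g3 : ∀ᵐ α ∂(volume.restrict (Ioi (1:ℝ))), Lw Pool.Agent.H383.Circ.ag (3 * Real.pi/4) μ := by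
    rw [ae_restrict_iff' measurableSet_Ioi]
    filter_upwards [g1, g2] with α ha1 ha2 hα
    obtain ⟨hf, -, -⟩ := ha1 hα
    obtain ⟨hm, hl⟩ := ha2 hα
    have hα0 : 0 < α := lt_trans one_pos hα
    have e1 : ∀ n : ℕ, (1:ℝ) * α ^ ((n:ℝ) + 1) * α ^ (0:ℕ) = pj (fun n : ℕ => (n:ℝ) + 1) (fun _ => 1) n (Real.log α) 0 := by
      intro n
      unfold pj pt
      rw [Real.rpow_def_of_pos hα0, mul_comm (Real.log α)]
      simp
    refine lw_of (E := En) (q := fun n => pj (fun n : ℕ => (n:ℝ) + 1) (fun _ => 1) n (Real.log α) 0) ag_Bd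
      (fun r K => ?_) (hl 0) (fun f => ?_)
    · have := hm 1 (fun _ => r) K
      simpa using this
    · obtain ⟨C, p, hC⟩ := poly_growth f
      have hC0 : 0 ≤ C := by
        have h5 := hC 0
        have h6 := abs_nonneg (f.eval 0)
        have h7 : 0 ≤ C * (1 + |(0:ℝ)| ^ p) := h6.trans h5
        have h8 : 0 < 1 + |(0:ℝ)| ^ p := by positivity
        exact nonneg_of_mul_nonneg_left h7 h8
      have h6 := hf 1 (fun x => f.eval (x 0)) (by fun_prop) ⟨C, p, fun x => by
        have h7 := hC (x 0)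
        have h8 : |x 0| ^ p ≤ ‖x‖ ^ p := pow_le_pow_left₀ (abs_nonneg _) (norm_le_pi_norm x 0) p
        have h9 : C * (1 + |x 0| ^ p) ≤ C * (1 + ‖x‖ ^ p) := by gcongr
        linarith⟩
      have h9 := (measurePreserving_eval (fun _ : Fin 1 => (μ : Measure ℝ)) 0)
      have e5 : ∫ x, f.eval (x 0) ∂(Measure.pi fun _ : Fin 1 => (μ : Measure ℝ)) = ∫ x, f.eval x ∂(μ : Measure ℝ) := by
        have h10 := integral_map (f := fun x => f.eval x) (μ := Measure.pi fun _ : Fin 1 => (μ : Measure ℝ))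
          h9.measurable.aemeasurable f.continuous.aestronglyMeasurable
        rw [h9.map_eq] at h10
        exact h10.symm
      refine ⟨?_, ?_⟩
      · have h11 := (h9.integrable_comp (g := fun x : ℝ => f.eval x) f.continuous.aestronglyMeasurable).mp h6.1
        exact h11
      · have h7 := h6.2
        rw [e5] at h7
        refine h7.congr fun N => ?_
        congr 1
        apply Finset.sum_congr rfl
        intro n _
        rw [← e1]
        rfl
  have : (ae (volume.restrict (Ioi (1:ℝ)))).NeBot := ae_restrict_neBot.mpr (by simp)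
  obtain ⟨α, hα⟩ := g3.exists
  exact hα

/-- the variance is positive -/
lemma var_pos {μ : ProbabilityMeasure ℝ} (hμ : ∀ u v : ℝ, u < v → 0 < (μ : Measure ℝ) (Ioo u v))
    (hi : ∀ f : Polynomial ℝ, Integrable (fun x => f.eval x) (μ : Measure ℝ)) {f : Polynomial ℝ} (hf : 0 < f.natDegree) :
    0 < (∫ x, f.eval x ^ 2 ∂(μ : Measure ℝ)) - (∫ x, f.eval x ∂(μ : Measure ℝ)) ^ 2 := by
  set m := ∫ x, f.eval x ∂(μ : Measure ℝ) with hm
  set g : Polynomial ℝ := f - Polynomial.C m with hg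
  have hg0 : g ≠ 0 := by
    intro h0
    have : f = Polynomial.C m := sub_eq_zero.mp h0
    rw [this, Polynomial.natDegree_C] at hf
    exact lt_irrefl _ hf
  have e1 : (∫ x, f.eval x ^ 2 ∂(μ : Measure ℝ)) - m ^ 2 = ∫ x, (g ^ 2).eval x ∂(μ : Measure ℝ) := by
    have e2 : ∀ x, (g ^ 2).eval x = ((f ^ 2).eval x - (2 * m) * f.eval x) + m ^ 2 := by
      intro x
      simp only [hg, Polynomial.eval_pow, Polynomial.eval_sub, Polynomial.eval_C]
      ring
    simp only [e2]
    have i1 : Integrable (fun x => (f ^ 2).eval x) (μ : Measure ℝ) := hi (f ^ 2)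
    have i2 : Integrable (fun x => (2 * m) * f.eval x) (μ : Measure ℝ) := (hi f).const_mul _
    have i3 : Integrable (fun x => (f ^ 2).eval x - (2 * m) * f.eval x) (μ : Measure ℝ) := i1.sub i2
    rw [integral_add i3 (integrable_const _), integral_sub i1 i2, integral_const_mul, ← hm]
    simp only [Polynomial.eval_pow, integral_const, probReal_univ, smul_eq_mul]
    ring
  rw [e1, integral_pos_iff_support_of_nonneg]
  · -- the zero set is finite
    have hfin : {x : ℝ | g.eval x = 0}.Finite := by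
      have := g.roots.toFinset.finite_toSet
      refine this.subset fun x hx => ?_
      simp only [Finset.mem_coe, Multiset.mem_toFinset]
      exact (Polynomial.mem_roots hg0).mpr hx
    have hopen : IsOpen {x : ℝ | g.eval x = 0}ᶜ := hfin.isClosed.isOpen_compl
    have hne : ({x : ℝ | g.eval x = 0}ᶜ).Nonempty := by
      by_contra h0
      rw [not_nonempty_iff_eq_empty, compl_empty_iff] at h0
      exact infinite_univ (h0 ▸ hfin)
    obtain ⟨x, hx⟩ := hne
    obtain ⟨ε, hε, hball⟩ := Metric.isOpen_iff.mp hopen x hx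
    rw [Real.ball_eq_Ioo] at hball
    refine lt_of_lt_of_le (hμ (x - ε) (x + ε) (by linarith)) (measure_mono ?_)
    intro z hz
    rw [Function.mem_support, Polynomial.eval_pow]
    exact pow_ne_zero _ (hball hz)
  · intro x
    simp only [Polynomial.eval_pow, Pi.zero_apply]
    positivity
  · exact hi (g ^ 2)

/-- change of finitely many exponents -/
lemma sq_mod {a b : ℕ → ℝ} {δ : ℝ} (hδ : 0 < δ) (hg : ∀ n, a n + δ ≤ a (n + 1)) (hb : ∀ n, 0 < b n) (hbm : Monotone b) :
    ∃ (a' : ℕ → ℝ) (δ' : ℝ) (n0 : ℕ), Sq a' b δ' ∧ ∀ n, n0 ≤ n → a' n = a n := by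
  set δ' := min δ 1 / 2 with hδ'
  have hd0 : 0 < δ' := by
    have : 0 < min δ 1 := lt_min hδ one_pos
    positivity
  have hd1 : δ' ≤ δ / 2 := by
    have := min_le_left δ 1
    rw [hδ']; linarith
  have hd2 : δ' ≤ 1 := by
    have := min_le_right δ 1
    rw [hδ']; linarith
  have hlow : ∀ n : ℕ, a 0 + δ * n ≤ a n := by
    intro n
    induction n with
    | zero => simp
    | succ n ih =>
      have := hg n
      push_cast
      linarith
  obtain ⟨n0, hn0⟩ := exists_nat_ge (2 * (1 - a 0) / δ)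
  have hn0' : 1 + δ' * n0 ≤ a n0 := by
    have h1 := hlow n0
    rw [div_le_iff₀ hδ] at hn0
    have h2 : δ' * n0 ≤ δ / 2 * n0 := mul_le_mul_of_nonneg_right hd1 (Nat.cast_nonneg _)
    linarith
  refine ⟨fun n => if n < n0 then 1 + δ' * n else a n, δ', n0, ⟨hd0, hd2, fun n => ?_, fun n => ?_, hb, hbm⟩, fun n hn => ?_⟩
  · show (1:ℝ) ≤ if n < n0 then 1 + δ' * n else a n
    split_ifs with h
    · have : 0 ≤ δ' * n := by positivity
      linarith
    · have hmono : Monotone a := monotone_nat_of_le_succ (fun k => by have := hg k; linarith)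
      have h1 := hmono (not_lt.mp h)
      have : 0 ≤ δ' * n0 := by positivity
      linarith
  · show (if n < n0 then 1 + δ' * n else a n) + δ' ≤ if n + 1 < n0 then 1 + δ' * ((n + 1 : ℕ):ℝ) else a (n + 1)
    split_ifs with h1 h2 h2
    · push_cast; linarith
    · have h3 : n + 1 = n0 := by omega
      have e1 : (n0:ℝ) = (n:ℝ) + 1 := by exact_mod_cast h3.symm
      have h4 : a (n + 1) = a n0 := by rw [h3]
      rw [h4]
      rw [e1] at hn0'
      linarith
    · omega
    · have := hg n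
      linarith
  · show (if n < n0 then 1 + δ' * n else a n) = a n
    rw [if_neg (not_lt.mpr hn)]

/-- sums which differ in finitely many terms -/
lemma sum_mod {x x' : ℕ → ℝ} {n0 : ℕ} (h : ∀ n, n0 ≤ n → x' n = x n) {N : ℕ} (hN : n0 ≤ N) :
    ∑ n ∈ Finset.range N, x n = ∑ n ∈ Finset.range N, x' n + (∑ n ∈ Finset.range n0, x n - ∑ n ∈ Finset.range n0, x' n) := by
  obtain ⟨k, rfl⟩ := Nat.exists_eq_add_of_le hN
  rw [Finset.sum_range_add, Finset.sum_range_add]
  have : ∑ i ∈ Finset.range k, x' (n0 + i) = ∑ i ∈ Finset.range k, x (n0 + i) :=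
    Finset.sum_congr rfl fun i _ => h _ (Nat.le_add_right _ _)
  rw [this]
  ring

/-- sums divided by a quantity tending to infinity do not depend on finitely many terms -/
lemma lim_mod {x x' : ℕ → ℝ} {n0 : ℕ} (h : ∀ n, n0 ≤ n → x' n = x n) {D : ℕ → ℝ} (hD : Tendsto D atTop atTop) :
    Tendsto (fun N => (∑ n ∈ Finset.range N, x n) / D N - (∑ n ∈ Finset.range N, x' n) / D N) atTop (𝓝 0) := by
  have h1 : Tendsto (fun N => (∑ n ∈ Finset.range n0, x n - ∑ n ∈ Finset.range n0, x' n) / D N) atTop (𝓝 0) :=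
    hD.const_div_atTop _
  refine h1.congr' ?_
  filter_upwards [eventually_ge_atTop n0] with N hN
  rw [sum_mod h hN, ← sub_div]
  congr 1
  ring

variable {E : ℝ → ℝ} {af : ℕ → ℝ} {φ : ℝ}

/-- the almost everywhere rate, for all gapped sequences and all polynomials -/
theorem rate_all {μ : ProbabilityMeasure ℝ} (hL : Lw af φ μ) (hX : Ctx E af φ) {a b : ℕ → ℝ} {δ : ℝ} (hδ : 0 < δ)
    (hg : ∀ n, a n + δ ≤ a (n + 1)) (hb : ∀ n, 0 < b n) (hbm : Monotone b) :
    ∀ᵐ α : ℝ, 1 < α → ∀ f : Polynomial ℝ,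
      Tendsto (fun N : ℕ => (∑ n ∈ Finset.range N, (f.eval (E (b n * α ^ a n)) - ∫ x, f.eval x ∂(μ : Measure ℝ))) /
        (√N * log N ^ 2)) atTop (𝓝 0) := by
  obtain ⟨a', δ', n0, hS, ha'⟩ := sq_mod hδ hg hb hbm
  have hden : Tendsto (fun N : ℕ => √(N:ℝ) * Real.log N ^ 2) atTop atTop := by
    apply Tendsto.atTop_mul_atTop₀
    · exact Real.tendsto_sqrt_atTop.comp tendsto_natCast_atTop_atTop
    · exact (tendsto_pow_atTop (by norm_num)).comp (Real.tendsto_log_atTop.comp tendsto_natCast_atTop_atTop)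
  have h1 : ∀ k : ℕ, ∀ᵐ y : ℝ, 0 < y →
      Tendsto (fun N : ℕ => (∑ n ∈ Finset.range N, (E (pt a' b n y) ^ k - ∫ x, x ^ k ∂(μ : Measure ℝ))) /
        (√N * log N ^ 2)) atTop (𝓝 0) := by
    intro k
    have := rate_pos hL hX hS (Polynomial.X ^ k)
    simpa only [Polynomial.eval_pow, Polynomial.eval_X] using this
  rw [← ae_all_iff] at h1
  have h2 := ae_exp (p := fun α => ∀ k : ℕ, Tendsto (fun N : ℕ => (∑ n ∈ Finset.range N, (E (pt a' b n (Real.log α)) ^ k -
      ∫ x, x ^ k ∂(μ : Measure ℝ))) / (√N * Real.log N ^ 2)) atTop (𝓝 0)) (by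
    filter_upwards [h1] with y hy hy0 k
    rw [Real.log_exp]
    exact hy k hy0)
  filter_upwards [h2] with α hα hα1 f
  have hα0 : 0 < α := by linarith
  have h3 := hα hα1
  have hpt : ∀ n, pt a' b n (Real.log α) = b n * α ^ a' n := by
    intro n
    unfold pt
    rw [Real.rpow_def_of_pos hα0, mul_comm (Real.log α)]
  simp only [hpt] at h3
  -- monomials for the original sequence
  have h4 : ∀ k : ℕ, Tendsto (fun N : ℕ => (∑ n ∈ Finset.range N, (E (b n * α ^ a n) ^ k - ∫ x, x ^ k ∂(μ : Measure ℝ))) /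
      (√N * Real.log N ^ 2)) atTop (𝓝 0) := by
    intro k
    have h5 := lim_mod (x := fun n => E (b n * α ^ a n) ^ k - ∫ x, x ^ k ∂(μ : Measure ℝ))
      (x' := fun n => E (b n * α ^ a' n) ^ k - ∫ x, x ^ k ∂(μ : Measure ℝ)) (n0 := n0)
      (fun n hn => by simp only [ha' n hn]) hden
    have h6 := h5.add (h3 k)
    rw [add_zero] at h6
    refine h6.congr fun N => ?_
    ring
  have h5 : Tendsto (fun N : ℕ => ∑ k ∈ Finset.range (f.natDegree + 1), f.coeff k *
      ((∑ n ∈ Finset.range N, (E (b n * α ^ a n) ^ k - ∫ x, x ^ k ∂(μ : Measure ℝ))) / (√N * Real.log N ^ 2))) atTop (𝓝 0) := by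
    have := tendsto_finsetSum (Finset.range (f.natDegree + 1)) fun k _ => (h4 k).const_mul (f.coeff k)
    simpa using this
  refine h5.congr fun N => ?_
  have e1 : ∫ x, f.eval x ∂(μ : Measure ℝ) = ∑ k ∈ Finset.range (f.natDegree + 1), f.coeff k * ∫ x, x ^ k ∂(μ : Measure ℝ) := by
    simp only [Polynomial.eval_eq_sum_range]
    rw [integral_finsetSum]
    · simp only [integral_const_mul]
    · intro k _
      have := hL.int (Polynomial.X ^ k)
      simp only [Polynomial.eval_pow, Polynomial.eval_X] at this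
      exact this.const_mul _
  have e2 : ∀ x, f.eval x - ∫ x, f.eval x ∂(μ : Measure ℝ) = ∑ k ∈ Finset.range (f.natDegree + 1), f.coeff k *
      (x ^ k - ∫ x, x ^ k ∂(μ : Measure ℝ)) := by
    intro x
    rw [e1, Polynomial.eval_eq_sum_range, ← Finset.sum_sub_distrib]
    exact Finset.sum_congr rfl fun k _ => by ring
  simp only [e2]
  rw [Finset.sum_comm, Finset.sum_div]
  apply Finset.sum_congr rfl
  intro k _
  rw [← Finset.mul_sum, mul_div_assoc]

/-- the central limit theorem, for all gapped sequences -/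
theorem clt_all {μ : ProbabilityMeasure ℝ} (hL : Lw af φ μ) (hX : Ctx E af φ) {a b : ℕ → ℝ} {δ : ℝ} (hδ : 0 < δ)
    (hg : ∀ n, a n + δ ≤ a (n + 1)) (hb : ∀ n, 0 < b n) (hbm : Monotone b) (f : Polynomial ℝ) {m v : ℝ}
    (hm : m = ∫ x, f.eval x ∂(μ : Measure ℝ)) (hv : v = (∫ x, f.eval x ^ 2 ∂(μ : Measure ℝ)) - m ^ 2)
    (hv0 : 0 < v) {A : Set ℝ} (hA : MeasurableSet A) (hA1 : A ⊆ Ioi 1) (hAf : volume A < ∞) (x : ℝ) :
    Tendsto (fun N : ℕ => volume.real {α | α ∈ A ∧ ∑ n ∈ Finset.range N, (f.eval (E (b n * α ^ a n)) - m) ≤ x * √(v * N)})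
      atTop (𝓝 (volume.real A * (gaussianReal 0 1).real (Iic x))) := by
  obtain ⟨a', δ', n0, hS, ha'⟩ := sq_mod hδ hg hb hbm
  have hden : Tendsto (fun N : ℕ => √(v * (N:ℝ))) atTop atTop :=
    Real.tendsto_sqrt_atTop.comp (tendsto_natCast_atTop_atTop.const_mul_atTop hv0)
  set Y : ℕ → ℝ → ℝ := fun N α => (∑ n ∈ Finset.range N, (f.eval (E (b n * α ^ a n)) - m)) / √(v * N) with hYd
  set Y' : ℕ → ℝ → ℝ := fun N α => (∑ n ∈ Finset.range N, (f.eval (E (b n * α ^ a' n)) - m)) / √(v * N) with hYd'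
  have hmeas : ∀ (a : ℕ → ℝ) (N : ℕ), Measurable fun α => (∑ n ∈ Finset.range N, (f.eval (E (b n * α ^ a n)) - m)) / √(v * N) := by
    intro a N
    apply Measurable.div_const
    apply Finset.measurable_sum
    intro n _
    have h1 : Measurable fun α : ℝ => b n * α ^ a n := (measurable_id.pow_const _).const_mul _
    exact (f.continuous.measurable.comp (hX.meas.comp h1)).sub_const _
  have hYm : ∀ N, Measurable (Y N) := hmeas a
  have hYm' : ∀ N, Measurable (Y' N) := hmeas a'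
  have h1 := clt_of_char hYm hA hAf (fun t => ?_) x
  · refine h1.congr' ?_
    filter_upwards [eventually_ge_atTop 1] with N hN
    have hN0 : (0:ℝ) < N := by exact_mod_cast hN
    have hs : 0 < √(v * N) := Real.sqrt_pos.mpr (by positivity)
    congr 1
    ext α
    simp only [Set.mem_ofPred_eq, hYd, div_le_iff₀ hs]
  · have h2 := clt_mix hL hX hS f hm hv hv0 hA hA1 hAf t
    have h3 : Tendsto (fun N => ∫ α in A, (ei (t * Y N α) - ei (t * Y' N α))) atTop (𝓝 0) := by
      have h0 : ∫ α in A, (0:ℂ) = 0 := by simp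
      rw [← h0]
      apply tendsto_integral_filter_of_dominated_convergence (fun _ => (2:ℝ))
      · exact Eventually.of_forall fun N => ((ei_cont.measurable.comp ((hYm N).const_mul t)).sub
          (ei_cont.measurable.comp ((hYm' N).const_mul t))).aestronglyMeasurable
      · refine Eventually.of_forall fun N => Eventually.of_forall fun α => ?_
        refine (norm_sub_le _ _).trans ?_
        rw [ei_norm, ei_norm]; norm_num
      · exact integrableOn_const hAf.ne
      · refine Eventually.of_forall fun α => ?_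
        have h4 := (lim_mod (x := fun n => f.eval (E (b n * α ^ a n)) - m)
          (x' := fun n => f.eval (E (b n * α ^ a' n)) - m) (n0 := n0)
          (fun n hn => by simp only [ha' n hn]) hden).const_mul t
        rw [mul_zero] at h4
        rw [tendsto_zero_iff_norm_tendsto_zero]
        refine squeeze_zero (fun _ => norm_nonneg _) (fun N => ei_lip _ _) ?_
        have h5 := h4.abs
        rw [abs_zero] at h5
        refine h5.congr fun N => ?_
        simp only [hYd, hYd']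
        congr 1
        ring
    have h4 := h3.add h2
    rw [add_zero] at h4
    refine h4.congr fun N => ?_
    rw [← integral_add]
    · congr 1
      funext α
      simp only [hYd']
      ring
    · refine Measure.integrableOn_of_bounded (M := 2) hAf.ne ?_ ?_
      · exact ((ei_cont.measurable.comp ((hYm N).const_mul t)).sub
          (ei_cont.measurable.comp ((hYm' N).const_mul t))).aestronglyMeasurable
      · refine Eventually.of_forall fun α => ?_
        refine (norm_sub_le _ _).trans ?_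
        rw [ei_norm, ei_norm]; norm_num
    · refine Measure.integrableOn_of_bounded (M := 2) hAf.ne ?_ ?_
      · exact ((ei_cont.measurable.comp ((hYm' N).const_mul t)).sub_const _).aestronglyMeasurable
      · refine Eventually.of_forall fun α => ?_
        refine (norm_sub_le _ _).trans ?_
        rw [ei_norm, Complex.norm_real, Real.norm_of_nonneg (exp_pos _).le]
        have : exp (-(t ^ 2 / 2)) ≤ 1 := Real.exp_le_one_iff.mpr (by have := sq_nonneg t; linarith)
        linarith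

/-- **the central limit theorem along powers** -/
theorem cltMain : ∃ μ : ProbabilityMeasure ℝ, (∀ x : ℝ, (μ : Measure ℝ) {x} = 0) ∧
    (∀ u v : ℝ, u < v → 0 < (μ : Measure ℝ) (Ioo u v)) ∧
    (∀ x η : ℝ, 0 < η → ∃ R₀ : ℝ, ∀ R : ℝ, R₀ ≤ R → ∀ H : ℝ, R ^ (3 / 4 : ℝ) ≤ H → H ≤ R →
      |volume.real {r : ℝ | R < r ∧ r ≤ R + H ∧ Pool.Agent.R306.Circ.P r ≤ x * √r} - (μ : Measure ℝ).real (Iic x) * H| ≤ η * H) ∧
    Lw Pool.Agent.H383.Circ.ag (3 * Real.pi/4) μ ∧
    ∀ (a b : ℕ → ℝ) (δ : ℝ), 0 < δ → (∀ n, a n + δ ≤ a (n + 1)) → (∀ n, 0 < b n) → Monotone b →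
      (∀ᵐ α : ℝ, 1 < α → ∀ f : Polynomial ℝ,
        Tendsto (fun N : ℕ => (∑ n ∈ Finset.range N, (f.eval (En (b n * α ^ a n)) - ∫ x, f.eval x ∂(μ : Measure ℝ))) /
          (√N * log N ^ 2)) atTop (𝓝 0)) ∧
      ∀ (f : Polynomial ℝ), 0 < f.natDegree → ∀ (m v : ℝ), m = ∫ x, f.eval x ∂(μ : Measure ℝ) →
        v = ∫ x, (f.eval x - m) ^ 2 ∂(μ : Measure ℝ) → 0 < v ∧
        ∀ A : Set ℝ, MeasurableSet A → A ⊆ Ioi 1 → volume A < ∞ → ∀ x : ℝ,
          Tendsto (fun N : ℕ => volume.real {α | α ∈ A ∧ ∑ n ∈ Finset.range N, (f.eval (En (b n * α ^ a n)) - m) ≤ x * √(v * N)})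
            atTop (𝓝 (volume.real A * (gaussianReal 0 1).real (Iic x))) := by
  obtain ⟨μ, h1, h2, h3, hL⟩ := lw_main
  obtain ⟨C0, hC0, hS⟩ := En_Sand
  have hX := Ctx.of ag_Bd ag_zero wg_Wt hC0 hS En_meas
  refine ⟨μ, h1, h2, h3, hL, fun a b δ hδ hg hb hbm => ⟨rate_all hL hX hδ hg hb hbm, fun f hf m v hm hv => ?_⟩⟩
  have hv' : v = (∫ x, f.eval x ^ 2 ∂(μ : Measure ℝ)) - m ^ 2 := by
    rw [hv]
    have e2 : ∀ x, (f.eval x - m) ^ 2 = ((f ^ 2).eval x - (2 * m) * f.eval x) + m ^ 2 := by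
      intro x
      simp only [Polynomial.eval_pow]
      ring
    simp only [e2]
    have i1 : Integrable (fun x => (f ^ 2).eval x) (μ : Measure ℝ) := hL.int (f ^ 2)
    have i2 : Integrable (fun x => (2 * m) * f.eval x) (μ : Measure ℝ) := (hL.int f).const_mul _
    have i3 : Integrable (fun x => (f ^ 2).eval x - (2 * m) * f.eval x) (μ : Measure ℝ) := i1.sub i2
    rw [integral_add i3 (integrable_const _), integral_sub i1 i2, integral_const_mul, ← hm]
    simp only [Polynomial.eval_pow, integral_const, probReal_univ, smul_eq_mul]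
    ring
  have hv0 : 0 < v := by
    have := var_pos h2 hL.int hf
    rw [← hm, ← hv'] at this
    exact this
  exact ⟨hv0, fun A hA hA1 hAf x => clt_all hL hX hδ hg hb hbm f hm hv' hv0 hA hA1 hAf x⟩

end Run7.h113.CL
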