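import Mathlib
import Pool.Agent.Run7.h113.CL.Main

/-!
The mean of the limit law vanishes.
-/

set_option autoImplicit false

open MeasureTheory Filter Topology Set Real
open Pool.Agent.Y969.TM
open Pool.Agent.H383.Gauss (En)
open Pool.Agent.R306.GP

namespace Run7.h113.CL

lemma ZZ_one_zero (af : ℕ → ℝ) (φ : ℝ) (M : ℕ) : ZZ af φ 1 M = 0 := by
  unfold ZZ
  apply Finset.sum_eq_zero
  intro y hy
  exfalso
  rw [Finset.mem_filter] at hy
  obtain ⟨h1, h2⟩ := hy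
  unfold TT at h1
  have h3 := (Fintype.mem_piFinset.mp h1) 0
  unfold JS at h3
  rw [Finset.mem_product, Finset.mem_Icc] at h3
  have h4 : (0:ℝ) < √((y 0).1 : ℝ) := Real.sqrt_pos.mpr (by exact_mod_cast h3.1.1)
  simp only [Finset.univ_unique, Fin.default_eq_zero, Fin.isValue, Finset.sum_singleton] at h2
  unfold fq sb at h2
  by_cases hb : (y 0).2 = true
  · rw [if_pos hb] at h2
    push_cast at h2
    linarith
  · rw [if_neg hb] at h2
    push_cast at h2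
    linarith

lemma mean_zero {af : ℕ → ℝ} {φ : ℝ} {μ : ProbabilityMeasure ℝ} (hL : Lw af φ μ) : ∫ x, x ∂(μ : Measure ℝ) = 0 := by
  have h1 := hL.lim Polynomial.X
  have h2 : ∀ K, mn af φ Polynomial.X K = 0 := by
    intro K
    unfold mn
    rw [Polynomial.natDegree_X, Finset.sum_range_succ, Finset.sum_range_one]
    simp [ZZ_one_zero, Polynomial.coeff_X]
  simp only [h2, Polynomial.eval_X] at h1
  exact (tendsto_nhds_unique h1 tendsto_const_nhds)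

/-- **the central limit theorem along powers** -/
theorem cltMain0 : ∃ μ : ProbabilityMeasure ℝ, (∀ x : ℝ, (μ : Measure ℝ) {x} = 0) ∧
    (∀ u v : ℝ, u < v → 0 < (μ : Measure ℝ) (Ioo u v)) ∧
    (∀ x η : ℝ, 0 < η → ∃ R₀ : ℝ, ∀ R : ℝ, R₀ ≤ R → ∀ H : ℝ, R ^ (3 / 4 : ℝ) ≤ H → H ≤ R →
      |volume.real {r : ℝ | R < r ∧ r ≤ R + H ∧ Pool.Agent.R306.Circ.P r ≤ x * √r} - (μ : Measure ℝ).real (Iic x) * H| ≤ η * H) ∧
    (∀ f : Polynomial ℝ, Integrable (fun x => f.eval x) (μ : Measure ℝ)) ∧ ∫ x, x ∂(μ : Measure ℝ) = 0 ∧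
    ∀ (a b : ℕ → ℝ) (δ : ℝ), 0 < δ → (∀ n, a n + δ ≤ a (n + 1)) → (∀ n, 0 < b n) → Monotone b →
      (∀ᵐ α : ℝ, 1 < α → ∀ f : Polynomial ℝ,
        Tendsto (fun N : ℕ => (∑ n ∈ Finset.range N, (f.eval (En (b n * α ^ a n)) - ∫ x, f.eval x ∂(μ : Measure ℝ))) /
          (√N * Real.log N ^ 2)) atTop (𝓝 0)) ∧
      ∀ (f : Polynomial ℝ), 0 < f.natDegree → ∀ (m v : ℝ), m = ∫ x, f.eval x ∂(μ : Measure ℝ) →
        v = ∫ x, (f.eval x - m) ^ 2 ∂(μ : Measure ℝ) → 0 < v ∧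
        ∀ A : Set ℝ, MeasurableSet A → A ⊆ Ioi 1 → volume A < ⊤ → ∀ x : ℝ,
          Tendsto (fun N : ℕ => volume.real {α | α ∈ A ∧ ∑ n ∈ Finset.range N, (f.eval (En (b n * α ^ a n)) - m) ≤ x * √(v * N)})
            atTop (𝓝 (volume.real A * (ProbabilityTheory.gaussianReal 0 1).real (Iic x))) := by
  obtain ⟨μ, k1, k2, k3, hL, k5⟩ := cltMain
  exact ⟨μ, k1, k2, k3, hL.int, mean_zero hL, k5⟩

end Run7.h113.CL
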